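import Mathlib

set_option autoImplicit false

namespace Pool.Agent.Lib.MP_5aea19_al

open Equiv

universe u v w

/-- The value at `a` of a noncommutative polynomial, given as a finitely supported function on
words. -/
noncomputable def ev {F : Type u} [Field F] {R : Type v} [Ring R] [Algebra F R] {ι : Type w}
    (D : List ι →₀ F) (a : ι → R) : R :=
  D.sum fun w c => c • (w.map a).prod

/-- The multilinear identity with coefficients `α` holds on the set `S`. -/
def MLId {F : Type u} [Field F] {d : ℕ} (α : Perm (Fin d) → F) {R : Type v} [Ring R]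
    [Algebra F R] (S : Set R) : Prop :=
  ∀ a : Fin d → R, (∀ i, a i ∈ S) → ∑ σ, α σ • (List.ofFn fun i => a (σ i)).prod = 0

/-- The multilinear identity with coefficients `α` holds on commutators of elements of `R`. -/
def CMLId {F : Type u} [Field F] {d : ℕ} (α : Perm (Fin d) → F) (R : Type v) [Ring R]
    [Algebra F R] : Prop :=
  ∀ x y : Fin d → R,
    ∑ σ, α σ • (List.ofFn fun i => x (σ i) * y (σ i) - y (σ i) * x (σ i)).prod = 0

/-- The identity `D` holds on the set `S`. -/
def DId {F : Type u} [Field F] (D : List (Fin 3) →₀ F) {R : Type v} [Ring R]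
    [Algebra F R] (S : Set R) : Prop :=
  ∀ a : Fin 3 → R, (∀ i, a i ∈ S) → ev D a = 0

/-- `D` is a good polynomial: every word of it contains both letters `0` and `1`, and some word
`0 2 2 ... 2 1` has a nonzero coefficient. -/
def GoodD {F : Type u} [Field F] (D : List (Fin 3) →₀ F) : Prop :=
  (∀ w ∈ D.support, (0 : Fin 3) ∈ w ∧ (1 : Fin 3) ∈ w) ∧
    ∃ j : ℕ, D (0 :: (List.replicate j 2 ++ [1])) ≠ 0

/-- The span of all `u * (v * w - w * v) * s` in the free associative algebra without unit. -/
noncomputable def T0 (F : Type u) [Field F] : Submodule F (MonoidAlgebra F (FreeSemigroup ℕ)) :=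
  Submodule.span F {p | ∃ u v w s : MonoidAlgebra F (FreeSemigroup ℕ),
    p = u * (v * w - w * v) * s}

end Pool.Agent.Lib.MP_5aea19_al
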