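import Mathlib
import Pool.Agent.Lib.MP_5aea19_al.Defs

set_option autoImplicit false

namespace Pool.Agent.Lib.MP_5aea19_al

universe u v w

variable {F : Type u} [Field F] {R : Type v} [Ring R] [Algebra F R]

/-- two-sided ideals, as subspaces -/
def TS (I : Submodule F R) : Prop := ⊤ * I ≤ I ∧ I * ⊤ ≤ I

/-- finite codimension -/
def FI (A : Submodule F R) : Prop := ∃ P : Submodule F R, P.FG ∧ P ⊔ A = ⊤

theorem one_le_top' : (1 : Submodule F R) ≤ ⊤ := le_top

theorem le_top_mul (I : Submodule F R) : I ≤ ⊤ * I := by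
  calc I = 1 * I := (one_mul I).symm
    _ ≤ ⊤ * I := mul_le_mul' le_top le_rfl

theorem le_mul_top (I : Submodule F R) : I ≤ I * ⊤ := by
  calc I = I * 1 := (mul_one I).symm
    _ ≤ I * ⊤ := mul_le_mul' le_rfl le_top

theorem top_mul_top : (⊤ : Submodule F R) * ⊤ = ⊤ :=
  le_antisymm le_top (le_top_mul _)

theorem TS.top_mul {I : Submodule F R} (h : TS I) : ⊤ * I = I :=
  le_antisymm h.1 (le_top_mul I)

theorem TS.mul_top {I : Submodule F R} (h : TS I) : I * ⊤ = I :=
  le_antisymm h.2 (le_mul_top I)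

theorem TS.mul_mem_left {I : Submodule F R} (h : TS I) (r : R) {x : R} (hx : x ∈ I) :
    r * x ∈ I := h.1 (Submodule.mul_mem_mul Submodule.mem_top hx)

theorem TS.mul_mem_right {I : Submodule F R} (h : TS I) (r : R) {x : R} (hx : x ∈ I) :
    x * r ∈ I := h.2 (Submodule.mul_mem_mul hx Submodule.mem_top)

theorem TS.of_mem {I : Submodule F R} (h1 : ∀ r x : R, x ∈ I → r * x ∈ I)
    (h2 : ∀ r x : R, x ∈ I → x * r ∈ I) : TS I :=
  ⟨Submodule.mul_le.2 fun r _ x hx => h1 r x hx, Submodule.mul_le.2 fun x hx r _ => h2 r x hx⟩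

theorem ts_top : TS (⊤ : Submodule F R) := ⟨le_top, le_top⟩

theorem ts_bot : TS (⊥ : Submodule F R) := ⟨by simp, by simp⟩

theorem ts_gen (T : Submodule F R) : TS (⊤ * T * ⊤) := by
  constructor
  · rw [← mul_assoc, ← mul_assoc, top_mul_top]
  · rw [mul_assoc, top_mul_top]

theorem TS.mul {I J : Submodule F R} (hI : TS I) (hJ : TS J) : TS (I * J) := by
  constructor
  · rw [← mul_assoc, hI.top_mul]
  · rw [mul_assoc, hJ.mul_top]

theorem TS.sup {I J : Submodule F R} (hI : TS I) (hJ : TS J) : TS (I ⊔ J) := by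
  constructor
  · rw [Submodule.mul_sup, hI.top_mul, hJ.top_mul]
  · rw [Submodule.sup_mul, hI.mul_top, hJ.mul_top]

theorem TS.inf {I J : Submodule F R} (hI : TS I) (hJ : TS J) : TS (I ⊓ J) :=
  TS.of_mem (fun r _ hx => ⟨hI.mul_mem_left r hx.1, hJ.mul_mem_left r hx.2⟩)
    (fun r _ hx => ⟨hI.mul_mem_right r hx.1, hJ.mul_mem_right r hx.2⟩)

theorem TS.pow {I : Submodule F R} (hI : TS I) (n : ℕ) : TS (I ^ (n + 1)) := by
  induction n with
  | zero => simpa using hI
  | succ n ih => rw [pow_succ]; exact ih.mul hI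

theorem gen_le {T I : Submodule F R} (hI : TS I) (h : T ≤ I) : ⊤ * T * ⊤ ≤ I := by
  calc ⊤ * T * ⊤ ≤ ⊤ * I * ⊤ := mul_le_mul' (mul_le_mul' le_rfl h) le_rfl
    _ = I := by rw [hI.top_mul, hI.mul_top]

theorem le_gen (T : Submodule F R) : T ≤ ⊤ * T * ⊤ :=
  (le_top_mul T).trans (le_mul_top _)

theorem FG.mono {S T : Submodule F R} (hT : T.FG) (h : S ≤ T) : S.FG :=
  hT.of_le h

theorem fi_iff (A : Submodule F R) : FI A ↔ Module.Finite F (R ⧸ A) := by
  constructor
  · rintro ⟨P, hP, hPA⟩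
    have : Module.Finite F P := Module.Finite.iff_fg.2 hP
    refine Module.Finite.of_surjective (A.mkQ.comp P.subtype) ?_
    intro x
    obtain ⟨y, rfl⟩ := A.mkQ_surjective x
    have hy : y ∈ P ⊔ A := by rw [hPA]; trivial
    obtain ⟨p, hp, a, ha, rfl⟩ := Submodule.mem_sup.1 hy
    refine ⟨⟨p, hp⟩, ?_⟩
    simp only [LinearMap.comp_apply, Submodule.subtype_apply, map_add]
    rw [show A.mkQ a = 0 by simpa using ha, add_zero]
  · intro h
    obtain ⟨P, hP⟩ := Submodule.exists_isCompl A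
    refine ⟨P, ?_, by rw [sup_comm]; exact hP.sup_eq_top⟩
    rw [← Module.Finite.iff_fg]
    exact Module.Finite.equiv (Submodule.quotientEquivOfIsCompl A P hP)

theorem fi_ker {V : Type w} [AddCommGroup V] [Module F V] [Module.Finite F V] (f : R →ₗ[F] V) :
    FI (LinearMap.ker f) := by
  rw [fi_iff]
  exact Module.Finite.equiv f.quotKerEquivRange.symm

theorem FI.mono {A B : Submodule F R} (hA : FI A) (h : A ≤ B) : FI B := by
  obtain ⟨P, hP, hPA⟩ := hA
  exact ⟨P, hP, top_le_iff.1 (hPA ▸ sup_le_sup_left h P)⟩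

/-- A bimodule generated by finitely many elements, annihilated on both sides modulo something
finite by ideals of finite codimension, is finite. -/
theorem fin_bimod {A B T W : Submodule F R} (hA : FI A) (hB : FI B) (hT : T.FG) (hW : W.FG)
    (h1 : A * T * ⊤ ≤ W) (h2 : ⊤ * T * B ≤ W) : (⊤ * T * ⊤ : Submodule F R).FG := by
  obtain ⟨P, hP, hPA⟩ := hA
  obtain ⟨Q, hQ, hQB⟩ := hB
  have : (⊤ * T * ⊤ : Submodule F R) ≤ P * T * Q ⊔ W := by
    calc (⊤ * T * ⊤ : Submodule F R) = (P ⊔ A) * T * ⊤ := by rw [hPA]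
      _ = P * T * ⊤ ⊔ A * T * ⊤ := by rw [Submodule.sup_mul, Submodule.sup_mul]
      _ ≤ P * T * ⊤ ⊔ W := sup_le_sup_left h1 _
      _ = P * T * (Q ⊔ B) ⊔ W := by rw [hQB]
      _ = P * T * Q ⊔ P * T * B ⊔ W := by rw [Submodule.mul_sup]
      _ ≤ P * T * Q ⊔ W ⊔ W := by
          refine sup_le_sup_right (sup_le_sup_left ?_ _) _
          exact (mul_le_mul' (mul_le_mul' le_top le_rfl) le_rfl).trans h2
      _ = P * T * Q ⊔ W := by rw [sup_assoc, sup_idem]
  exact FG.mono (((hP.mul hT).mul hQ).sup hW) this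

/-- the two-sided annihilator -/
def ann2 (M : Submodule F R) : Submodule F R where
  carrier := {r | (∀ m ∈ M, r * m = 0) ∧ ∀ m ∈ M, m * r = 0}
  add_mem' := by
    rintro a b ⟨ha, ha'⟩ ⟨hb, hb'⟩
    exact ⟨fun m hm => by rw [add_mul, ha m hm, hb m hm, add_zero],
      fun m hm => by rw [mul_add, ha' m hm, hb' m hm, add_zero]⟩
  zero_mem' := ⟨fun m _ => zero_mul m, fun m _ => mul_zero m⟩
  smul_mem' := by
    rintro c a ⟨ha, ha'⟩
    exact ⟨fun m hm => by rw [smul_mul_assoc, ha m hm, smul_zero],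
      fun m hm => by rw [mul_smul_comm, ha' m hm, smul_zero]⟩

theorem mem_ann2 {M : Submodule F R} {r : R} :
    r ∈ ann2 M ↔ (∀ m ∈ M, r * m = 0) ∧ ∀ m ∈ M, m * r = 0 := Iff.rfl

theorem ts_ann2 {M : Submodule F R} (hM : TS M) : TS (ann2 M) := by
  refine TS.of_mem ?_ ?_
  · rintro r x ⟨hx, hx'⟩
    exact ⟨fun m hm => by rw [mul_assoc, hx m hm, mul_zero],
      fun m hm => by rw [← mul_assoc, hx' _ (hM.mul_mem_right r hm)]⟩
  · rintro r x ⟨hx, hx'⟩
    exact ⟨fun m hm => by rw [mul_assoc, hx _ (hM.mul_mem_left r hm)],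
      fun m hm => by rw [← mul_assoc, hx' m hm, zero_mul]⟩

theorem le_ann2_iff {M N : Submodule F R} : N ≤ ann2 M ↔ N * M ≤ ⊥ ∧ M * N ≤ ⊥ := by
  constructor
  · intro h
    exact ⟨Submodule.mul_le.2 fun n hn m hm => (Submodule.mem_bot F).2 ((h hn).1 m hm),
      Submodule.mul_le.2 fun m hm n hn => (Submodule.mem_bot F).2 ((h hn).2 m hm)⟩
  · rintro ⟨h1, h2⟩ n hn
    exact ⟨fun m hm => (Submodule.mem_bot F).1 (h1 (Submodule.mul_mem_mul hn hm)),
      fun m hm => (Submodule.mem_bot F).1 (h2 (Submodule.mul_mem_mul hm hn))⟩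

theorem fi_ann2 {M : Submodule F R} (hM : TS M) (hfg : M.FG) : FI (ann2 M) := by
  have : Module.Finite F M := Module.Finite.iff_fg.2 hfg
  let f1 : R →ₗ[F] (M →ₗ[F] M) :=
    { toFun := fun r => ((LinearMap.mulLeft F r).restrict (fun x hx => hM.mul_mem_left r hx))
      map_add' := fun a b => by
        ext x
        exact add_mul a b x.1
      map_smul' := fun a b => by
        ext x
        exact smul_mul_assoc a b x.1 }
  let f2 : R →ₗ[F] (M →ₗ[F] M) :=
    { toFun := fun r => ((LinearMap.mulRight F r).restrict (fun x hx => hM.mul_mem_right r hx))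
      map_add' := fun a b => by
        ext x
        exact mul_add x.1 a b
      map_smul' := fun a b => by
        ext x
        exact mul_smul_comm a x.1 b }
  refine (fi_ker (V := (M →ₗ[F] M) × (M →ₗ[F] M)) (f1.prod f2)).mono ?_
  intro r hr
  have hr' : f1 r = 0 ∧ f2 r = 0 := by simpa using hr
  constructor
  · intro m hm
    exact congrArg Subtype.val (LinearMap.congr_fun hr'.1 ⟨m, hm⟩)
  · intro m hm
    exact congrArg Subtype.val (LinearMap.congr_fun hr'.2 ⟨m, hm⟩)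

variable (F R) in
/-- the commutator ideal -/
def cI : Submodule F R :=
  ⊤ * Submodule.span F {z | ∃ x y : R, z = x * y - y * x} * ⊤

theorem ts_cI : TS (cI F R) := ts_gen _

theorem comm_mem_cI (x y : R) : x * y - y * x ∈ cI F R :=
  le_gen _ (Submodule.subset_span ⟨x, y, rfl⟩)

theorem cI_le {I : Submodule F R} (hI : TS I) (h : ∀ x y : R, x * y - y * x ∈ I) :
    cI F R ≤ I :=
  gen_le hI (Submodule.span_le.2 (by rintro _ ⟨x, y, rfl⟩; exact h x y))

end Pool.Agent.Lib.MP_5aea19_al
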