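import Mathlib
import Pool.Agent.Lib.MP_5aea19_al.Defs

set_option autoImplicit false

namespace Pool.Agent.Lib.MP_5aea19_al

universe u v w

section transfer

variable {E E' : Type*} [Ring E] [Ring E'] (f : E →+* E')
  {Q : Type*} [AddCommGroup Q] [Module E Q] [Module E' Q] (h : ∀ (r : E) (q : Q), f r • q = r • q)

include h

theorem span_subset_span (T : Set Q) (hf : Function.Surjective f) :
    (Submodule.span E' T : Set Q) ⊆ Submodule.span E T := by
  intro x hx
  induction hx using Submodule.span_induction with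
  | mem x hx => exact Submodule.subset_span hx
  | zero => exact Submodule.zero_mem _
  | add x y _ _ hx hy => exact Submodule.add_mem _ hx hy
  | smul a x _ hx =>
    obtain ⟨r, rfl⟩ := hf a
    rw [h]
    exact Submodule.smul_mem _ r hx

theorem span_subset_span' (T : Set Q) :
    (Submodule.span E T : Set Q) ⊆ Submodule.span E' T := by
  intro x hx
  induction hx using Submodule.span_induction with
  | mem x hx => exact Submodule.subset_span hx
  | zero => exact Submodule.zero_mem _
  | add x y _ _ hx hy => exact Submodule.add_mem _ hx hy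
  | smul a x _ hx =>
    rw [← h]
    exact Submodule.smul_mem _ _ hx

theorem isNoetherian_transfer (hf : Function.Surjective f) [IsNoetherian E' Q] :
    IsNoetherian E Q := by
  constructor
  intro N
  let N' : Submodule E' Q :=
    { carrier := N
      add_mem' := fun ha hb => N.add_mem ha hb
      zero_mem' := N.zero_mem
      smul_mem' := fun c x hx => by
        obtain ⟨r, rfl⟩ := hf c
        rw [h]
        exact N.smul_mem r hx }
  obtain ⟨T, hT⟩ := IsNoetherian.noetherian N'
  refine ⟨T, le_antisymm ?_ ?_⟩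
  · refine Submodule.span_le.2 ?_
    intro x hx
    have : x ∈ N' := by rw [← hT]; exact Submodule.subset_span hx
    exact this
  · intro x hx
    have hx' : x ∈ N' := hx
    rw [← hT] at hx'
    exact span_subset_span f h _ hf hx'

theorem finite_transfer [Module.Finite E Q] : Module.Finite E' Q := by
  obtain ⟨T, hT⟩ := Module.Finite.fg_top (R := E) (M := Q)
  refine ⟨T, ?_⟩
  rw [eq_top_iff]
  intro x _
  have hx : x ∈ Submodule.span E (T : Set Q) := by rw [hT]; trivial
  exact span_subset_span' f h _ hx

end transfer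

/-- the commutative case -/
theorem finite_of_heart_comm (F : Type u) [Field F] [Finite F] (E : Type v) [CommRing E]
    [Algebra F E] [Algebra.FiniteType F E] (Q : Type w) [AddCommGroup Q] [Module E Q]
    [Module.Finite E Q] (h : Q) (h0 : h ≠ 0) (hh : ∀ N : Submodule E Q, N ≠ ⊥ → h ∈ N) :
    Finite Q := by
  have hnoeth : IsNoetherianRing E := Algebra.FiniteType.isNoetherianRing F E
  let φ := LinearMap.toSpanSingleton E Q h
  let 𝔪 : Ideal E := LinearMap.ker φ
  have hmem : ∀ r : E, r ∈ 𝔪 ↔ r • h = 0 := fun r => by simp [𝔪, φ]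
  have hmax : 𝔪.IsMaximal := by
    refine Ideal.isMaximal_iff.2 ⟨?_, ?_⟩
    · rw [hmem, one_smul]
      exact h0
    · intro J x hJ hx hxJ
      rw [hmem] at hx
      have h1 : h ∈ Submodule.span E {x • h} := hh _ (by
        intro h2
        rw [Submodule.span_singleton_eq_bot] at h2
        exact hx h2)
      obtain ⟨r, hr⟩ := Submodule.mem_span_singleton.1 h1
      have h2 : 1 - r * x ∈ 𝔪 := by
        rw [hmem, sub_smul, mul_smul, hr, one_smul, sub_self]
      have h3 := J.add_mem (hJ h2) (J.mul_mem_left r hxJ)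
      rwa [sub_add_cancel] at h3
  have hfin : Finite (E ⧸ 𝔪) := by
    let _ := Ideal.Quotient.field 𝔪
    have : Module.Finite F (E ⧸ 𝔪) := finite_of_finite_type_of_isJacobsonRing F (E ⧸ 𝔪)
    exact Module.finite_of_finite F
  have hrad : 𝔪 ≤ (Module.annihilator E Q).radical := by
    intro r hr
    rw [hmem] at hr
    let g : Module.End E Q := LinearMap.lsmul E Q r
    obtain ⟨n, hn⟩ := (g.eventually_disjoint_ker_pow_range_pow.and
      (Filter.eventually_ge_atTop 1)).exists
    refine ⟨n, ?_⟩
    rw [Module.mem_annihilator]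
    have hgpow : ∀ (m : ℕ) (q : Q), (g ^ m) q = r ^ m • q := by
      intro m
      induction m with
      | zero => intro q; simp
      | succ m ih =>
        intro q
        rw [pow_succ', Module.End.mul_apply, ih, pow_succ', mul_smul]
        rfl
    by_contra hcon
    push Not at hcon
    obtain ⟨q, hq⟩ := hcon
    have hr1 : h ∈ LinearMap.range (g ^ n) := hh _ (by
      intro hbot
      have : (g ^ n) q ∈ LinearMap.range (g ^ n) := ⟨q, rfl⟩
      rw [hbot, Submodule.mem_bot, hgpow] at this
      exact hq this)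
    have hr2 : h ∈ LinearMap.ker (g ^ n) := by
      obtain ⟨m, rfl⟩ : ∃ m, n = m + 1 := ⟨n - 1, by omega⟩
      rw [LinearMap.mem_ker, hgpow, pow_succ, mul_smul, hr, smul_zero]
    exact h0 (by simpa using (Submodule.disjoint_def.1 hn.1) h hr2 hr1)
  obtain ⟨n, hn⟩ := Ideal.exists_pow_le_of_le_radical_of_fg hrad (IsNoetherian.noetherian 𝔪)
  have h1 : Finite (E ⧸ 𝔪 ^ n) := Ideal.finite_quotient_pow (IsNoetherian.noetherian 𝔪) n
  have h2 : Finite (E ⧸ Module.annihilator E Q) :=
    Finite.of_surjective _ (Ideal.Quotient.factor_surjective hn)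
  let _ := Module.quotientAnnihilator (R := E) (M := Q)
  have h3 : Module.Finite (E ⧸ Module.annihilator E Q) Q :=
    finite_transfer (Ideal.Quotient.mk (Module.annihilator E Q)) (fun r q => rfl)
  exact Module.finite_of_finite (E ⧸ Module.annihilator E Q)

section noncomm

variable {F : Type u} [Field F] {E : Type v} [Ring E] [Algebra F E] {S : Set E}
  {Q : Type w} [AddCommGroup Q] [Module E Q]

theorem comm_quot (htop : Algebra.adjoin F S = ⊤)
    (hcomm : ∀ s ∈ S, ∀ t ∈ S, ∀ q : Q, (s * t - t * s) • q = 0) :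
    ∀ a b : E ⧸ Module.annihilator E Q, a * b = b * a := by
  let f := Ideal.Quotient.mkₐ F (Module.annihilator E Q)
  have hf : Function.Surjective f := Ideal.Quotient.mkₐ_surjective F _
  have h1 : Algebra.adjoin F (f '' S) = ⊤ := by
    rw [← AlgHom.map_adjoin, htop, Algebra.map_top]
    exact (AlgHom.range_eq_top f).2 hf
  have h2 : ∀ s ∈ f '' S, ∀ t ∈ f '' S, Commute s t := by
    rintro _ ⟨s, hs, rfl⟩ _ ⟨t, ht, rfl⟩
    have : f (s * t - t * s) = 0 := by
      refine Ideal.Quotient.eq_zero_iff_mem.2 ?_
      rw [Module.mem_annihilator]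
      exact hcomm s hs t ht
    rw [map_sub, map_mul, map_mul, sub_eq_zero] at this
    exact this
  have h3 : ∀ s ∈ f '' S, ∀ b, Commute s b := fun s hs b =>
    Algebra.commute_of_mem_adjoin_of_forall_mem_commute (R := F) (by rw [h1]; trivial) (h2 s hs)
  intro a b
  exact (Algebra.commute_of_mem_adjoin_of_forall_mem_commute (R := F) (s := f '' S)
    (b := a) (a := b) (by rw [h1]; trivial) (fun s hs => (h3 s hs b).symm)).symm

theorem isNoetherian_of_commuting (hS : S.Finite) (htop : Algebra.adjoin F S = ⊤)
    (hcomm : ∀ s ∈ S, ∀ t ∈ S, ∀ q : Q, (s * t - t * s) • q = 0) [Module.Finite E Q] :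
    IsNoetherian E Q := by
  let _ : CommRing (E ⧸ Module.annihilator E Q) :=
    { (inferInstance : Ring (E ⧸ Module.annihilator E Q)) with
      mul_comm := comm_quot htop hcomm }
  let _ := Module.quotientAnnihilator (R := E) (M := Q)
  have h0 : Algebra.FiniteType F E := ⟨⟨hS.toFinset, by simpa using htop⟩⟩
  have h1 : Algebra.FiniteType F (E ⧸ Module.annihilator E Q) :=
    Algebra.FiniteType.of_surjective (Ideal.Quotient.mkₐ F (Module.annihilator E Q))
      (Ideal.Quotient.mkₐ_surjective F _)
  have h2 : IsNoetherianRing (E ⧸ Module.annihilator E Q) :=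
    Algebra.FiniteType.isNoetherianRing F _
  have h3 : Module.Finite (E ⧸ Module.annihilator E Q) Q :=
    finite_transfer (Ideal.Quotient.mk (Module.annihilator E Q)) (fun r q => rfl)
  exact isNoetherian_transfer (Ideal.Quotient.mk (Module.annihilator E Q)) (fun r q => rfl)
    Ideal.Quotient.mk_surjective

theorem finite_of_heart [Finite F] (hS : S.Finite) (htop : Algebra.adjoin F S = ⊤)
    (hcomm : ∀ s ∈ S, ∀ t ∈ S, ∀ q : Q, (s * t - t * s) • q = 0) [Module.Finite E Q]
    (h : Q) (h0 : h ≠ 0) (hh : ∀ N : Submodule E Q, N ≠ ⊥ → h ∈ N) : Finite Q := by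
  let _ : CommRing (E ⧸ Module.annihilator E Q) :=
    { (inferInstance : Ring (E ⧸ Module.annihilator E Q)) with
      mul_comm := comm_quot htop hcomm }
  let _ := Module.quotientAnnihilator (R := E) (M := Q)
  have h0' : Algebra.FiniteType F E := ⟨⟨hS.toFinset, by simpa using htop⟩⟩
  have h1 : Algebra.FiniteType F (E ⧸ Module.annihilator E Q) :=
    Algebra.FiniteType.of_surjective (Ideal.Quotient.mkₐ F (Module.annihilator E Q))
      (Ideal.Quotient.mkₐ_surjective F _)
  have h3 : Module.Finite (E ⧸ Module.annihilator E Q) Q :=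
    finite_transfer (Ideal.Quotient.mk (Module.annihilator E Q)) (fun r q => rfl)
  refine finite_of_heart_comm F (E ⧸ Module.annihilator E Q) Q h h0 ?_
  intro N hN
  let N' : Submodule E Q :=
    { carrier := N
      add_mem' := fun ha hb => N.add_mem ha hb
      zero_mem' := N.zero_mem
      smul_mem' := fun c x hx => N.smul_mem (Ideal.Quotient.mk _ c) hx }
  refine hh N' ?_
  intro h'
  apply hN
  rw [eq_bot_iff]
  intro x hx
  have : x ∈ N' := hx
  rwa [h'] at this

end noncomm

end Pool.Agent.Lib.MP_5aea19_al
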