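import Mathlib
import Pool.Agent.Lib.MP_5aea19_al.Defs

set_option autoImplicit false

namespace Pool.Agent.Lib.MP_5aea19_al

open Equiv Polynomial

universe u v w

/-- The coefficients: the indicator function of the set of squares. -/
noncomputable def ceAlpha (F : Type u) [Field F] (i : ℕ) : F := by
  classical exact if IsSquare i then 1 else 0

/-- The linear functional sending `T ^ i` to `ceAlpha i`. -/
noncomputable def cePhi (F : Type u) [Field F] : F[X] →ₗ[F] F :=
  Polynomial.lsum (fun i => LinearMap.lsmul F F (ceAlpha F i))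

theorem cePhi_X_pow (F : Type u) [Field F] (i : ℕ) : cePhi F (X ^ i) = ceAlpha F i := by
  rw [cePhi, Polynomial.lsum_apply, ← Polynomial.monomial_one_right_eq_X_pow,
    Polynomial.sum_monomial_index]
  · simp
  · simp

/-- The underlying type of the counterexample. -/
def CE (F : Type u) [Field F] : Type u := F[X] × F[X] × F[X] × F

noncomputable instance (F : Type u) [Field F] : AddCommGroup (CE F) :=
  inferInstanceAs (AddCommGroup (F[X] × F[X] × F[X] × F))

noncomputable instance (F : Type u) [Field F] : Module F (CE F) :=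
  inferInstanceAs (Module F (F[X] × F[X] × F[X] × F))

namespace CE

variable {F : Type u} [Field F]

theorem ext {x y : CE F} (h1 : x.1 = y.1) (h2 : x.2.1 = y.2.1) (h3 : x.2.2.1 = y.2.2.1)
    (h4 : x.2.2.2 = y.2.2.2) : x = y :=
  Prod.ext h1 (Prod.ext h2 (Prod.ext h3 h4))

theorem add_1 (x y : CE F) : (x + y).1 = x.1 + y.1 := rfl
theorem add_21 (x y : CE F) : (x + y).2.1 = x.2.1 + y.2.1 := rfl
theorem add_221 (x y : CE F) : (x + y).2.2.1 = x.2.2.1 + y.2.2.1 := rfl
theorem add_222 (x y : CE F) : (x + y).2.2.2 = x.2.2.2 + y.2.2.2 := rfl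
theorem sub_1 (x y : CE F) : (x - y).1 = x.1 - y.1 := rfl
theorem sub_21 (x y : CE F) : (x - y).2.1 = x.2.1 - y.2.1 := rfl
theorem sub_221 (x y : CE F) : (x - y).2.2.1 = x.2.2.1 - y.2.2.1 := rfl
theorem sub_222 (x y : CE F) : (x - y).2.2.2 = x.2.2.2 - y.2.2.2 := rfl
theorem zero_1 : (0 : CE F).1 = 0 := rfl
theorem zero_21 : (0 : CE F).2.1 = 0 := rfl
theorem zero_221 : (0 : CE F).2.2.1 = 0 := rfl
theorem zero_222 : (0 : CE F).2.2.2 = 0 := rfl
theorem smul_1 (a : F) (x : CE F) : (a • x).1 = a • x.1 := rfl
theorem smul_21 (a : F) (x : CE F) : (a • x).2.1 = a • x.2.1 := rfl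
theorem smul_221 (a : F) (x : CE F) : (a • x).2.2.1 = a • x.2.2.1 := rfl
theorem smul_222 (a : F) (x : CE F) : (a • x).2.2.2 = a • x.2.2.2 := rfl

noncomputable instance : Mul (CE F) :=
  ⟨fun x y => (x.1 * y.1, x.2.1 * y.1, x.1 * y.2.2.1, cePhi F (x.2.1 * y.2.2.1))⟩

theorem mul_1 (x y : CE F) : (x * y).1 = x.1 * y.1 := rfl
theorem mul_21 (x y : CE F) : (x * y).2.1 = x.2.1 * y.1 := rfl
theorem mul_221 (x y : CE F) : (x * y).2.2.1 = x.1 * y.2.2.1 := rfl
theorem mul_222 (x y : CE F) : (x * y).2.2.2 = cePhi F (x.2.1 * y.2.2.1) := rfl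

noncomputable instance : NonUnitalRing (CE F) :=
  { (inferInstance : AddCommGroup (CE F)) with
    mul := (· * ·)
    left_distrib := fun x y z => by
      refine CE.ext ?_ ?_ ?_ ?_
      · simp only [mul_1, add_1, mul_add]
      · simp only [mul_21, add_21, add_1, mul_add]
      · simp only [mul_221, add_221, mul_add]
      · simp only [mul_222, add_222, add_221, mul_add, map_add]
    right_distrib := fun x y z => by
      refine CE.ext ?_ ?_ ?_ ?_
      · simp only [mul_1, add_1, add_mul]
      · simp only [mul_21, add_21, add_mul]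
      · simp only [mul_221, add_221, add_1, add_mul]
      · simp only [mul_222, add_222, add_21, add_mul, map_add]
    zero_mul := fun x => by
      refine CE.ext ?_ ?_ ?_ ?_
      · simp only [mul_1, zero_1, zero_mul]
      · simp only [mul_21, zero_21, zero_mul]
      · simp only [mul_221, zero_1, zero_mul, zero_221]
      · simp only [mul_222, zero_21, zero_mul, map_zero, zero_222]
    mul_zero := fun x => by
      refine CE.ext ?_ ?_ ?_ ?_
      · simp only [mul_1, zero_1, mul_zero]
      · simp only [mul_21, zero_21, zero_1, mul_zero]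
      · simp only [mul_221, mul_zero, zero_221]
      · simp only [mul_222, zero_221, mul_zero, map_zero, zero_222]
    mul_assoc := fun x y z => by
      refine CE.ext ?_ ?_ ?_ ?_
      · simp only [mul_1, mul_assoc]
      · simp only [mul_1, mul_21, mul_assoc]
      · simp only [mul_1, mul_221, mul_assoc]
      · simp only [mul_222, mul_21, mul_221, mul_assoc] }

instance : IsScalarTower F (CE F) (CE F) where
  smul_assoc a x y := by
    refine CE.ext ?_ ?_ ?_ ?_
    · simp only [smul_eq_mul, mul_1, smul_1, smul_mul_assoc]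
    · simp only [smul_eq_mul, mul_21, smul_21, smul_mul_assoc]
    · simp only [smul_eq_mul, mul_221, smul_1, smul_221, smul_mul_assoc]
    · simp only [smul_eq_mul, mul_222, smul_21, smul_222, smul_mul_assoc, map_smul]

instance : SMulCommClass F (CE F) (CE F) where
  smul_comm a x y := by
    refine CE.ext ?_ ?_ ?_ ?_
    · simp only [smul_eq_mul, mul_1, smul_1, mul_smul_comm]
    · simp only [smul_eq_mul, mul_21, smul_21, smul_1, mul_smul_comm]
    · simp only [smul_eq_mul, mul_221, smul_221, mul_smul_comm]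
    · simp only [smul_eq_mul, mul_222, smul_221, smul_222, mul_smul_comm, map_smul]

theorem ident (x y z s : CE F) : x * (y * z - z * y) * s = 0 := by
  refine CE.ext ?_ ?_ ?_ ?_
  · simp only [mul_1, sub_1, zero_1]; ring
  · simp only [mul_1, mul_21, sub_1, zero_21]; ring
  · simp only [mul_1, mul_221, sub_1, zero_221]; ring
  · simp only [mul_1, mul_21, mul_222, sub_1, zero_222]
    have : x.2.1 * (y.1 * z.1 - z.1 * y.1) * s.2.2.1 = 0 := by ring
    rw [this, map_zero]

/-- Constructor. -/
noncomputable def mk (c p r : F[X]) (m : F) : CE F := (c, p, r, m)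

theorem mk_mul (c p r : F[X]) (m : F) (c' p' r' : F[X]) (m' : F) :
    mk c p r m * mk c' p' r' m' = mk (c * c') (p * c') (c * r') (cePhi F (p * r')) := rfl

theorem mk_add (c p r : F[X]) (m : F) (c' p' r' : F[X]) (m' : F) :
    mk c p r m + mk c' p' r' m' = mk (c + c') (p + p') (r + r') (m + m') := rfl

theorem smul_mk (a : F) (c p r : F[X]) (m : F) :
    a • mk c p r m = mk (a • c) (a • p) (a • r) (a • m) := rfl

end CE

theorem exists_counterexample (F : Type u) [Field F] [Finite F] :
    ∃ (A : Type u) (_ : NonUnitalRing A) (_ : Module F A) (_ : IsScalarTower F A A)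
      (_ : SMulCommClass F A A),
      (∀ p ∈ T0 F, ∀ a : ℕ → A, MonoidAlgebra.liftMagma F (FreeSemigroup.lift a) p = 0) ∧
      (∃ X : Set A, X.Finite ∧ NonUnitalAlgebra.adjoin F X = ⊤) ∧
      ∃ h : A, h ≠ 0 ∧ ∀ (B : Type u) [NonUnitalRing B] [Module F B] [IsScalarTower F B B]
        [SMulCommClass F B B] [Finite B] (φ : A →ₙₐ[F] B), φ h = 0 := by
  refine ⟨CE F, inferInstance, inferInstance, inferInstance, inferInstance, ?_, ?_, ?_⟩
  · intro p hp a
    refine Submodule.span_induction (p := fun p _ =>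
      MonoidAlgebra.liftMagma F (FreeSemigroup.lift a) p = 0) ?_ ?_ ?_ ?_ hp
    · rintro _ ⟨x, y, z, s, rfl⟩
      rw [map_mul, map_mul, map_sub, map_mul, map_mul]
      exact CE.ident _ _ _ _
    · exact map_zero _
    · intro x y _ _ hx hy
      rw [map_add, hx, hy, add_zero]
    · intro c x _ hx
      rw [map_smul, hx, smul_zero]
  · refine ⟨{CE.mk X 0 0 0, CE.mk 1 0 0 0, CE.mk 0 1 0 0, CE.mk 0 0 1 0},
      Set.toFinite _, ?_⟩
    set S : Set (CE F) := {CE.mk X 0 0 0, CE.mk 1 0 0 0, CE.mk 0 1 0 0, CE.mk 0 0 1 0} with hS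
    have hX : CE.mk X 0 0 0 ∈ NonUnitalAlgebra.adjoin F S :=
      NonUnitalAlgebra.subset_adjoin F (by rw [hS]; left; rfl)
    have h1 : CE.mk 1 0 0 0 ∈ NonUnitalAlgebra.adjoin F S :=
      NonUnitalAlgebra.subset_adjoin F (by rw [hS]; right; left; rfl)
    have h2 : CE.mk 0 1 0 0 ∈ NonUnitalAlgebra.adjoin F S :=
      NonUnitalAlgebra.subset_adjoin F (by rw [hS]; right; right; left; rfl)
    have h3 : CE.mk 0 0 1 0 ∈ NonUnitalAlgebra.adjoin F S :=
      NonUnitalAlgebra.subset_adjoin F (by rw [hS]; right; right; right; rfl)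
    have hmul : ∀ {x y : CE F}, x ∈ NonUnitalAlgebra.adjoin F S →
        y ∈ NonUnitalAlgebra.adjoin F S → x * y ∈ NonUnitalAlgebra.adjoin F S :=
      fun hx hy => (NonUnitalAlgebra.adjoin F S).mul_mem hx hy
    have hpow : ∀ n : ℕ, CE.mk (X ^ n) 0 0 0 ∈ NonUnitalAlgebra.adjoin F S := by
      intro n
      induction n with
      | zero => simpa using h1
      | succ n ih =>
        have := hmul ih hX
        rw [CE.mk_mul] at this
        simpa [pow_succ] using this
    have hpoly : ∀ c : F[X], CE.mk c 0 0 0 ∈ NonUnitalAlgebra.adjoin F S := by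
      intro c
      induction c using Polynomial.induction_on' with
      | add p q hp hq =>
        have := (NonUnitalAlgebra.adjoin F S).add_mem hp hq
        rw [CE.mk_add] at this
        simpa using this
      | monomial n a =>
        have := SMulMemClass.smul_mem a (hpow n)
        rw [CE.smul_mk] at this
        simpa [← Polynomial.C_mul_X_pow_eq_monomial, Polynomial.smul_eq_C_mul] using this
    have hp : ∀ c : F[X], CE.mk 0 c 0 0 ∈ NonUnitalAlgebra.adjoin F S := by
      intro c
      have := hmul h2 (hpoly c)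
      rw [CE.mk_mul] at this
      simpa using this
    have hr : ∀ c : F[X], CE.mk 0 0 c 0 ∈ NonUnitalAlgebra.adjoin F S := by
      intro c
      have := hmul (hpoly c) h3
      rw [CE.mk_mul] at this
      simpa using this
    have hmu : CE.mk 0 0 0 1 ∈ NonUnitalAlgebra.adjoin F S := by
      have := hmul h2 h3
      rw [CE.mk_mul] at this
      have h0 := cePhi_X_pow F 0
      simp only [pow_zero, ceAlpha, IsSquare.zero, if_true] at h0
      simpa [h0] using this
    rw [eq_top_iff]
    rintro ⟨c, p, r, μ⟩ -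
    have h4 := (NonUnitalAlgebra.adjoin F S).add_mem
      ((NonUnitalAlgebra.adjoin F S).add_mem (hpoly c) (hp p))
      ((NonUnitalAlgebra.adjoin F S).add_mem (hr r)
        (SMulMemClass.smul_mem μ hmu))
    rw [CE.smul_mk, CE.mk_add, CE.mk_add, CE.mk_add] at h4
    simp only [add_zero, zero_add, smul_zero, smul_eq_mul, mul_one] at h4
    exact h4
  · refine ⟨CE.mk 0 0 0 1, ?_, ?_⟩
    · intro h
      have := congrArg (fun x : CE F => x.2.2.2) h
      exact one_ne_zero this
    · intro B _ _ _ _ _ φ
      set f : ℕ → B := fun n => φ (CE.mk 0 (X ^ n) 0 0) with hf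
      have key : ∀ a j : ℕ, φ (ceAlpha F (a + j) • CE.mk 0 0 0 1) =
          f a * φ (CE.mk 0 0 (X ^ j) 0) := by
        intro a j
        rw [hf]
        simp only
        rw [← map_mul, CE.mk_mul, CE.smul_mk, ← pow_add, cePhi_X_pow]
        simp
      obtain ⟨a, b, hab, hfab⟩ := Finite.exists_ne_map_eq_of_infinite f
      wlog hlt : a < b generalizing a b
      · exact this b a (Ne.symm hab) hfab.symm (lt_of_le_of_ne (not_lt.mp hlt) (Ne.symm hab))
      have h1 := key a (b ^ 2 - a)
      have h2 := key b (b ^ 2 - a)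
      rw [hfab, ← h2] at h1
      have hle : a ≤ b ^ 2 := by nlinarith
      have e1 : a + (b ^ 2 - a) = b ^ 2 := by omega
      rw [e1] at h1
      have hsq : IsSquare (b ^ 2) := ⟨b, by ring⟩
      have hnsq : ¬ IsSquare (b + (b ^ 2 - a)) := by
        rintro ⟨c, hc⟩
        have h3 : b ^ 2 < c * c := by omega
        have h4 : c * c < (b + 1) ^ 2 := by
          have : (b + 1) ^ 2 = b ^ 2 + 2 * b + 1 := by ring
          omega
        have h5 : b < c := by nlinarith
        have h6 : c < b + 1 := by nlinarith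
        omega
      rw [ceAlpha, if_pos hsq, ceAlpha, if_neg hnsq, one_smul, zero_smul, map_zero] at h1
      exact h1

end Pool.Agent.Lib.MP_5aea19_al
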