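import Mathlib
import Pool.Agent.Lib.MP_5aea19_al.Basic

set_option autoImplicit false

namespace Pool.Agent.Lib.MP_5aea19_al

universe u v w

theorem exists_factor_aux (t : Fin 3) (s : Fin 3) (hst : ∀ x : Fin 3, x = s ∨ x = t ∨ x = 2) :
    ∀ L : List (Fin 3), t ∈ L → s ∉ L →
      ∃ (j : ℕ) (Q : List (Fin 3)), L = List.replicate j 2 ++ t :: Q := by
  intro L
  induction L with
  | nil => intro h; simp at h
  | cons x L ih =>
    intro h1 h2
    rcases hst x with rfl | rfl | rfl
    · exact absurd (List.mem_cons_self) h2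
    · exact ⟨0, L, by simp⟩
    · by_cases h : (2 : Fin 3) = t
      · subst h
        exact ⟨0, L, by simp⟩
      · have h1' : t ∈ L := by
          rcases List.mem_cons.1 h1 with h' | h'
          · exact absurd h'.symm h
          · exact h'
        obtain ⟨j, Q, rfl⟩ := ih h1' (fun h' => h2 (List.mem_cons_of_mem _ h'))
        exact ⟨j + 1, Q, by simp [List.replicate_succ]⟩

theorem exists_factor : ∀ L : List (Fin 3), (0 : Fin 3) ∈ L → (1 : Fin 3) ∈ L →
    ∃ (P Q : List (Fin 3)) (j : ℕ) (s t : Fin 3),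
      L = P ++ s :: (List.replicate j 2 ++ t :: Q) ∧ ((s = 0 ∧ t = 1) ∨ (s = 1 ∧ t = 0)) := by
  intro L
  induction L with
  | nil => intro h; simp at h
  | cons x L ih =>
    intro h0 h1
    by_cases h : (0 : Fin 3) ∈ L ∧ (1 : Fin 3) ∈ L
    · obtain ⟨P, Q, j, s, t, rfl, hst⟩ := ih h.1 h.2
      exact ⟨x :: P, Q, j, s, t, by simp, hst⟩
    · rcases List.mem_cons.1 h0 with h0' | h0'
      · subst h0'
        have h1' : (1 : Fin 3) ∈ L := by
          rcases List.mem_cons.1 h1 with h' | h'
          · exact absurd h' (by decide)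
          · exact h'
        have h0'' : (0 : Fin 3) ∉ L := fun h' => h ⟨h', h1'⟩
        obtain ⟨j, Q, rfl⟩ := exists_factor_aux 1 0 (by decide) L h1' h0''
        exact ⟨[], Q, j, 0, 1, by simp, Or.inl ⟨rfl, rfl⟩⟩
      · have h1' : (1 : Fin 3) ∉ L := fun h' => h ⟨h0', h'⟩
        have hx : x = 1 := by
          rcases List.mem_cons.1 h1 with h' | h'
          · exact h'.symm
          · exact absurd h' h1'
        subst hx
        obtain ⟨j, Q, rfl⟩ := exists_factor_aux 0 1 (by decide) L h0' h1'
        exact ⟨[], Q, j, 1, 0, by simp, Or.inr ⟨rfl, rfl⟩⟩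

variable {F : Type u} [Field F] {R : Type v} [Ring R] [Algebra F R]

/-- the polynomial `g`, where `g = ∑ D (0 2^j 1) T^j` -/
noncomputable def gpoly (D : List (Fin 3) →₀ F) : Polynomial F :=
  ∑ w ∈ D.support, if w = (0 :: (List.replicate (w.length - 2) 2 ++ [1])) then
    Polynomial.monomial (w.length - 2) (D w) else 0

theorem coeff_gpoly (D : List (Fin 3) →₀ F) (j : ℕ) :
    (gpoly D).coeff j = D (0 :: (List.replicate j 2 ++ [1])) := by
  classical
  rw [gpoly, Polynomial.finsetSum_coeff]
  rw [Finset.sum_eq_single (0 :: (List.replicate j 2 ++ [1]))]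
  · rw [if_pos (by simp)]
    simp
  · intro w _ hw
    split_ifs with h
    · rw [Polynomial.coeff_monomial, if_neg]
      intro h'
      apply hw
      rw [h, h']
    · simp
  · intro h
    rw [if_pos (by simp)]
    rw [Finsupp.notMem_support_iff.1 h]
    simp

theorem gpoly_ne_zero {D : List (Fin 3) →₀ F} (hD : GoodD D) : gpoly D ≠ 0 := by
  obtain ⟨j, hj⟩ := hD.2
  intro h
  apply hj
  rw [← coeff_gpoly, h, Polynomial.coeff_zero]

theorem val_eq_zero (u w z : R) (hA : ∀ m : ℕ, z * (u * z ^ m * w) = 0)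
    (hB : ∀ m : ℕ, u * z ^ m * w * z = 0) (hC : ∀ m : ℕ, z * (w * z ^ m * u) = 0)
    (L : List (Fin 3)) (h0 : (0 : Fin 3) ∈ L) (h1 : (1 : Fin 3) ∈ L)
    (hL : L ≠ 0 :: (List.replicate (L.length - 2) 2 ++ [1])) :
    (L.map ![u * z, z * w, z]).prod = 0 := by
  obtain ⟨P, Q, j, s, t, rfl, hst⟩ := exists_factor L h0 h1
  have hC0 : z * (w * u) = 0 := by simpa using hC 0
  rcases hst with ⟨rfl, rfl⟩ | ⟨rfl, rfl⟩
  · -- the factor is `u z^(j+2) w`
    have key : (List.map ![u * z, z * w, z] (P ++ 0 :: (List.replicate j 2 ++ 1 :: Q))).prod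
        = (List.map ![u * z, z * w, z] P).prod * (u * z ^ (j + 2) * w) *
          (List.map ![u * z, z * w, z] Q).prod := by
      have h2 : z ^ (j + 2) = z * (z ^ j * z) := by rw [← pow_succ, ← pow_succ']
      rw [h2]
      simp [mul_assoc]
    rw [key]
    rcases Q with _ | ⟨q, Q⟩
    · rcases List.eq_nil_or_concat P with rfl | ⟨P, p, rfl⟩
      · exfalso
        apply hL
        simp
      · have hp : ![u * z, z * w, z] p * (u * z ^ (j + 2) * w) = 0 := by
          fin_cases p
          · change (u * z) * (u * z ^ (j + 2) * w) = 0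
            rw [mul_assoc, hA, mul_zero]
          · change (z * w) * (u * z ^ (j + 2) * w) = 0
            calc (z * w) * (u * z ^ (j + 2) * w) = z * (w * u) * (z ^ (j + 2) * w) := by
                  noncomm_ring
              _ = 0 := by rw [hC0, zero_mul]
          · exact hA _
        rw [List.concat_eq_append, List.map_append, List.prod_append]
        simp only [List.map_cons, List.map_nil, List.prod_cons, List.prod_nil, mul_one]
        rw [mul_assoc _ (![u * z, z * w, z] p), hp, mul_zero]
    · have hq : (u * z ^ (j + 2) * w) * ![u * z, z * w, z] q = 0 := by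
        fin_cases q
        · change (u * z ^ (j + 2) * w) * (u * z) = 0
          calc (u * z ^ (j + 2) * w) * (u * z) = u * z ^ (j + 1) * (z * (w * u)) * z := by
                rw [show z ^ (j + 2) = z ^ (j + 1) * z from pow_succ _ _]
                noncomm_ring
            _ = 0 := by rw [hC0, mul_zero, zero_mul]
        · change (u * z ^ (j + 2) * w) * (z * w) = 0
          rw [← mul_assoc, hB, zero_mul]
        · exact hB _
      rw [List.map_cons, List.prod_cons, ← mul_assoc, mul_assoc _ _ (![u * z, z * w, z] q), hq,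
        mul_zero, zero_mul]
  · have key : (List.map ![u * z, z * w, z] (P ++ 1 :: (List.replicate j 2 ++ 0 :: Q))).prod
        = (List.map ![u * z, z * w, z] P).prod * (z * (w * z ^ j * u)) * (z *
          (List.map ![u * z, z * w, z] Q).prod) := by
      simp [mul_assoc]
    rw [key, hC, mul_zero, zero_mul]

theorem lemma_one {D : List (Fin 3) →₀ F} (hD : GoodD D) {S : Set R} (hS : DId D S)
    (u w z : R) (hz : z ∈ S) (huz : u * z ∈ S) (hzw : z * w ∈ S)
    (hA : ∀ m : ℕ, z * (u * z ^ m * w) = 0)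
    (hB : ∀ m : ℕ, u * z ^ m * w * z = 0) (hC : ∀ m : ℕ, z * (w * z ^ m * u) = 0) :
    u * Polynomial.aeval z (Polynomial.X ^ 2 * gpoly D) * w = 0 := by
  have h := hS ![u * z, z * w, z] (by
    intro i
    fin_cases i
    · exact huz
    · exact hzw
    · exact hz)
  rw [ev, Finsupp.sum] at h
  rw [← h, map_mul, gpoly, map_sum, Finset.mul_sum, Finset.mul_sum, Finset.sum_mul]
  refine Finset.sum_congr rfl ?_
  intro L hL
  obtain ⟨h0, h1⟩ := hD.1 L hL
  split_ifs with hLf
  · obtain ⟨j, hj⟩ : ∃ j, L.length - 2 = j := ⟨_, rfl⟩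
    rw [hj] at hLf ⊢
    have h2 : z ^ (j + 2) = z * (z ^ j * z) := by rw [← pow_succ, ← pow_succ']
    have key : (List.map ![u * z, z * w, z] L).prod = u * z ^ (j + 2) * w := by
      rw [hLf, h2]
      simp [mul_assoc]
    rw [key]
    simp only [map_pow, Polynomial.aeval_X, Polynomial.aeval_monomial]
    rw [Algebra.smul_def, ← mul_assoc (z ^ 2), ← Algebra.commutes (D L) (z ^ 2),
      show j + 2 = 2 + j from add_comm _ _, pow_add, mul_assoc (algebraMap F R (D L)) (z ^ 2),
      ← mul_assoc u (algebraMap F R (D L)), ← Algebra.commutes (D L) u]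
    simp only [mul_assoc]
  · rw [val_eq_zero u w z hA hB hC L h0 h1 hLf, map_zero, mul_zero, mul_zero, zero_mul, smul_zero]

end Pool.Agent.Lib.MP_5aea19_al
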