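import Mathlib
import Pool.Agent.Lib.MP_5aea19_al.Defs

set_option autoImplicit false

namespace Pool.Agent.Lib.MP_5aea19_al

open Equiv Polynomial

universe u v w

section combinatorics

variable {k : ℕ}

/-- base `k` value of a word -/
def shVal : List (Fin k) → ℕ
  | [] => 0
  | x :: w => x * k ^ w.length + shVal w

lemma shVal_append (u v : List (Fin k)) :
    shVal (u ++ v) = shVal u * k ^ v.length + shVal v := by
  induction u with
  | nil => simp [shVal]
  | cons x u ih =>
    simp only [List.cons_append, shVal, List.length_append, ih, pow_add]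
    ring

lemma shVal_lt (u : List (Fin k)) : shVal u < k ^ u.length := by
  induction u with
  | nil => simp [shVal]
  | cons x u ih =>
    have hx : (x : ℕ) + 1 ≤ k := x.isLt
    calc shVal (x :: u) = x * k ^ u.length + shVal u := rfl
      _ < x * k ^ u.length + k ^ u.length := by omega
      _ = (x + 1) * k ^ u.length := by ring
      _ ≤ k * k ^ u.length := Nat.mul_le_mul_right _ hx
      _ = _ := by rw [List.length_cons, pow_succ]; ring

lemma shVal_lt_of_lt {f f' r r' : List (Fin k)} (hl : f.length + r.length = f'.length + r'.length)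
    (hf : f'.length = f.length) (h : shVal f' < shVal f) :
    shVal (f' ++ r') < shVal (f ++ r) := by
  have hr : r'.length = r.length := by omega
  rw [shVal_append, shVal_append, hr]
  have h1 := shVal_lt r'
  rw [hr] at h1
  calc shVal f' * k ^ r.length + shVal r' < shVal f' * k ^ r.length + k ^ r.length := by omega
    _ = (shVal f' + 1) * k ^ r.length := by ring
    _ ≤ shVal f * k ^ r.length := Nat.mul_le_mul_right _ h
    _ ≤ _ := Nat.le_add_right _ _

lemma shVal_inj : ∀ {u v : List (Fin k)}, u.length = v.length → shVal u = shVal v → u = v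
  | [], [], _, _ => rfl
  | [], _ :: _, h, _ => by simp at h
  | _ :: _, [], h, _ => by simp at h
  | x :: u, y :: v, h, h' => by
    have hl : u.length = v.length := by simpa using h
    have hx : x = y := by
      rcases lt_trichotomy (x : ℕ) y with hlt | heq | hlt
      · exfalso
        have := shVal_lt_of_lt (f := [y]) (f' := [x]) (r := v) (r' := u)
          (by simp [hl]) rfl (by simpa [shVal] using hlt)
        simp only [List.singleton_append] at this
        omega
      · exact Fin.ext heq
      · exfalso
        have := shVal_lt_of_lt (f := [x]) (f' := [y]) (r := u) (r' := v)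
          (by simp [hl]) rfl (by simpa [shVal] using hlt)
        simp only [List.singleton_append] at this
        omega
    subst hx
    have : shVal u = shVal v := by
      simp only [shVal, hl] at h'
      omega
    rw [shVal_inj hl this]

lemma shVal_flatten_lt {L : ℕ} : ∀ (fs bs bs' : List (List (Fin k))),
    (∀ f ∈ fs, f.length = L) → fs.Pairwise (fun f f' => shVal f' < shVal f) →
    List.Forall₂ (fun f b => f <+: b) fs bs → bs'.Perm bs → bs' ≠ bs →
    shVal bs'.flatten < shVal bs.flatten
  | [], bs, bs', _, _, hF, hp, hne => by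
    rw [List.forall₂_nil_left_iff] at hF
    subst hF
    exact absurd (List.perm_nil.1 hp) hne
  | f :: fs, bs, bs', hlen, hpw, hF, hp, hne => by
    rw [List.forall₂_cons_left_iff] at hF
    obtain ⟨b, bs1, hfb, hF1, rfl⟩ := hF
    rw [List.pairwise_cons] at hpw
    rcases bs' with _ | ⟨b', bs1'⟩
    · simp at hp
    by_cases hbb : b' = b
    · subst hbb
      have hp1 : bs1'.Perm bs1 := List.Perm.cons_inv hp
      have hne1 : bs1' ≠ bs1 := fun h => hne (by rw [h])
      have ih := shVal_flatten_lt fs bs1 bs1' (fun f hf => hlen f (List.mem_cons_of_mem _ hf))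
        hpw.2 hF1 hp1 hne1
      rw [List.flatten_cons, List.flatten_cons, shVal_append, shVal_append,
        (hp1.flatten).length_eq]
      omega
    · have hmem : b' ∈ bs1 := by
        have : b' ∈ b :: bs1 := hp.subset (List.mem_cons_self)
        rcases List.mem_cons.1 this with h | h
        · exact absurd h hbb
        · exact h
      obtain ⟨f', hf', hfb'⟩ : ∃ f' ∈ fs, f' <+: b' := by
        clear hpw hp hne hlen
        induction hF1 with
        | nil => simp at hmem
        | cons h1 h2 ih =>
          rcases List.mem_cons.1 hmem with h | h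
          · subst h; exact ⟨_, List.mem_cons_self, h1⟩
          · obtain ⟨f', hf', h'⟩ := ih h
            exact ⟨f', List.mem_cons_of_mem _ hf', h'⟩
      obtain ⟨c, rfl⟩ := hfb
      obtain ⟨c', rfl⟩ := hfb'
      have h1 : f.length = L := hlen f List.mem_cons_self
      have h2 : f'.length = L := hlen f' (List.mem_cons_of_mem _ hf')
      have h3 := (hp.flatten).length_eq
      simp only [List.flatten_cons, List.append_assoc, List.length_append] at h3 ⊢
      apply shVal_lt_of_lt _ (by rw [h1, h2]) (hpw.1 f' hf')
      simp only [List.length_append]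
      omega

/-- the words of the list occur in `w` disjointly and in this order -/
def shOcc : List (List (Fin k)) → List (Fin k) → Prop
  | [], _ => True
  | f :: fs, w => ∃ v v', w = v ++ (f ++ v') ∧ shOcc fs v'

lemma shOcc_append_left {fs : List (List (Fin k))} {w : List (Fin k)} (v : List (Fin k))
    (h : shOcc fs w) : shOcc fs (v ++ w) := by
  rcases fs with _ | ⟨f, fs⟩
  · trivial
  · obtain ⟨v1, v', rfl, h'⟩ := h
    exact ⟨v ++ v1, v', by simp, h'⟩

lemma shOcc_sublist {fs fs' : List (List (Fin k))} (hs : fs'.Sublist fs) :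
    ∀ {w : List (Fin k)}, shOcc fs w → shOcc fs' w := by
  induction hs with
  | slnil => intro w h; trivial
  | cons a _ ih =>
    rintro w ⟨v, v', rfl, h⟩
    rw [← List.append_assoc]
    exact shOcc_append_left _ (ih h)
  | cons_cons a _ ih =>
    rintro w ⟨v, v', rfl, h⟩
    exact ⟨v, v', rfl, ih h⟩

lemma shOcc_infix {W : List (Fin k)} : ∀ {fs : List (List (Fin k))} {w : List (Fin k)},
    (∀ f ∈ fs, f <:+: W) → shOcc (List.replicate fs.length W) w → shOcc fs w
  | [], _, _, _ => trivial
  | f :: fs, w, hf, h => by
    obtain ⟨v, v', rfl, h'⟩ := h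
    obtain ⟨s, t, rfl⟩ := hf f List.mem_cons_self
    refine ⟨v ++ s, t ++ v', by simp, ?_⟩
    exact shOcc_append_left _ (shOcc_infix (fun f hf' => hf f (List.mem_cons_of_mem _ hf')) h')

lemma shOcc_dec : ∀ {fs : List (List (Fin k))} {w : List (Fin k)}, shOcc fs w →
    ∃ (u0 : List (Fin k)) (bs : List (List (Fin k))), w = u0 ++ bs.flatten ∧
      List.Forall₂ (fun f b => f <+: b) fs bs
  | [], w, _ => ⟨w, [], by simp, List.Forall₂.nil⟩
  | f :: fs, w, h => by
    obtain ⟨v, v', rfl, h'⟩ := h
    obtain ⟨u0, bs, rfl, hF⟩ := shOcc_dec h'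
    exact ⟨v, (f ++ u0) :: bs, by simp, List.Forall₂.cons (List.prefix_append _ _) hF⟩

variable (G : Fin k → Prop) [DecidablePred G]

lemma sh_split (w : List (Fin k)) : ∀ m, m ≤ w.countP (fun x => decide (G x)) →
    ∃ c w', w = c ++ w' ∧ c.countP (fun x => decide (G x)) = m := by
  induction w with
  | nil => intro m hm; exact ⟨[], [], rfl, by simp at hm; simp [hm]⟩
  | cons x w ih =>
    intro m hm
    rcases Nat.eq_zero_or_pos m with rfl | hm0
    · exact ⟨[], x :: w, rfl, by simp⟩
    · by_cases hx : G x
      · obtain ⟨c, w', rfl, hc⟩ := ih (m - 1) (by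
          rw [List.countP_cons] at hm; simp [hx] at hm; omega)
        exact ⟨x :: c, w', rfl, by rw [List.countP_cons, hc]; simp [hx]; omega⟩
      · obtain ⟨c, w', rfl, hc⟩ := ih m (by
          rw [List.countP_cons] at hm; simpa [hx] using hm)
        exact ⟨x :: c, w', rfl, by rw [List.countP_cons, hc]; simp [hx]⟩

lemma sh_first (w : List (Fin k)) (h : 1 ≤ w.countP (fun x => decide (G x))) :
    ∃ c g w', w = c ++ g :: w' ∧ G g ∧ c.countP (fun x => decide (G x)) = 0 := by
  induction w with
  | nil => simp at h
  | cons x w ih =>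
    by_cases hx : G x
    · exact ⟨[], x, w, rfl, hx, by simp⟩
    · obtain ⟨c, g, w', rfl, hg, hc⟩ := ih (by rw [List.countP_cons] at h; simpa [hx] using h)
      exact ⟨x :: c, g, w', rfl, hg, by rw [List.countP_cons, hc]; simp [hx]⟩

/-- windows: length `a + 1 + b` with a good letter at place `a` -/
def shWin (a b : ℕ) (f : List (Fin k)) : Prop :=
  ∃ W1 g W2, f = W1 ++ g :: W2 ∧ W1.length = a ∧ W2.length = b ∧ G g

lemma sh_window (a b : ℕ) (c : List (Fin k))
    (h : a + 1 + b ≤ c.countP (fun x => decide (G x))) :
    ∃ f, f <:+: c ∧ shWin G a b f := by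
  obtain ⟨c1, r, rfl, hc1⟩ := sh_split G c a (by omega)
  rw [List.countP_append, hc1] at h
  obtain ⟨r1, g, r2, rfl, hg, hr1⟩ := sh_first G r (by omega)
  rw [List.countP_append, hr1, List.countP_cons] at h
  simp only [hg, decide_true, if_true] at h
  have l1 : a ≤ (c1 ++ r1).length := by
    have := List.countP_le_length (p := fun x => decide (G x)) (l := c1)
    rw [List.length_append]; omega
  have l2 : b ≤ r2.length := by
    have := List.countP_le_length (p := fun x => decide (G x)) (l := r2)
    omega
  refine ⟨(c1 ++ r1).drop ((c1 ++ r1).length - a) ++ g :: r2.take b,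
    ⟨(c1 ++ r1).take ((c1 ++ r1).length - a), r2.drop b, ?_⟩, _, g, _, rfl, ?_, ?_, hg⟩
  · have e1 := List.take_append_drop ((c1 ++ r1).length - a) (c1 ++ r1)
    have e2 := List.take_append_drop b r2
    calc (c1 ++ r1).take ((c1 ++ r1).length - a) ++
          ((c1 ++ r1).drop ((c1 ++ r1).length - a) ++ g :: r2.take b) ++ r2.drop b
        = ((c1 ++ r1).take ((c1 ++ r1).length - a) ++ (c1 ++ r1).drop ((c1 ++ r1).length - a)) ++
          g :: (r2.take b ++ r2.drop b) := by simp only [List.append_assoc, List.cons_append]
      _ = (c1 ++ r1) ++ g :: r2 := by rw [e1, e2]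
      _ = _ := by simp
  · rw [List.length_drop]; omega
  · rw [List.length_take]; omega

lemma sh_chunks (a b : ℕ) : ∀ (M : ℕ) (w : List (Fin k)),
    M * (a + 1 + b) ≤ w.countP (fun x => decide (G x)) →
    ∃ fs : List (List (Fin k)), fs.length = M ∧ (∀ f ∈ fs, shWin G a b f) ∧ shOcc fs w
  | 0, w, _ => ⟨[], rfl, by simp, trivial⟩
  | M + 1, w, h => by
    obtain ⟨c, w', rfl, hc⟩ := sh_split G w (a + 1 + b) (by nlinarith)
    obtain ⟨f, ⟨s, t, hst⟩, hf⟩ := sh_window G a b c hc.ge
    rw [List.countP_append, hc] at h
    obtain ⟨fs, h1, h2, h3⟩ := sh_chunks a b M w' (by nlinarith)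
    refine ⟨f :: fs, by simp [h1], ?_, s, t ++ w', ?_, shOcc_append_left _ h3⟩
    · intro f' hf'
      rcases List.mem_cons.1 hf' with rfl | h'
      · exact hf
      · exact h2 _ h'
    · rw [← hst]; simp

lemma sh_pigeon {fs : List (List (Fin k))} {l : ℕ} (hl : ∀ f ∈ fs, f.length = l) (d : ℕ)
    (h : d * (List.finite_length_eq (Fin k) l).toFinset.card < fs.length) :
    ∃ W ∈ fs, (List.replicate (d + 1) W).Sublist fs := by
  by_contra hcon
  push Not at hcon
  have h1 := List.sum_toFinset_count_eq_length fs
  have h2 : ∑ a ∈ fs.toFinset, @List.count (List (Fin k)) instBEqOfDecidableEq a fs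
      ≤ fs.toFinset.card * d := by
    refine Finset.sum_le_card_nsmul _ _ _ fun x hx => ?_
    by_contra hlt
    refine hcon x (by simpa using hx) ?_
    exact (@List.replicate_sublist_iff _ instBEqOfDecidableEq _ _ _ _).2 (by omega)
  have h3 : fs.toFinset.card ≤ (List.finite_length_eq (Fin k) l).toFinset.card := by
    apply Finset.card_le_card
    intro x hx
    simp only [List.mem_toFinset] at hx
    simpa using hl x hx
  have h4 : fs.toFinset.card * d ≤ d * (List.finite_length_eq (Fin k) l).toFinset.card := by
    rw [mul_comm]; exact Nat.mul_le_mul_left _ h3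
  omega

lemma sh_period_mem {t : ℕ} (ht : 0 < t) : ∀ (n : ℕ) (V : List (Fin k)), V.length = n →
    V.drop t <+: V → ∀ x ∈ V, x ∈ V.take t := by
  intro n
  induction n using Nat.strong_induction_on with
  | _ n ih =>
    intro V hV hp x hx
    rcases Nat.lt_or_ge t V.length with hlt | hge
    · rw [← List.take_append_drop t V, List.mem_append] at hx
      rcases hx with hx | hx
      · exact hx
      · have h1 := ih (V.drop t).length (by rw [List.length_drop]; omega) (V.drop t) rfl
          (hp.drop t) x hx
        exact (hp.take t).subset h1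
    · rwa [List.take_of_length_le hge]

lemma sh_period_replicate {t : ℕ} : ∀ (N : ℕ) (V : List (Fin k)),
    V.drop t <+: V → N * t ≤ V.length → (List.replicate N (V.take t)).flatten <+: V
  | 0, V, _, _ => by simp
  | N + 1, V, hp, hN => by
    rw [List.replicate_succ, List.flatten_cons]
    rcases Nat.eq_zero_or_pos N with rfl | hN0
    · simpa using List.take_prefix t V
    · have hl : (V.drop t).length = V.length - t := List.length_drop
      have hN' : N * t + t ≤ V.length := by nlinarith
      have ht1 : t ≤ N * t := Nat.le_mul_of_pos_left t hN0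
      have ih := sh_period_replicate N (V.drop t) (hp.drop t) (by rw [hl]; omega)
      have e : (V.drop t).take t = V.take t := by
        obtain ⟨z, hz⟩ := hp
        conv_rhs => rw [← hz]
        rw [List.take_append_of_le_length (by rw [hl]; omega)]
      rw [e] at ih
      conv_rhs => rw [← List.take_append_drop t V]
      exact (List.prefix_append_right_inj _).2 ih

/-- The combinatorial lemma. -/
lemma sh_comb (d N : ℕ) (hd : 0 < d) : ∃ n, ∀ w : List (Fin k),
    n ≤ w.countP (fun x => decide (G x)) →
    (∃ (b : Fin d → List (Fin k)) (u0 u1 : List (Fin k)),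
      w = u0 ++ (List.ofFn b).flatten ++ u1 ∧ (∀ i, b i ≠ []) ∧ ∀ σ : Perm (Fin d), σ ≠ 1 →
        shVal (List.ofFn (fun i => b (σ i))).flatten < shVal (List.ofFn b).flatten) ∨
    (∃ u u0 u1 : List (Fin k), w = u0 ++ (List.replicate N u).flatten ++ u1 ∧ u ≠ [] ∧
      u.length < d ∧ ∃ x ∈ u, G x) := by
  set L := max d (N * d) with hL
  have hLd : d ≤ L := le_max_left _ _
  have hLN : N * d ≤ L := le_max_right _ _
  set C := (List.finite_length_eq (Fin k) ((d - 1) + 1 + (L - 1))).toFinset.card with hC
  refine ⟨((d - 1) * C + 1) * ((d - 1) + 1 + (L - 1)), fun w hw => ?_⟩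
  obtain ⟨fs, hfs1, hfs2, hfs3⟩ := sh_chunks G (d - 1) (L - 1) _ w hw
  have hlen : ∀ f ∈ fs, f.length = (d - 1) + 1 + (L - 1) := by
    intro f hf
    obtain ⟨W1, g, W2, rfl, h1, h2, _⟩ := hfs2 f hf
    simp [h1, h2]; omega
  obtain ⟨W, hW, hcount⟩ := sh_pigeon hlen (d - 1)
    (by rw [hfs1]; exact Nat.lt_succ_self _)
  have hrep : shOcc (List.replicate d W) w :=
    shOcc_sublist (by rwa [Nat.sub_add_cancel hd] at hcount) hfs3
  have hWlen : W.length = (d - 1) + L := by rw [hlen W hW]; omega
  obtain ⟨W1, g, W2, hWeq, hW1, hW2, hg⟩ := hfs2 W hW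
  -- the factors
  set F : Fin d → List (Fin k) := fun j => (W.drop j).take L with hF
  have hFlen : ∀ j, (F j).length = L := by
    intro j
    simp only [hF, List.length_take, List.length_drop, hWlen]
    have := j.isLt
    omega
  have hFin : ∀ j, F j <:+: W := by
    intro j
    exact (List.take_prefix _ _).isInfix.trans (List.drop_suffix _ _).isInfix
  by_cases hinj : Function.Injective F
  · left
    set f' : Fin d → ℕᵒᵈ := fun j => OrderDual.toDual (shVal (F j)) with hf'
    set π := Tuple.sort f' with hπ
    have hmono : Monotone (f' ∘ π) := Tuple.monotone_sort f'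
    have hstrict : ∀ i j : Fin d, i < j → shVal (F (π j)) < shVal (F (π i)) := by
      intro i j hij
      have h1 : shVal (F (π j)) ≤ shVal (F (π i)) := hmono hij.le
      rcases h1.lt_or_eq with h2 | h2
      · exact h2
      · exfalso
        have h3 := shVal_inj (by rw [hFlen, hFlen]) h2
        have h4 := π.injective (hinj h3)
        exact (ne_of_lt hij) h4.symm
    set gs := List.ofFn (fun i => F (π i)) with hgs
    have hocc : shOcc gs w := by
      apply shOcc_infix (W := W)
      · intro f hf
        rw [hgs, List.mem_ofFn] at hf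
        obtain ⟨i, rfl⟩ := hf
        exact hFin _
      · rw [hgs, List.length_ofFn]; exact hrep
    obtain ⟨u0, bs, hw', hfor⟩ := shOcc_dec hocc
    have hbl : bs.length = d := by
      rw [← hfor.length_eq, hgs, List.length_ofFn]
    subst hbl
    refine ⟨fun i => bs[i], u0, [], ?_, ?_, ?_⟩
    · rw [hw']; simp
    · intro i
      have := (List.forall₂_iff_get.1 hfor).2 i.1 (by simp [hgs]) i.isLt
      have h2 := this.length_le
      simp only [hgs, List.get_eq_getElem, List.getElem_ofFn] at h2
      rw [hFlen] at h2
      intro h0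
      simp only [Fin.getElem_fin] at h0
      rw [h0] at h2
      simp at h2
      omega
    · intro σ hσ
      have hbs : (List.ofFn fun i : Fin bs.length => bs[i]) = bs := by simp
      rw [hbs]
      apply shVal_flatten_lt (L := L) gs
      · intro f hf
        rw [hgs, List.mem_ofFn] at hf
        obtain ⟨i, rfl⟩ := hf
        exact hFlen _
      · rw [hgs, List.pairwise_ofFn]
        intro i j hij
        exact hstrict i j hij
      · exact hfor
      · conv_rhs => rw [← hbs]
        exact Equiv.Perm.ofFn_comp_perm σ (fun i : Fin bs.length => bs[i])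
      · intro heq
        apply hσ
        have h1 : (fun i : Fin bs.length => bs[(σ i)]) = fun i => bs[i] := by
          apply List.ofFn_injective
          rw [heq, hbs]
        ext i
        have h2 : bs[(σ i)] = bs[i] := congrFun h1 i
        have p1 := (List.forall₂_iff_get.1 hfor).2 i.1 (by simp [hgs]) i.isLt
        have p2 := (List.forall₂_iff_get.1 hfor).2 (σ i).1 (by simp [hgs]) (σ i).isLt
        simp only [hgs, List.get_eq_getElem, List.getElem_ofFn] at p1 p2
        simp only [Fin.getElem_fin] at h2
        rw [h2] at p2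
        have h3 := List.prefix_of_prefix_length_le p1 p2 (by rw [hFlen, hFlen])
        have h4 := h3.eq_of_length (by rw [hFlen, hFlen])
        have h5 := π.injective (hinj h4)
        have h6 := congrArg Fin.val h5
        simp at h6
        simp [h6]
  · right
    have hWw : W <:+: w := by
      obtain ⟨d', rfl⟩ : ∃ d', d = d' + 1 := ⟨d - 1, by omega⟩
      rw [List.replicate_succ] at hrep
      obtain ⟨v, v', rfl, _⟩ := hrep
      exact ⟨v, v', by simp⟩
    obtain ⟨j, j', hjj, hFj⟩ : ∃ j j' : Fin d, j < j' ∧ F j = F j' := by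
      simp only [Function.Injective, not_forall] at hinj
      obtain ⟨a, b, hab, hne⟩ := hinj
      rcases lt_or_gt_of_ne hne with h | h
      · exact ⟨a, b, h, hab⟩
      · exact ⟨b, a, h, hab.symm⟩
    have hjj' : (j : ℕ) < j' := hjj
    have hj'd := j'.isLt
    set t := (j' : ℕ) - j with ht
    set V := (W.drop j).take (L + t) with hV
    have hVlen : V.length = L + t := by
      rw [hV, List.length_take, List.length_drop, hWlen]; omega
    have hVdrop : V.drop t = F j' := by
      simp only [hV, hF, List.drop_take, List.drop_drop]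
      congr 1
      · omega
      · congr 1; omega
    have hVpre : V.drop t <+: V := by
      rw [hVdrop, ← hFj]
      exact List.take_prefix_take_left (by omega)
    have hul : (V.take t).length = t := by rw [List.length_take, hVlen]; omega
    have hVW : V <:+: W := (List.take_prefix _ _).isInfix.trans (List.drop_suffix _ _).isInfix
    have hNt : N * t ≤ V.length := by
      rw [hVlen]
      have : N * t ≤ N * d := Nat.mul_le_mul_left _ (by omega)
      omega
    have h1 := (sh_period_replicate N V hVpre hNt).isInfix.trans (hVW.trans hWw)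
    obtain ⟨u0, u1, hu⟩ := h1
    refine ⟨V.take t, u0, u1, hu.symm, ?_, by rw [hul]; omega, g, ?_, hg⟩
    · intro h0
      rw [h0] at hul
      simp at hul
      omega
    · apply sh_period_mem (by omega) _ V rfl hVpre
      rw [hV, hWeq, List.drop_append, List.take_append]
      apply List.mem_append_right
      rw [show (j : ℕ) - W1.length = 0 by omega, List.drop_zero, List.length_drop, hW1]
      obtain ⟨q, hq⟩ : ∃ q, L + t - (d - 1 - (j : ℕ)) = q + 1 :=
        ⟨L + t - (d - 1 - (j : ℕ)) - 1, by omega⟩
      rw [hq, List.take_succ_cons]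
      exact List.mem_cons_self

end combinatorics

section algebra

variable {F : Type u} [Field F] {d : ℕ} (α : Perm (Fin d) → F)
    {R : Type v} [Ring R] [Algebra F R] {k : ℕ} (e : Fin k → R)

lemma sh_prod_flatten (b : Fin d → List (Fin k)) :
    ((List.ofFn b).flatten.map e).prod = (List.ofFn fun i => ((b i).map e).prod).prod := by
  rw [List.map_flatten, List.prod_flatten, List.map_ofFn, List.map_ofFn]
  rfl

/-- the rewriting step -/
lemma sh_step (hα : α 1 = 1)
    (hpi : ∀ b : Fin d → List (Fin k), (∀ i, b i ≠ []) →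
      ∑ σ, α σ • (List.ofFn fun i => ((b (σ i)).map e).prod).prod = 0)
    (b : Fin d → List (Fin k)) (hb : ∀ i, b i ≠ []) (u0 u1 : List (Fin k)) :
    ((u0 ++ (List.ofFn b).flatten ++ u1).map e).prod =
      - ∑ σ ∈ Finset.univ.erase (1 : Perm (Fin d)),
        α σ • ((u0 ++ (List.ofFn fun i => b (σ i)).flatten ++ u1).map e).prod := by
  have h := hpi b hb
  have h1 : ∑ σ, α σ • ((u0 ++ (List.ofFn fun i => b (σ i)).flatten ++ u1).map e).prod = 0 := by
    have : ∀ σ : Perm (Fin d), α σ • ((u0 ++ (List.ofFn fun i => b (σ i)).flatten ++ u1).map e).prod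
        = (u0.map e).prod * (α σ • (List.ofFn fun i => ((b (σ i)).map e).prod).prod) *
          (u1.map e).prod := by
      intro σ
      rw [List.map_append, List.map_append, List.prod_append, List.prod_append, sh_prod_flatten]
      simp
    simp_rw [this]
    rw [← Finset.sum_mul, ← Finset.mul_sum, h]
    simp
  rw [← Finset.add_sum_erase _ _ (Finset.mem_univ (1 : Perm (Fin d))), hα] at h1
  simp only [Perm.one_apply, one_smul] at h1
  exact eq_neg_of_add_eq_zero_left h1

lemma sh_length_eq (b : Fin d → List (Fin k)) (σ : Perm (Fin d)) (u0 u1 : List (Fin k)) :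
    (u0 ++ (List.ofFn fun i => b (σ i)).flatten ++ u1).Perm (u0 ++ (List.ofFn b).flatten ++ u1) :=
  ((Equiv.Perm.ofFn_comp_perm σ b).flatten.append_left u0).append_right u1

lemma sh_val_lt {b : Fin d → List (Fin k)} {σ : Perm (Fin d)} (u0 u1 : List (Fin k))
    (h : shVal (List.ofFn (fun i => b (σ i))).flatten < shVal (List.ofFn b).flatten) :
    shVal (u0 ++ (List.ofFn fun i => b (σ i)).flatten ++ u1) <
      shVal (u0 ++ (List.ofFn b).flatten ++ u1) := by
  have hl : (List.ofFn fun i => b (σ i)).flatten.length = (List.ofFn b).flatten.length :=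
    (Equiv.Perm.ofFn_comp_perm σ b).flatten.length_eq
  rw [List.append_assoc, List.append_assoc, shVal_append, shVal_append u0]
  have h1 := shVal_lt_of_lt (f := (List.ofFn b).flatten)
    (f' := (List.ofFn (fun i => b (σ i))).flatten) (r := u1) (r' := u1) (by rw [hl]) hl h
  rw [List.length_append, List.length_append, hl]
  omega

/-- B1 -/
theorem words_eq_zero {F : Type u} [Field F] {d : ℕ} (hd : 0 < d) (α : Perm (Fin d) → F)
    (hα : α 1 = 1) {R : Type v} [Ring R] [Algebra F R] {k : ℕ} (e : Fin k → R)
    (hpi : ∀ b : Fin d → List (Fin k), (∀ i, b i ≠ []) →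
      ∑ σ, α σ • (List.ofFn fun i => ((b (σ i)).map e).prod).prod = 0)
    (G : Fin k → Prop) [DecidablePred G] (N : ℕ)
    (hN : ∀ u : List (Fin k), u ≠ [] → u.length < d → (∃ x ∈ u, G x) → (u.map e).prod ^ N = 0) :
    ∃ n, ∀ w : List (Fin k), n ≤ w.countP (fun x => decide (G x)) → (w.map e).prod = 0 := by
  obtain ⟨n, hn⟩ := sh_comb G d N hd
  refine ⟨n, ?_⟩
  suffices H : ∀ (m : ℕ) (w : List (Fin k)), shVal w = m →
      n ≤ w.countP (fun x => decide (G x)) → (w.map e).prod = 0 from fun w => H _ w rfl
  intro m
  induction m using Nat.strong_induction_on with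
  | _ m ih =>
    intro w hw hcount
    rcases hn w hcount with ⟨b, u0, u1, rfl, hb, hval⟩ | ⟨u, u0, u1, rfl, hu0, hud, hx⟩
    · rw [sh_step α e hα hpi b hb u0 u1, neg_eq_zero]
      apply Finset.sum_eq_zero
      intro σ hσ
      have hσ1 : σ ≠ 1 := (Finset.mem_erase.1 hσ).1
      have hlt := sh_val_lt u0 u1 (hval σ hσ1)
      rw [ih _ (by rw [← hw]; exact hlt) _ rfl, smul_zero]
      rw [(sh_length_eq b σ u0 u1).countP_eq]
      exact hcount
    · have h := hN u hu0 hud hx
      rw [List.map_append, List.map_append, List.prod_append, List.prod_append,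
        List.map_flatten, List.prod_flatten, List.map_replicate, List.map_replicate,
        List.prod_replicate, h]
      simp

lemma sh_pow_mem {x : R} (hx : IsIntegral F x) : ∃ n₀ : ℕ, ∀ N, n₀ ≤ N →
    ∃ c : ℕ → F, x ^ N = ∑ i ∈ Finset.range N, c i • x ^ i := by
  obtain ⟨p, hp, hpx⟩ := hx
  refine ⟨p.natDegree, fun N hN => ?_⟩
  set q := p * X ^ (N - p.natDegree) with hq
  have hqm : q.Monic := hp.mul (monic_X_pow _)
  have hqd : q.natDegree = N := by
    rw [hq, hp.natDegree_mul (monic_X_pow _), natDegree_X_pow]; omega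
  have hqx : aeval x q = 0 := by
    have : aeval x p = 0 := hpx
    rw [hq, map_mul, this, zero_mul]
  refine ⟨fun i => - q.coeff i, ?_⟩
  rw [hqm.as_sum, hqd] at hqx
  simp only [map_add, map_pow, aeval_X, map_sum, map_mul, aeval_C] at hqx
  rw [eq_neg_of_add_eq_zero_left hqx, ← Finset.sum_neg_distrib]
  refine Finset.sum_congr rfl fun i _ => ?_
  rw [neg_smul, Algebra.smul_def]

/-- B2 -/
theorem finite_of_words {F : Type u} [Field F] {d : ℕ} (hd : 0 < d) (α : Perm (Fin d) → F)
    (hα : α 1 = 1) {R : Type v} [Ring R] [Algebra F R] {k : ℕ} (e : Fin k → R)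
    (htop : Algebra.adjoin F (Set.range e) = ⊤)
    (hpi : ∀ b : Fin d → List (Fin k), (∀ i, b i ≠ []) →
      ∑ σ, α σ • (List.ofFn fun i => ((b (σ i)).map e).prod).prod = 0)
    (halg : ∀ u : List (Fin k), u ≠ [] → u.length < d → IsIntegral F (u.map e).prod) :
    Module.Finite F R := by
  -- choose N
  obtain ⟨N, hN⟩ : ∃ N : ℕ, ∀ u : List (Fin k), u ≠ [] → u.length < d →
      ∃ c : ℕ → F, (u.map e).prod ^ N = ∑ i ∈ Finset.range N, c i • (u.map e).prod ^ i := by
    have hfin : {u : List (Fin k) | u.length < d}.Finite := List.finite_length_lt (Fin k) d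
    have : ∀ u : List (Fin k), ∃ n₀ : ℕ, u ≠ [] → u.length < d → ∀ N, n₀ ≤ N →
        ∃ c : ℕ → F, (u.map e).prod ^ N = ∑ i ∈ Finset.range N, c i • (u.map e).prod ^ i := by
      intro u
      by_cases hu : u ≠ [] ∧ u.length < d
      · obtain ⟨n₀, h⟩ := sh_pow_mem (halg u hu.1 hu.2)
        exact ⟨n₀, fun _ _ => h⟩
      · exact ⟨0, fun h1 h2 => absurd ⟨h1, h2⟩ hu⟩
    choose n₀ hn₀ using this
    refine ⟨hfin.toFinset.sup n₀, fun u h1 h2 => hn₀ u h1 h2 _ ?_⟩
    exact Finset.le_sup (f := n₀) (by simpa using h2)
  obtain ⟨n, hn⟩ := sh_comb (fun _ : Fin k => True) d N hd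
  set S : Submodule F R := Submodule.span F ((fun w : List (Fin k) => (w.map e).prod) ''
    {w | w.length < n}) with hS
  have hmem : ∀ (p : ℕ ×ₗ ℕ) (w : List (Fin k)), toLex (w.length, shVal w) = p →
      (w.map e).prod ∈ S := by
    intro p
    induction p using WellFoundedLT.induction with
    | _ p ih =>
      intro w hw
      rcases Nat.lt_or_ge w.length n with hlt | hge
      · exact Submodule.subset_span ⟨w, hlt, rfl⟩
      · rcases hn w (by simpa using hge) with ⟨b, u0, u1, rfl, hb, hval⟩ |
          ⟨u, u0, u1, rfl, hu0, hud, hx⟩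
        · rw [sh_step α e hα hpi b hb u0 u1]
          apply Submodule.neg_mem
          apply Submodule.sum_mem
          intro σ hσ
          have hσ1 : σ ≠ 1 := (Finset.mem_erase.1 hσ).1
          have hlt := sh_val_lt u0 u1 (hval σ hσ1)
          apply Submodule.smul_mem
          refine ih _ ?_ _ rfl
          rw [← hw, Prod.Lex.toLex_lt_toLex]
          right
          exact ⟨(sh_length_eq b σ u0 u1).length_eq, hlt⟩
        · obtain ⟨c, hc⟩ := hN u hu0 hud
          rw [List.map_append, List.map_append, List.prod_append, List.prod_append,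
            List.map_flatten, List.prod_flatten, List.map_replicate, List.map_replicate,
            List.prod_replicate, hc, Finset.mul_sum, Finset.sum_mul]
          apply Submodule.sum_mem
          intro i hi
          rw [mul_smul_comm, smul_mul_assoc]
          apply Submodule.smul_mem
          have : (u0.map e).prod * (u.map e).prod ^ i * (u1.map e).prod =
              ((u0 ++ (List.replicate i u).flatten ++ u1).map e).prod := by
            rw [List.map_append, List.map_append, List.prod_append, List.prod_append,
              List.map_flatten, List.prod_flatten, List.map_replicate, List.map_replicate,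
              List.prod_replicate]
          rw [this]
          refine ih _ ?_ _ rfl
          rw [← hw, Prod.Lex.toLex_lt_toLex]
          left
          have hi' : i < N := Finset.mem_range.1 hi
          have hul : 0 < u.length := List.length_pos_iff.2 hu0
          simp only [List.length_append, List.length_flatten, List.map_replicate,
            List.sum_replicate, smul_eq_mul]
          have : i * u.length < N * u.length := Nat.mul_lt_mul_of_pos_right hi' hul
          omega
  have hStop : S = ⊤ := by
    rw [eq_top_iff, ← Algebra.top_toSubmodule, ← htop, Algebra.adjoin_eq_span, Submodule.span_le]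
    intro x hx
    obtain ⟨w, rfl⟩ : ∃ w : List (Fin k), (w.map e).prod = x := by
      induction hx using Submonoid.closure_induction with
      | mem x hx =>
        obtain ⟨i, rfl⟩ := hx
        exact ⟨[i], by simp⟩
      | one => exact ⟨[], by simp⟩
      | mul x y _ _ hx hy =>
        obtain ⟨w1, rfl⟩ := hx
        obtain ⟨w2, rfl⟩ := hy
        exact ⟨w1 ++ w2, by simp⟩
    exact hmem _ w rfl
  rw [Module.finite_def, ← hStop]
  exact Submodule.fg_span ((List.finite_length_lt (Fin k) n).image _)

end algebra

end Pool.Agent.Lib.MP_5aea19_al
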