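import Mathlib
import Pool.Agent.Lib.MP_5aea19_al.Basic
import Pool.Agent.Lib.MP_5aea19_al.LemmaOne
import Pool.Agent.Lib.MP_5aea19_al.Shirshov

set_option autoImplicit false

namespace Pool.Agent.Lib.MP_5aea19_al

open Equiv Polynomial

universe u v w

/-- The data of an augmented finitely generated algebra with two identities on its augmentation
ideal. -/
structure Dat {F : Type u} [Field F] (D : List (Fin 3) →₀ F) {d : ℕ} (α : Perm (Fin d) → F)
    (R : Type v) [Ring R] [Algebra F R] (A : Ideal R) {k : ℕ} (e : Fin k → R) : Prop where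
  two : A.IsTwoSided
  did : DId D (A : Set R)
  mlid : MLId α (A : Set R)
  mem : ∀ i, e i ∈ A
  top : Algebra.adjoin F (Set.range e) = ⊤

variable {F : Type u} [Field F] {D : List (Fin 3) →₀ F} {d : ℕ} {α : Perm (Fin d) → F}
  {R : Type v} [Ring R] [Algebra F R] {A : Ideal R} {k : ℕ} {e : Fin k → R}

/-- a two-sided subspace as an ideal -/
def TS.toIdeal {I : Submodule F R} (h : TS I) : Ideal R where
  carrier := I
  add_mem' := fun ha hb => I.add_mem ha hb
  zero_mem' := I.zero_mem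
  smul_mem' := fun r _ hx => h.mul_mem_left r hx

theorem TS.mem_toIdeal {I : Submodule F R} (h : TS I) {x : R} : x ∈ h.toIdeal ↔ x ∈ I := Iff.rfl

theorem TS.isTwoSided {I : Submodule F R} (h : TS I) : h.toIdeal.IsTwoSided :=
  ⟨fun {_} r hx => h.mul_mem_right r hx⟩

theorem fi_of_finite_quotient {I : Submodule F R} (J : Ideal R) [J.IsTwoSided]
    (hJ : ∀ x, x ∈ J → x ∈ I) [Module.Finite F (R ⧸ J)] : FI I := by
  refine (fi_ker (Ideal.Quotient.mkₐ F J).toLinearMap).mono ?_
  intro x hx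
  have : (Ideal.Quotient.mk J) x = 0 := hx
  exact hJ x (Ideal.Quotient.eq_zero_iff_mem.1 this)

theorem prod_mem_of_ne_nil {A : Ideal R} {e : Fin k → R} (two : A.IsTwoSided)
    (mem : ∀ i, e i ∈ A) : ∀ {w : List (Fin k)}, w ≠ [] → (w.map e).prod ∈ A := by
  intro w hw
  rcases w with _ | ⟨x, w⟩
  · exact absurd rfl hw
  · rw [List.map_cons, List.prod_cons]
    exact A.mul_mem_right _ (mem x)

theorem mul_comm_le (P Q : Submodule F R) : P * Q ≤ Q * P ⊔ cI F R := by
  rw [Submodule.mul_le]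
  intro p hp q hq
  have : p * q = q * p + (p * q - q * p) := by abel
  rw [this]
  exact Submodule.add_mem_sup (Submodule.mul_mem_mul hq hp) (comm_mem_cI p q)

theorem exists_pow_sub_mem [Finite F] {L : Submodule F R} (hL : FI L) (x : R) :
    ∃ a b : ℕ, 1 ≤ a ∧ a < b ∧ x ^ a - x ^ b ∈ L := by
  have h1 : Module.Finite F (R ⧸ L) := (fi_iff L).1 hL
  have h2 : Finite (R ⧸ L) := Module.finite_of_finite F
  have h3 : ¬ Function.Injective (fun n : ℕ => L.mkQ (x ^ (n + 1))) :=
    not_injective_infinite_finite _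
  simp only [Function.Injective, not_forall] at h3
  obtain ⟨m, n, hmn, hne⟩ := h3
  have h4 : L.mkQ (x ^ (m + 1) - x ^ (n + 1)) = 0 := by rw [map_sub, hmn, sub_self]
  have h5 : x ^ (m + 1) - x ^ (n + 1) ∈ L := by
    rwa [Submodule.mkQ_apply, Submodule.Quotient.mk_eq_zero] at h4
  rcases lt_or_gt_of_ne hne with h | h
  · exact ⟨m + 1, n + 1, by omega, by omega, h5⟩
  · refine ⟨n + 1, m + 1, by omega, by omega, ?_⟩
    have := L.neg_mem h5
    rwa [neg_sub] at this

/-- the ideal generated by polynomials in short words has finite codimension -/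
theorem fi_of_short (hdat : Dat D α R A e) (hd : 0 < d) (hα : α 1 = 1) {I : Submodule F R}
    (hI : TS I) (q : List (Fin k) → F[X]) (hq : ∀ w, q w ≠ 0)
    (h : ∀ w : List (Fin k), w ≠ [] → w.length < d → aeval (w.map e).prod (q w) ∈ I) : FI I := by
  have := hdat.two
  have := hI.isTwoSided
  let f := Ideal.Quotient.mkₐ F hI.toIdeal
  have hf : Function.Surjective f := Ideal.Quotient.mkₐ_surjective F _
  have hprod : ∀ w : List (Fin k), (w.map (f ∘ e)).prod = f (w.map e).prod := by
    intro w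
    rw [map_list_prod, List.map_map]
  have : Module.Finite F (R ⧸ hI.toIdeal) := by
    refine finite_of_words hd α hα (f ∘ e) ?_ ?_ ?_
    · rw [Set.range_comp, ← AlgHom.map_adjoin, hdat.top, Algebra.map_top]
      exact AlgHom.range_eq_top f |>.2 hf
    · intro b hb
      have h1 := hdat.mlid (fun i => ((b i).map e).prod)
        (fun i => prod_mem_of_ne_nil hdat.two hdat.mem (hb i))
      have h2 := congrArg f h1
      rw [map_sum, map_zero] at h2
      rw [← h2]
      refine Finset.sum_congr rfl ?_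
      intro σ _
      rw [map_smul, map_list_prod, List.map_ofFn]
      congr 2
      simp only [hprod]
      rfl
    · intro u hu hul
      rw [hprod, ← isAlgebraic_iff_isIntegral]
      refine ⟨q u, hq u, ?_⟩
      have h1 := h u hu hul
      have h2 : f (aeval (u.map e).prod (q u)) = 0 := Ideal.Quotient.eq_zero_iff_mem.2 h1
      rw [← h2, ← Polynomial.aeval_algHom_apply]
  exact fi_of_finite_quotient hI.toIdeal (fun x hx => hx)

theorem finite_short (k d : ℕ) : {w : List (Fin k) | w ≠ [] ∧ w.length < d}.Finite :=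
  (List.finite_length_lt (Fin k) d).subset fun _ hw => hw.2

/-- The inductive step. -/
theorem heart_step [Finite F] (hD : GoodD D) (hd : 0 < d) (hα : α 1 = 1)
    (hdat : Dat D α R A e) (hK : (ann2 (cI F R)).FG) {U g : Submodule F R} (hg : g.FG)
    (hUg : U = ⊤ * g * ⊤) (hM : (cI F R * U ⊔ U * cI F R).FG) : U.FG := by
  have hU : TS U := by rw [hUg]; exact ts_gen g
  set C := cI F R with hC
  have hCts : TS C := ts_cI
  set M := C * U ⊔ U * C with hMdef
  have hMts : TS M := (hCts.mul hU).sup (hU.mul hCts)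
  set L := ann2 M with hL
  have hLts : TS L := ts_ann2 hMts
  have hLfi : FI L := fi_ann2 hMts hM
  have hLM : L * M ≤ ⊥ ∧ M * L ≤ ⊥ := le_ann2_iff.1 le_rfl
  choose a b ha hab hz using fun w : List (Fin k) => exists_pow_sub_mem hLfi (w.map e).prod
  -- the polynomials
  let q : List (Fin k) → F[X] := fun w => (X ^ 2 * gpoly D).comp (X ^ a w - X ^ b w)
  have hq : ∀ w, q w ≠ 0 := by
    intro w hw
    have hne : (X ^ 2 * gpoly D : F[X]) ≠ 0 := mul_ne_zero (pow_ne_zero 2 X_ne_zero)
      (gpoly_ne_zero hD)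
    rcases Polynomial.comp_eq_zero_iff.1 hw with h | ⟨-, h⟩
    · exact hne h
    · have h1 := congrArg (fun p : F[X] => p.coeff (b w)) h
      have h2 := ha w
      have h3 := hab w
      simp only [coeff_sub, coeff_X_pow, coeff_C] at h1
      rw [if_neg (show ¬ (b w = a w) by omega), if_neg (show ¬ (b w = 0) by omega)] at h1
      simp at h1
  let γ : List (Fin k) → R := fun w => aeval (w.map e).prod (q w)
  let Tg : Submodule F R := Submodule.span F (γ '' {w : List (Fin k) | w ≠ [] ∧ w.length < d})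
  have hTg : Tg.FG := Submodule.fg_span ((finite_short k d).image γ)
  have hG : FI (⊤ * Tg * ⊤ : Submodule F R) := by
    refine fi_of_short hdat hd hα (ts_gen Tg) q hq ?_
    intro w hw hwl
    exact le_gen _ (Submodule.subset_span ⟨w, ⟨hw, hwl⟩, rfl⟩)
  set Γ := (⊤ * Tg * ⊤ : Submodule F R) with hΓ
  have hΓts : TS Γ := ts_gen Tg
  have two := hdat.two
  -- the two annihilation facts
  have hzA : ∀ w : List (Fin k), w ≠ [] → (w.map e).prod ^ a w - (w.map e).prod ^ b w ∈ A := by
    intro w hw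
    have h1 := prod_mem_of_ne_nil hdat.two hdat.mem hw
    exact A.sub_mem (A.pow_mem_of_mem h1 _ (by have := ha w; omega))
      (A.pow_mem_of_mem h1 _ (by have := ha w; have := hab w; omega))
  have hγ : ∀ w, γ w = aeval ((w.map e).prod ^ a w - (w.map e).prod ^ b w)
      (X ^ 2 * gpoly D) := by
    intro w
    change aeval (w.map e).prod ((X ^ 2 * gpoly D).comp (X ^ a w - X ^ b w)) = _
    rw [Polynomial.aeval_comp]
    simp
  have hF1 : C * Tg * U ≤ ⊥ := by
    have : ∀ c ∈ C, ∀ t ∈ Tg, ∀ u ∈ U, c * t * u = 0 := by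
      intro c hc t ht u hu
      induction ht using Submodule.span_induction with
      | mem x hx =>
        obtain ⟨w, ⟨hw, hwl⟩, rfl⟩ := hx
        rw [hγ]
        refine lemma_one hD hdat.did c u _ (hzA w hw) (A.mul_mem_left _ (hzA w hw))
          (A.mul_mem_right _ (hzA w hw)) ?_ ?_ ?_
        · intro m
          refine (hz w).1 _ (le_sup_left (a := C * U) (b := U * C) ?_)
          rw [mul_assoc]
          exact Submodule.mul_mem_mul hc (hU.mul_mem_left _ hu)
        · intro m
          refine (hz w).2 _ (le_sup_left (a := C * U) (b := U * C) ?_)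
          rw [mul_assoc]
          exact Submodule.mul_mem_mul hc (hU.mul_mem_left _ hu)
        · intro m
          refine (hz w).1 _ (le_sup_right (a := C * U) (b := U * C) ?_)
          rw [mul_assoc]
          exact Submodule.mul_mem_mul hu (hCts.mul_mem_left _ hc)
      | zero => simp
      | add x y _ _ hx hy => rw [mul_add, add_mul, hx, hy, add_zero]
      | smul r x _ hx => rw [mul_smul_comm, smul_mul_assoc, hx, smul_zero]
    refine Submodule.mul_le.2 fun ct hct u hu => ?_
    induction hct using Submodule.mul_induction_on' with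
    | mem_mul_mem c hc t ht => simpa using this c hc t ht u hu
    | add x hx y hy h1 h2 => rw [add_mul]; exact Submodule.add_mem _ h1 h2
  have hF2 : U * Tg * C ≤ ⊥ := by
    have : ∀ u ∈ U, ∀ t ∈ Tg, ∀ c ∈ C, u * t * c = 0 := by
      intro u hu t ht c hc
      induction ht using Submodule.span_induction with
      | mem x hx =>
        obtain ⟨w, ⟨hw, hwl⟩, rfl⟩ := hx
        rw [hγ]
        refine lemma_one hD hdat.did u c _ (hzA w hw) (A.mul_mem_left _ (hzA w hw))
          (A.mul_mem_right _ (hzA w hw)) ?_ ?_ ?_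
        · intro m
          refine (hz w).1 _ (le_sup_right (a := C * U) (b := U * C) ?_)
          rw [mul_assoc]
          exact Submodule.mul_mem_mul hu (hCts.mul_mem_left _ hc)
        · intro m
          refine (hz w).2 _ (le_sup_right (a := C * U) (b := U * C) ?_)
          rw [mul_assoc]
          exact Submodule.mul_mem_mul hu (hCts.mul_mem_left _ hc)
        · intro m
          refine (hz w).1 _ (le_sup_left (a := C * U) (b := U * C) ?_)
          rw [mul_assoc]
          exact Submodule.mul_mem_mul hc (hU.mul_mem_left _ hu)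
      | zero => simp
      | add x y _ _ hx hy => rw [mul_add, add_mul, hx, hy, add_zero]
      | smul r x _ hx => rw [mul_smul_comm, smul_mul_assoc, hx, smul_zero]
    refine Submodule.mul_le.2 fun ct hct u hu => ?_
    induction hct using Submodule.mul_induction_on' with
    | mem_mul_mem c hc t ht => simpa using this c hc t ht u hu
    | add x hx y hy h1 h2 => rw [add_mul]; exact Submodule.add_mem _ h1 h2
  have hgU : g ≤ U := by rw [hUg]; exact le_gen g
  have hTgU : Tg * U ≤ U := (mul_le_mul' le_top le_rfl).trans hU.1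
  have hUTg : U * Tg ≤ U := (mul_le_mul' le_rfl le_top).trans hU.2
  have hbot : ∀ P Q : Submodule F R, P * (⊥ : Submodule F R) * Q ≤ ⊥ := by
    intro P Q
    simp
  -- `N'`
  have hN1 : (⊤ * (Tg * g) * ⊤ : Submodule F R).FG := by
    refine fin_bimod hLfi hG (hTg.mul hg) hK ?_ ?_
    · rw [le_ann2_iff]
      constructor
      · calc L * (Tg * g) * ⊤ * C ≤ L * (Tg * U) * ⊤ * C :=
              mul_le_mul' (mul_le_mul' (mul_le_mul' le_rfl (mul_le_mul' le_rfl hgU)) le_rfl) le_rfl
          _ ≤ L * U * ⊤ * C := mul_le_mul' (mul_le_mul' (mul_le_mul' le_rfl hTgU) le_rfl) le_rfl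
          _ = L * (U * C) := by rw [mul_assoc L U ⊤, hU.mul_top, mul_assoc]
          _ ≤ L * M := mul_le_mul' le_rfl le_sup_right
          _ ≤ ⊥ := hLM.1
      · calc C * (L * (Tg * g) * ⊤) ≤ C * (L * (Tg * U) * ⊤) :=
              mul_le_mul' le_rfl (mul_le_mul' (mul_le_mul' le_rfl (mul_le_mul' le_rfl hgU)) le_rfl)
          _ = (C * L) * Tg * U * ⊤ := by simp only [mul_assoc]
          _ ≤ C * Tg * U * ⊤ := mul_le_mul' (mul_le_mul' (mul_le_mul'
              ((mul_le_mul' le_rfl le_top).trans hCts.2) le_rfl) le_rfl) le_rfl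
          _ ≤ ⊥ * ⊤ := mul_le_mul' hF1 le_rfl
          _ ≤ ⊥ := by simp
    · rw [le_ann2_iff]
      constructor
      · calc ⊤ * (Tg * g) * Γ * C ≤ ⊤ * (Tg * U) * Γ * C :=
              mul_le_mul' (mul_le_mul' (mul_le_mul' le_rfl (mul_le_mul' le_rfl hgU)) le_rfl) le_rfl
          _ = ⊤ * Tg * ((U * ⊤) * Tg * (⊤ * C)) := by rw [hΓ]; simp only [mul_assoc]
          _ = ⊤ * Tg * (U * Tg * C) := by rw [hU.mul_top, hCts.top_mul]
          _ ≤ ⊤ * Tg * ⊥ := mul_le_mul' le_rfl hF2
          _ ≤ ⊥ := by simp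
      · calc C * (⊤ * (Tg * g) * Γ) ≤ C * (⊤ * (Tg * U) * Γ) :=
              mul_le_mul' le_rfl (mul_le_mul' (mul_le_mul' le_rfl (mul_le_mul' le_rfl hgU)) le_rfl)
          _ = (C * ⊤) * Tg * U * Γ := by simp only [mul_assoc]
          _ = C * Tg * U * Γ := by rw [hCts.mul_top]
          _ ≤ ⊥ * Γ := mul_le_mul' hF1 le_rfl
          _ ≤ ⊥ := by simp
  have hN2 : (⊤ * (g * Tg) * ⊤ : Submodule F R).FG := by
    refine fin_bimod hG hLfi (hg.mul hTg) hK ?_ ?_
    · rw [le_ann2_iff]
      constructor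
      · calc Γ * (g * Tg) * ⊤ * C ≤ Γ * (U * Tg) * ⊤ * C :=
              mul_le_mul' (mul_le_mul' (mul_le_mul' le_rfl (mul_le_mul' hgU le_rfl)) le_rfl) le_rfl
          _ = Γ * (U * Tg * (⊤ * C)) := by simp only [mul_assoc]
          _ = Γ * (U * Tg * C) := by rw [hCts.top_mul]
          _ ≤ Γ * ⊥ := mul_le_mul' le_rfl hF2
          _ ≤ ⊥ := by simp
      · calc C * (Γ * (g * Tg) * ⊤) ≤ C * (Γ * (U * Tg) * ⊤) :=
              mul_le_mul' le_rfl (mul_le_mul' (mul_le_mul' le_rfl (mul_le_mul' hgU le_rfl)) le_rfl)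
          _ = (C * ⊤) * Tg * (⊤ * U) * Tg * ⊤ := by rw [hΓ]; simp only [mul_assoc]
          _ = C * Tg * U * Tg * ⊤ := by rw [hCts.mul_top, hU.top_mul]
          _ ≤ ⊥ * Tg * ⊤ := mul_le_mul' (mul_le_mul' hF1 le_rfl) le_rfl
          _ ≤ ⊥ := by simp
    · rw [le_ann2_iff]
      constructor
      · calc ⊤ * (g * Tg) * L * C ≤ ⊤ * (U * Tg) * L * C :=
              mul_le_mul' (mul_le_mul' (mul_le_mul' le_rfl (mul_le_mul' hgU le_rfl)) le_rfl) le_rfl
          _ = ⊤ * (U * Tg * (L * C)) := by simp only [mul_assoc]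
          _ ≤ ⊤ * (U * Tg * C) := mul_le_mul' le_rfl (mul_le_mul' le_rfl
              ((mul_le_mul' le_top le_rfl).trans hCts.1))
          _ ≤ ⊤ * ⊥ := mul_le_mul' le_rfl hF2
          _ ≤ ⊥ := by simp
      · calc C * (⊤ * (g * Tg) * L) ≤ C * (⊤ * (U * Tg) * L) :=
              mul_le_mul' le_rfl (mul_le_mul' (mul_le_mul' le_rfl (mul_le_mul' hgU le_rfl)) le_rfl)
          _ ≤ C * (⊤ * U * L) := mul_le_mul' le_rfl (mul_le_mul' (mul_le_mul' le_rfl hUTg) le_rfl)
          _ = (C * U) * L := by rw [hU.top_mul, mul_assoc]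
          _ ≤ M * L := mul_le_mul' le_sup_left le_rfl
          _ ≤ ⊥ := hLM.2
  have hW : ((⊤ * (Tg * g) * ⊤ : Submodule F R) ⊔ ⊤ * (g * Tg) * ⊤ ⊔ M).FG :=
    (hN1.sup hN2).sup hM
  set W := (⊤ * (Tg * g) * ⊤ : Submodule F R) ⊔ ⊤ * (g * Tg) * ⊤ ⊔ M with hWdef
  rw [hUg]
  refine fin_bimod hG hG hg hW ?_ ?_
  · calc Γ * g * ⊤ = ⊤ * ((Tg * ⊤) * g) * ⊤ := by rw [hΓ]; simp only [mul_assoc]
      _ ≤ ⊤ * ((⊤ * Tg ⊔ C) * g) * ⊤ :=
          mul_le_mul' (mul_le_mul' le_rfl (mul_le_mul' (mul_comm_le Tg ⊤) le_rfl)) le_rfl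
      _ = (⊤ * ⊤) * (Tg * g) * ⊤ ⊔ (⊤ * C) * (g * ⊤) := by
          simp only [Submodule.mul_sup, Submodule.sup_mul, mul_assoc]
      _ ≤ ⊤ * (Tg * g) * ⊤ ⊔ C * U := by
          rw [top_mul_top, hCts.top_mul]
          refine sup_le_sup le_rfl (mul_le_mul' le_rfl ?_)
          exact (mul_le_mul' hgU le_rfl).trans hU.2
      _ ≤ W := sup_le (le_sup_left.trans le_sup_left) (le_sup_left.trans le_sup_right)
  · calc ⊤ * g * Γ = ⊤ * (g * (⊤ * Tg)) * ⊤ := by rw [hΓ]; simp only [mul_assoc]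
      _ ≤ ⊤ * (g * (Tg * ⊤ ⊔ C)) * ⊤ :=
          mul_le_mul' (mul_le_mul' le_rfl (mul_le_mul' le_rfl (mul_comm_le ⊤ Tg))) le_rfl
      _ = ⊤ * (g * Tg) * (⊤ * ⊤) ⊔ (⊤ * g) * (C * ⊤) := by
          simp only [Submodule.mul_sup, Submodule.sup_mul, mul_assoc]
      _ ≤ ⊤ * (g * Tg) * ⊤ ⊔ U * C := by
          rw [top_mul_top, hCts.mul_top]
          refine sup_le_sup le_rfl (mul_le_mul' ?_ le_rfl)
          exact (mul_le_mul' le_rfl hgU).trans hU.1
      _ ≤ W := sup_le (le_sup_right.trans le_sup_left) (le_sup_right.trans le_sup_right)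

end Pool.Agent.Lib.MP_5aea19_al
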