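import Mathlib
import Pool.Agent.Lib.MP_5aea19_al.Defs

set_option autoImplicit false

namespace Pool.Agent.Lib.MP_5aea19_al

open Equiv Polynomial

universe u v w

/-- The letters of a word of the free semigroup, as a list. -/
def idaW (w : FreeSemigroup ℕ) : List ℕ := w.head :: w.tail

theorem idaW_injective : Function.Injective idaW := by
  rintro ⟨a, b⟩ ⟨c, d⟩ h
  simp only [idaW, List.cons.injEq] at h
  obtain ⟨rfl, rfl⟩ := h
  rfl

theorem idaW_ne_nil (w : FreeSemigroup ℕ) : idaW w ≠ [] := by simp [idaW]

theorem idaW_mul (x y : FreeSemigroup ℕ) : idaW (x * y) = idaW x ++ idaW y := by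
  simp [idaW]

theorem ida_foldl {R : Type v} [Ring R] (a : ℕ → R) (l : List ℕ) (r : R) :
    l.foldl (fun x y => x * a y) r = r * (l.map a).prod := by
  induction l generalizing r with
  | nil => simp
  | cons x l ih => simp [ih, mul_assoc]

theorem ida_lift {R : Type v} [Ring R] (a : ℕ → R) (w : FreeSemigroup ℕ) :
    FreeSemigroup.lift a w = ((idaW w).map a).prod := by
  obtain ⟨x, l⟩ := w
  change l.foldl (fun x y => x * a y) (a x) = _
  rw [ida_foldl]
  simp [idaW]

theorem ev_eq {F : Type u} [Field F] {R : Type v} [Ring R] [Algebra F R] {ι : Type w}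
    (D : List ι →₀ F) (a : ι → R) :
    ev D a = Finsupp.linearCombination F (fun w : List ι => (w.map a).prod) D := rfl

theorem ida_eval {F : Type u} [Field F] {R : Type v} [Ring R] [Algebra F R]
    (p : MonoidAlgebra F (FreeSemigroup ℕ)) (a : ℕ → R) :
    MonoidAlgebra.liftMagma F (FreeSemigroup.lift a) p =
      p.coeff.sum fun w c => c • ((idaW w).map a).prod := by
  rw [MonoidAlgebra.liftMagma_apply_apply]
  simp only [ida_lift]
  change (Finsupp.liftAddHom fun x => (smulAddHom F R).flip (List.map a (idaW x)).prod) p.coeff = _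
  rw [Finsupp.liftAddHom_apply]
  rfl

theorem ida_eval' {F : Type u} [Field F] {R : Type v} [Ring R] [Algebra F R]
    (p : MonoidAlgebra F (FreeSemigroup ℕ)) (a : ℕ → R) :
    MonoidAlgebra.liftMagma F (FreeSemigroup.lift a) p =
      ev (p.coeff.mapDomain idaW) a := by
  rw [ida_eval, ev, Finsupp.sum_mapDomain_index]
  · simp
  · intros; rw [add_smul]

open Finset in
theorem ida_polar {R : Type v} [Ring R] {n d : ℕ} (hn : n ≤ d) (x : Fin n → ℕ) (κ : Fin d → ℕ)
    (a : Fin d → R) :
    ∑ U : Finset (Fin d), (-1 : ℤ) ^ U.card •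
      (List.ofFn fun s => ∑ t ∈ univ.filter (fun t => t ∉ U ∧ κ t = x s), a t).prod =
    ∑ σ : Perm (Fin d), if List.ofFn x = List.ofFn (fun i => κ (σ i)) then
      (List.ofFn fun i => a (σ i)).prod else 0 := by
  classical
  have h1 : ∀ U : Finset (Fin d),
      (List.ofFn fun s => ∑ t ∈ univ.filter (fun t => t ∉ U ∧ κ t = x s), a t).prod =
      ∑ r : Fin n → Fin d, if (∀ s, r s ∉ U ∧ κ (r s) = x s) then
        (List.ofFn fun s => a (r s)).prod else 0 := by
    intro U
    have := (MultilinearMap.mkPiAlgebraFin ℤ n R).map_sum_finset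
      (fun (_ : Fin n) (t : Fin d) => a t)
      (fun s => univ.filter (fun t => t ∉ U ∧ κ t = x s))
    rw [MultilinearMap.mkPiAlgebraFin_apply] at this
    rw [this, ← Finset.sum_filter]
    apply Finset.sum_congr
    · ext r
      simp [Fintype.mem_piFinset]
    · intro r _
      rw [MultilinearMap.mkPiAlgebraFin_apply]
  simp only [h1]
  simp only [Finset.smul_sum]
  rw [Finset.sum_comm]
  have h2 : ∀ r : Fin n → Fin d,
      ∑ U : Finset (Fin d), (-1 : ℤ) ^ U.card • (if (∀ s, r s ∉ U ∧ κ (r s) = x s) then
        (List.ofFn fun s => a (r s)).prod else 0) =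
      if (∀ s, κ (r s) = x s) ∧ Function.Surjective r then
        (List.ofFn fun s => a (r s)).prod else 0 := by
    intro r
    by_cases hr : ∀ s, κ (r s) = x s
    · have h3 : ∀ U : Finset (Fin d), (∀ s, r s ∉ U ∧ κ (r s) = x s) ↔
          U ∈ ((univ.image r)ᶜ).powerset := by
        intro U
        simp only [Finset.mem_powerset, Finset.subset_iff, mem_compl, mem_image, mem_univ,
          true_and, not_exists]
        constructor
        · intro h t ht s hs
          exact (h s).1 (hs ▸ ht)
        · intro h s
          exact ⟨fun hs => h hs s rfl, hr s⟩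
      simp only [h3, smul_ite, smul_zero]
      rw [← Finset.sum_filter]
      have h4 : (univ.filter fun U : Finset (Fin d) => U ∈ ((univ.image r)ᶜ).powerset) =
          ((univ.image r)ᶜ).powerset := by
        ext; simp
      rw [h4, ← Finset.sum_smul, Finset.sum_powerset_neg_one_pow_card]
      by_cases hs : Function.Surjective r
      · rw [if_pos, if_pos ⟨hr, hs⟩, one_smul]
        rw [Finset.compl_eq_empty_iff]
        exact Finset.image_univ_of_surjective hs
      · rw [if_neg, if_neg (fun h => hs h.2), zero_smul]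
        rw [Finset.compl_eq_empty_iff]
        intro h
        apply hs
        intro t
        have := h ▸ Finset.mem_univ t
        simpa using this
    · rw [if_neg (fun h => hr h.1)]
      apply Finset.sum_eq_zero
      intro U _
      rw [if_neg (fun h => hr (fun s => (h s).2)), smul_zero]
  rw [Finset.sum_congr rfl (fun r _ => h2 r)]
  rcases hn.eq_or_lt with rfl | hlt
  · symm
    apply Finset.sum_of_injOn (e := fun (σ : Perm (Fin n)) => (σ : Fin n → Fin n))
    · intro σ _ τ _ h
      exact Equiv.coe_fn_injective h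
    · intro σ _
      simp
    · intro r _ hr
      rw [if_neg]
      rintro ⟨-, hs⟩
      apply hr
      exact ⟨Equiv.ofBijective r (Finite.injective_iff_surjective.2 hs |>.bijective_of_finite),
        by simp, rfl⟩
    · intro σ _
      have : (List.ofFn x = List.ofFn (fun i => κ (σ i))) ↔
          ((∀ s, κ (σ s) = x s) ∧ Function.Surjective σ) := by
        rw [List.ofFn_inj]
        constructor
        · intro h
          exact ⟨fun s => (congrFun h s).symm, σ.surjective⟩
        · intro h
          ext s
          exact (h.1 s).symm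
      simp only [this]
  · rw [Finset.sum_eq_zero, Finset.sum_eq_zero]
    · intro σ _
      rw [if_neg]
      intro h
      have := congrArg List.length h
      simp at this
      omega
    · intro r _
      rw [if_neg]
      rintro ⟨-, hs⟩
      have := Fintype.card_le_of_surjective r hs
      simp at this
      omega

open Finset in
theorem exists_mlId {F : Type u} [Field F] (p : MonoidAlgebra F (FreeSemigroup ℕ)) (hp : p ≠ 0) :
    ∃ d : ℕ, 0 < d ∧ ∃ α : Perm (Fin d) → F, α 1 = 1 ∧
      ∀ (R : Type v) [Ring R] [Algebra F R] (I : Ideal R) [I.IsTwoSided],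
        (∀ a : ℕ → R, (∀ i, a i ∈ I) → MonoidAlgebra.liftMagma F (FreeSemigroup.lift a) p = 0) →
          MLId α (I : Set R) := by
  classical
  have hsupp : p.coeff.support.Nonempty := by
    rw [Finsupp.support_nonempty_iff]; simpa using hp
  obtain ⟨w0, hw0, hmax⟩ := p.coeff.support.exists_max_image (fun w => (idaW w).length) hsupp
  obtain ⟨d, hd⟩ : ∃ d, d = (idaW w0).length := ⟨_, rfl⟩
  obtain ⟨κ, hκ⟩ : ∃ κ : Fin d → ℕ, List.ofFn κ = idaW w0 := by
    subst hd
    exact ⟨fun i => (idaW w0).get i, List.ofFn_get _⟩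
  let q : List ℕ → F := fun l => p.coeff.mapDomain idaW l
  have hq : ∀ l, q l = ∑ w ∈ p.coeff.support, if idaW w = l then p.coeff w else 0 := by
    intro l
    change (p.coeff.mapDomain idaW) l = _
    rw [Finsupp.mapDomain, Finsupp.sum_apply, Finsupp.sum]
    refine Finset.sum_congr rfl fun w _ => ?_
    rw [Finsupp.single_apply]
  have hq0 : q (List.ofFn κ) ≠ 0 := by
    change (p.coeff.mapDomain idaW) _ ≠ 0
    rw [hκ, Finsupp.mapDomain_apply idaW_injective]
    simpa using hw0
  refine ⟨d, by rw [hd]; simp [idaW], fun σ => q (List.ofFn fun i => κ (σ i)) / q (List.ofFn κ),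
    ?_, ?_⟩
  · simp only [Equiv.Perm.coe_one, id_eq]
    exact div_self hq0
  · intro R _ _ I _ h a ha
    have key : ∑ U : Finset (Fin d), (-1 : ℤ) ^ U.card •
        MonoidAlgebra.liftMagma F (FreeSemigroup.lift
          (fun k => ∑ t ∈ univ.filter (fun t => t ∉ U ∧ κ t = k), a t)) p = 0 := by
      apply Finset.sum_eq_zero
      intro U _
      rw [h _ (fun k => I.sum_mem fun t _ => ha t), smul_zero]
    simp only [ida_eval, Finsupp.sum] at key
    have e1 : ∀ w ∈ p.coeff.support, ∑ U : Finset (Fin d), (-1 : ℤ) ^ U.card •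
        (p.coeff w • ((idaW w).map
          (fun k => ∑ t ∈ univ.filter (fun t => t ∉ U ∧ κ t = k), a t)).prod) =
        ∑ σ : Perm (Fin d), (if idaW w = List.ofFn (fun i => κ (σ i)) then p.coeff w else 0) •
          (List.ofFn fun i => a (σ i)).prod := by
      intro w hw
      have hn : (idaW w).length ≤ d := hd ▸ hmax w hw
      have := ida_polar hn (fun i => (idaW w).get i) κ a
      rw [List.ofFn_get] at this
      have e2 : ∀ σ : Perm (Fin d),
          (if idaW w = List.ofFn (fun i => κ (σ i)) then p.coeff w else 0) •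
          (List.ofFn fun i => a (σ i)).prod = p.coeff w •
          (if idaW w = List.ofFn (fun i => κ (σ i)) then (List.ofFn fun i => a (σ i)).prod
            else 0) := by
        intro σ
        split_ifs <;> simp
      simp only [e2]
      rw [← Finset.smul_sum, ← this, Finset.smul_sum]
      refine Finset.sum_congr rfl fun U _ => ?_
      rw [smul_comm]
      congr 3
      conv_lhs => rw [← List.ofFn_get (idaW w)]
      rw [List.map_ofFn]
      rfl
    have e3 : ∑ σ : Perm (Fin d), q (List.ofFn fun i => κ (σ i)) •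
        (List.ofFn fun i => a (σ i)).prod = 0 := by
      rw [← key]
      simp only [Finset.smul_sum]
      rw [Finset.sum_comm, Finset.sum_congr rfl e1, Finset.sum_comm]
      refine Finset.sum_congr rfl fun σ _ => ?_
      rw [hq, Finset.sum_smul]
    have e4 : ∑ σ : Perm (Fin d), (q (List.ofFn fun i => κ (σ i)) / q (List.ofFn κ)) •
        (List.ofFn fun i => a (σ i)).prod = (q (List.ofFn κ))⁻¹ •
        ∑ σ : Perm (Fin d), q (List.ofFn fun i => κ (σ i)) •
        (List.ofFn fun i => a (σ i)).prod := by
      rw [Finset.smul_sum]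
      refine Finset.sum_congr rfl fun σ _ => ?_
      rw [smul_smul, div_eq_inv_mul]
    rw [e4, e3, smul_zero]

/-! ### Words modulo `T0` -/

theorem ida_T0_mul_left {F : Type u} [Field F] (x : MonoidAlgebra F (FreeSemigroup ℕ))
    {p : MonoidAlgebra F (FreeSemigroup ℕ)} (hp : p ∈ T0 F) : x * p ∈ T0 F := by
  unfold T0 at hp ⊢
  induction hp using Submodule.span_induction with
  | mem p hp =>
    obtain ⟨u, v, w, s, rfl⟩ := hp
    exact Submodule.subset_span ⟨x * u, v, w, s, by simp only [mul_assoc]⟩
  | zero => simp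
  | add a b _ _ ha hb => rw [mul_add]; exact Submodule.add_mem _ ha hb
  | smul c a _ ha => rw [mul_smul_comm]; exact Submodule.smul_mem _ _ ha

theorem ida_perm {F : Type u} [Field F] {u u' : List ℕ} (h : u.Perm u') (i j : ℕ) :
    (MonoidAlgebra.single (⟨i, u ++ [j]⟩ : FreeSemigroup ℕ) (1 : F) -
      MonoidAlgebra.single (⟨i, u' ++ [j]⟩ : FreeSemigroup ℕ) (1 : F)) ∈ T0 F := by
  induction h generalizing i with
  | nil => simp
  | cons x _ ih =>
    rename_i l l'
    have := ida_T0_mul_left (MonoidAlgebra.single (FreeSemigroup.of i) (1 : F)) (ih x)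
    rw [mul_sub, MonoidAlgebra.single_mul_single, MonoidAlgebra.single_mul_single, mul_one] at this
    exact this
  | swap x y l =>
    apply Submodule.subset_span
    obtain ⟨s, hs⟩ : ∃ s : FreeSemigroup ℕ, s.head :: s.tail = l ++ [j] := by
      cases l with
      | nil => exact ⟨⟨j, []⟩, rfl⟩
      | cons a l => exact ⟨⟨a, l ++ [j]⟩, rfl⟩
    refine ⟨MonoidAlgebra.single (FreeSemigroup.of i) (1 : F),
      MonoidAlgebra.single (FreeSemigroup.of y) (1 : F),
      MonoidAlgebra.single (FreeSemigroup.of x) (1 : F), MonoidAlgebra.single s (1 : F), ?_⟩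
    rw [mul_sub, sub_mul]
    simp only [MonoidAlgebra.single_mul_single, mul_one]
    have e1 : ∀ a b : ℕ, FreeSemigroup.of i * (FreeSemigroup.of a * FreeSemigroup.of b) * s =
        (⟨i, a :: b :: l ++ [j]⟩ : FreeSemigroup ℕ) := by
      intro a b
      obtain ⟨s1, s2⟩ := s
      simp only at hs
      change (⟨i, a :: b :: (s1 :: s2)⟩ : FreeSemigroup ℕ) = _
      rw [hs]
      rfl
    rw [e1, e1]
  | trans _ _ h1 h2 =>
    have := Submodule.add_mem _ (h1 i) (h2 i)
    simpa using this

/-- The data of a word which are kept modulo `T0`. -/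
def idaKey (w : FreeSemigroup ℕ) : ℕ × Multiset ℕ × Option ℕ :=
  (w.head, (w.tail.dropLast : Multiset ℕ), w.tail.getLast?)

theorem ida_key_eq {F : Type u} [Field F] {w w' : FreeSemigroup ℕ} (h : idaKey w = idaKey w') :
    (MonoidAlgebra.single w (1 : F) - MonoidAlgebra.single w' (1 : F)) ∈ T0 F := by
  obtain ⟨i, l⟩ := w
  obtain ⟨i', l'⟩ := w'
  simp only [idaKey, Prod.mk.injEq, Multiset.coe_eq_coe] at h
  obtain ⟨rfl, h1, h2⟩ := h
  rcases List.eq_nil_or_concat l with rfl | ⟨u, j, rfl⟩
  · simp only [List.getLast?_nil] at h2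
    have : l' = [] := by
      rw [eq_comm, List.getLast?_eq_none_iff] at h2
      exact h2
    subst this
    simp
  · rcases List.eq_nil_or_concat l' with rfl | ⟨u', j', rfl⟩
    · simp at h2
    · simp only [List.concat_eq_append, List.getLast?_append, List.getLast?_singleton,
        Option.some_or, Option.some.injEq, List.dropLast_concat] at h1 h2 ⊢
      subst h2
      exact ida_perm h1 _ _

theorem ida_mem_T0 {F : Type u} [Field F] (p : MonoidAlgebra F (FreeSemigroup ℕ))
    (h : p.coeff.mapDomain idaKey = 0) : p ∈ T0 F := by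
  classical
  let rep : ℕ × Multiset ℕ × Option ℕ → FreeSemigroup ℕ := fun k =>
    if h : ∃ w, idaKey w = k then h.choose else ⟨0, []⟩
  have hrep : ∀ w, idaKey (rep (idaKey w)) = idaKey w := by
    intro w
    have hw : ∃ w', idaKey w' = idaKey w := ⟨w, rfl⟩
    simp only [rep, dif_pos hw]
    exact hw.choose_spec
  have h1 : p.coeff.sum (fun w c => MonoidAlgebra.single (rep (idaKey w)) c) = 0 := by
    have : (p.coeff.mapDomain idaKey).sum (fun k c => MonoidAlgebra.single (rep k) c) = 0 := by
      rw [h, Finsupp.sum_zero_index]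
    rw [Finsupp.sum_mapDomain_index] at this
    · exact this
    · intro; exact MonoidAlgebra.single_zero _
    · intros; exact MonoidAlgebra.single_add _ _ _
  have h2 : p = p.coeff.sum (fun w c => c • (MonoidAlgebra.single w (1 : F) -
      MonoidAlgebra.single (rep (idaKey w)) (1 : F))) := by
    have e : ∀ (w : FreeSemigroup ℕ) (c : F), c • (MonoidAlgebra.single w (1 : F) -
      MonoidAlgebra.single (rep (idaKey w)) (1 : F)) = MonoidAlgebra.single w c -
        MonoidAlgebra.single (rep (idaKey w)) c := by
      intro w c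
      rw [smul_sub, MonoidAlgebra.smul_single', MonoidAlgebra.smul_single', mul_one]
    simp only [e]
    rw [Finsupp.sum_sub, h1, sub_zero]
    exact (MonoidAlgebra.sum_coeff_single p).symm
  rw [h2]
  exact Submodule.sum_mem _ fun w _ => Submodule.smul_mem _ _ (ida_key_eq (hrep w).symm)

/-! ### Weights separating multisets -/

theorem ida_digits {N : ℕ} (K : ℕ) : ∀ (c c' : ℕ → ℕ), (∀ k, c k < N) → (∀ k, c' k < N) →
    ∑ k ∈ Finset.range K, c k * N ^ k = ∑ k ∈ Finset.range K, c' k * N ^ k →
    ∀ k < K, c k = c' k := by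
  induction K with
  | zero => intro c c' _ _ _ k hk; omega
  | succ K ih =>
    intro c c' hc hc' h k hk
    have hN : 0 < N := lt_of_le_of_lt (Nat.zero_le _) (hc 0)
    rw [Finset.sum_range_succ', Finset.sum_range_succ'] at h
    have e : ∀ d : ℕ → ℕ, ∑ k ∈ Finset.range K, d (k + 1) * N ^ (k + 1) =
        N * ∑ k ∈ Finset.range K, d (k + 1) * N ^ k := by
      intro d
      rw [Finset.mul_sum]
      refine Finset.sum_congr rfl fun k _ => ?_
      ring
    rw [e, e, pow_zero, mul_one, mul_one] at h
    have h0 : c 0 = c' 0 := by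
      have := congrArg (· % N) h
      simpa [Nat.mul_add_mod, Nat.mod_eq_of_lt (hc 0), Nat.mod_eq_of_lt (hc' 0)] using this
    rw [h0] at h
    have h1 := Nat.eq_of_mul_eq_mul_left hN (Nat.add_right_cancel h)
    cases k with
    | zero => exact h0
    | succ k =>
      exact ih (fun k => c (k + 1)) (fun k => c' (k + 1)) (fun k => hc _) (fun k => hc' _) h1 k
        (by omega)

theorem ida_weights {N : ℕ} {m m' : Multiset ℕ} (hm : m.card < N) (hm' : m'.card < N)
    (h : (m.map (fun k => N ^ k)).sum = (m'.map (fun k => N ^ k)).sum) : m = m' := by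
  classical
  obtain ⟨K, hK, hK'⟩ : ∃ K, (∀ k ∈ m, k < K) ∧ (∀ k ∈ m', k < K) := by
    refine ⟨(m + m').sup + 1, fun k hk => ?_, fun k hk => ?_⟩
    · exact Nat.lt_succ_of_le (Multiset.le_sup (Multiset.mem_add.2 (Or.inl hk)))
    · exact Nat.lt_succ_of_le (Multiset.le_sup (Multiset.mem_add.2 (Or.inr hk)))
  have e : ∀ n : Multiset ℕ, (∀ k ∈ n, k < K) → (n.map (fun k => N ^ k)).sum =
      ∑ k ∈ Finset.range K, n.count k * N ^ k := by
    intro n hn
    rw [Finset.sum_multiset_map_count]
    simp only [smul_eq_mul]
    apply Finset.sum_subset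
    · intro k hk
      rw [Finset.mem_range]
      exact hn k (Multiset.mem_toFinset.1 hk)
    · intro k _ hk
      rw [Multiset.mem_toFinset] at hk
      rw [Multiset.count_eq_zero_of_notMem hk, zero_mul]
  rw [e m hK, e m' hK'] at h
  have := ida_digits K _ _ (fun k => (Multiset.count_le_card k m).trans_lt hm)
    (fun k => (Multiset.count_le_card k m').trans_lt hm') h
  ext k
  by_cases hk : k < K
  · exact this k hk
  · rw [Multiset.count_eq_zero_of_notMem (fun h => hk (hK k h)),
      Multiset.count_eq_zero_of_notMem (fun h => hk (hK' k h))]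

/-! ### Matrices picking out words -/

/-- A matrix with prescribed entries `01`, `11`, `12`. -/
def idaMat {S : Type u} [CommRing S] (α β γ : S) : Matrix (Fin 3) (Fin 3) S :=
  !![0, α, 0; 0, β, γ; 0, 0, 0]

theorem ida_mat_21 {S : Type u} [CommRing S] {ι : Type w} (α β γ : ι → S) (l : List ι) :
    ((l.map fun k => idaMat (α k) (β k) (γ k)).prod : Matrix (Fin 3) (Fin 3) S) 2 1 = 0 := by
  cases l with
  | nil => simp
  | cons x l => simp [Matrix.mul_apply, Fin.sum_univ_three, idaMat]

theorem ida_mat_11 {S : Type u} [CommRing S] {ι : Type w} (α β γ : ι → S) (l : List ι) :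
    ((l.map fun k => idaMat (α k) (β k) (γ k)).prod : Matrix (Fin 3) (Fin 3) S) 1 1 =
      (l.map β).prod := by
  induction l with
  | nil => simp
  | cons x l ih =>
    rw [List.map_cons, List.prod_cons, Matrix.mul_apply, Fin.sum_univ_three, ida_mat_21, ih]
    simp [idaMat]

theorem ida_mat_02 {S : Type u} [CommRing S] {ι : Type w} (α β γ : ι → S) (h k : ι)
    (l : List ι) :
    (((h :: (l ++ [k])).map fun k => idaMat (α k) (β k) (γ k)).prod :
      Matrix (Fin 3) (Fin 3) S) 0 2 = α h * (l.map β).prod * γ k := by
  have e : (((l ++ [k]).map fun k => idaMat (α k) (β k) (γ k)).prod :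
      Matrix (Fin 3) (Fin 3) S) 1 2 = (l.map β).prod * γ k := by
    rw [List.map_append, List.prod_append, Matrix.mul_apply, Fin.sum_univ_three, ida_mat_11]
    simp [idaMat]
  rw [List.map_cons, List.prod_cons, Matrix.mul_apply, Fin.sum_univ_three, e]
  simp [idaMat, mul_assoc]

theorem ida_mat_nil {S : Type u} [CommRing S] {ι : Type w} (α β γ : ι → S) :
    ((([] : List ι).map fun k => idaMat (α k) (β k) (γ k)).prod :
      Matrix (Fin 3) (Fin 3) S) 0 2 = 0 := by
  simp

theorem ida_mat_single {S : Type u} [CommRing S] {ι : Type w} (α β γ : ι → S) (h : ι) :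
    (([h].map fun k => idaMat (α k) (β k) (γ k)).prod :
      Matrix (Fin 3) (Fin 3) S) 0 2 = 0 := by
  simp [idaMat]

theorem ida_case1 {F : Type u} [Field F] (p : MonoidAlgebra F (FreeSemigroup ℕ)) (i : ℕ)
    (hi : p.coeff (⟨i, []⟩ : FreeSemigroup ℕ) ≠ 0) :
    ∃ D : List (Fin 3) →₀ F, GoodD D ∧
      ∀ (R : Type v) [Ring R] [Algebra F R] (I : Ideal R) [I.IsTwoSided],
        (∀ a : ℕ → R, (∀ i, a i ∈ I) → MonoidAlgebra.liftMagma F (FreeSemigroup.lift a) p = 0) →
          DId D (I : Set R) := by
  classical
  let P : FreeSemigroup ℕ → Prop := fun w => ∀ k ∈ idaW w, k = i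
  let f : FreeSemigroup ℕ → List (Fin 3) := fun w =>
    0 :: (List.replicate (idaW w).length 2 ++ [1])
  refine ⟨(p.coeff.filter P).mapDomain f, ⟨?_, 1, ?_⟩, ?_⟩
  · intro w hw
    have := Finsupp.mapDomain_support hw
    rw [Finset.mem_image] at this
    obtain ⟨x, _, rfl⟩ := this
    simp [f]
  · have h1 : f (⟨i, []⟩ : FreeSemigroup ℕ) = 0 :: (List.replicate 1 2 ++ [1]) := by
      simp [f, idaW]
    rw [← h1, Finsupp.mapDomain_apply' {w | P w}]
    · rw [Finsupp.filter_apply_pos]
      · exact hi
      · simp [P, idaW]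
    · intro w hw
      have := Finsupp.support_filter P p.coeff ▸ hw
      simpa using (Finset.mem_filter.1 this).2
    · intro w hw w' hw' h
      simp only [f, List.cons.injEq, true_and] at h
      have hl := congrArg List.length h
      simp only [List.length_append, List.length_replicate, List.length_singleton,
        Nat.add_right_cancel_iff] at hl
      apply idaW_injective
      rw [(List.eq_replicate_iff (a := i) (n := (idaW w).length)).2 ⟨rfl, hw⟩,
        (List.eq_replicate_iff (a := i) (n := (idaW w').length)).2 ⟨rfl, hw'⟩, hl]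
    · simp [P, idaW]
  · intro R _ _ I _ h v hv
    have h1 := h (fun k => if k = i then v 2 else 0) (fun k => by
      split_ifs
      · exact hv 2
      · exact I.zero_mem)
    rw [ida_eval] at h1
    rw [ev, Finsupp.sum_mapDomain_index (by simp) (by intros; rw [add_smul])]
    have h2 : (p.coeff.filter P).sum (fun w c => c • ((f w).map v).prod) =
        v 0 * (p.coeff.sum fun w c => c • ((idaW w).map
          (fun k => if k = i then v 2 else 0)).prod) * v 1 := by
      rw [Finsupp.mul_sum, Finsupp.sum_mul, Finsupp.sum_filter_index, Finsupp.support_filter,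
        Finset.sum_filter, Finsupp.sum]
      refine Finset.sum_congr rfl fun w _ => ?_
      split_ifs with hw
      · rw [(List.eq_replicate_iff (a := i) (n := (idaW w).length)).2 ⟨rfl, hw⟩]
        simp [f, mul_assoc]
      · have : ∃ k ∈ idaW w, k ≠ i := by
          by_contra hcon
          push Not at hcon
          exact hw hcon
        obtain ⟨k, hk, hki⟩ := this
        have h0 : ((idaW w).map (fun k => if k = i then v 2 else 0)).prod = 0 :=
          List.prod_eq_zero (List.mem_map.2 ⟨k, hk, if_neg hki⟩)
        rw [h0]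
        simp
    rw [h2, h1]
    simp

/-- The substitution used in the second case. -/
noncomputable def idaG (F : Type u) [Field F] (i j N : ℕ) (k : ℕ) :
    MonoidAlgebra F (FreeMonoid (Fin 3)) :=
  (if k = i then MonoidAlgebra.single (FreeMonoid.of 0) 1 else 0) +
    (if k = j then MonoidAlgebra.single (FreeMonoid.of 1) 1 else 0) +
    MonoidAlgebra.single (FreeMonoid.of 2 ^ (N ^ k)) 1

/-- The result of the substitution used in the second case. -/
noncomputable def idaQ {F : Type u} [Field F] (i j N : ℕ)
    (p : MonoidAlgebra F (FreeSemigroup ℕ)) : List (Fin 3) →₀ F :=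
  (MonoidAlgebra.liftMagma F (FreeSemigroup.lift (idaG F i j N)) p).coeff.mapDomain
    FreeMonoid.toList

theorem ida_ev_lift {F : Type u} [Field F] {R : Type v} [Ring R] [Algebra F R]
    (q : MonoidAlgebra F (FreeMonoid (Fin 3))) (v : Fin 3 → R) :
    ev (q.coeff.mapDomain FreeMonoid.toList) v =
      MonoidAlgebra.lift F R (FreeMonoid (Fin 3)) (FreeMonoid.lift v) q := by
  rw [MonoidAlgebra.lift_apply, ev, Finsupp.sum_mapDomain_index (by simp)
    (by intros; rw [add_smul])]
  simp only [FreeMonoid.lift_apply]

theorem ida_ev_Q {F : Type u} [Field F] {R : Type v} [Ring R] [Algebra F R]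
    (i j N : ℕ) (p : MonoidAlgebra F (FreeSemigroup ℕ)) (v : Fin 3 → R) :
    ev (idaQ i j N p) v = MonoidAlgebra.liftMagma F (FreeSemigroup.lift (fun k =>
      (if k = i then v 0 else 0) + (if k = j then v 1 else 0) + v 2 ^ (N ^ k))) p := by
  rw [idaQ, ida_ev_lift, ida_eval, ida_eval, Finsupp.sum, Finsupp.sum, map_sum]
  refine Finset.sum_congr rfl fun w _ => ?_
  rw [map_smul, map_list_prod, List.map_map]
  congr 3
  funext k
  simp only [Function.comp, idaG, map_add, MonoidAlgebra.lift_single, map_pow,
    FreeMonoid.lift_eval_of, one_smul]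
  congr 2 <;> split_ifs <;> simp

theorem ida_incl_excl {F : Type u} [Field F] {R : Type v} [Ring R] [Algebra F R]
    (q : List (Fin 3) →₀ F) (v : Fin 3 → R) :
    ev (q.filter fun w => (0 : Fin 3) ∈ w ∧ (1 : Fin 3) ∈ w) v =
      ev q v - ev q ![0, v 1, v 2] - ev q ![v 0, 0, v 2] + ev q ![0, 0, v 2] := by
  classical
  simp only [ev]
  rw [← Finsupp.sum_sub, ← Finsupp.sum_sub, ← Finsupp.sum_add, Finsupp.sum_filter_index,
    Finsupp.support_filter, Finset.sum_filter, Finsupp.sum]
  refine Finset.sum_congr rfl fun w _ => ?_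
  have z : ∀ (u : Fin 3 → R) (k : Fin 3), u k = 0 → k ∈ w → (w.map u).prod = 0 :=
    fun u k hk hw => List.prod_eq_zero (List.mem_map.2 ⟨k, hw, hk⟩)
  have c : ∀ (u u' : Fin 3 → R), (∀ k ∈ w, u k = u' k) → (w.map u).prod = (w.map u').prod :=
    fun u u' h => by rw [List.map_congr_left h]
  by_cases h0 : (0 : Fin 3) ∈ w
  · by_cases h1 : (1 : Fin 3) ∈ w
    · rw [if_pos ⟨h0, h1⟩, z ![0, v 1, v 2] 0 rfl h0, z ![v 0, 0, v 2] 1 rfl h1,
        z ![0, 0, v 2] 0 rfl h0]
      simp
    · rw [if_neg (fun h => h1 h.2), z ![0, v 1, v 2] 0 rfl h0, z ![0, 0, v 2] 0 rfl h0,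
        c ![v 0, 0, v 2] v]
      · simp
      · intro k hk
        fin_cases k
        · rfl
        · exact absurd hk h1
        · rfl
  · rw [if_neg (fun h => h0 h.1), c ![0, v 1, v 2] v, c ![v 0, 0, v 2] ![0, 0, v 2]]
    · simp
    · intro k hk
      fin_cases k
      · exact absurd hk h0
      · rfl
      · rfl
    · intro k hk
      fin_cases k
      · exact absurd hk h0
      · rfl
      · rfl

theorem ida_case2 {F : Type u} [Field F] (p : MonoidAlgebra F (FreeSemigroup ℕ)) (i j : ℕ)
    (m : Multiset ℕ) (h : p.coeff.mapDomain idaKey (i, m, some j) ≠ 0) :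
    ∃ D : List (Fin 3) →₀ F, GoodD D ∧
      ∀ (R : Type v) [Ring R] [Algebra F R] (I : Ideal R) [I.IsTwoSided],
        (∀ a : ℕ → R, (∀ i, a i ∈ I) → MonoidAlgebra.liftMagma F (FreeSemigroup.lift a) p = 0) →
          DId D (I : Set R) := by
  classical
  have hq : ∀ l, p.coeff.mapDomain idaKey l =
      ∑ w ∈ p.coeff.support, if idaKey w = l then p.coeff w else 0 := by
    intro l
    rw [Finsupp.mapDomain, Finsupp.sum_apply, Finsupp.sum]
    refine Finset.sum_congr rfl fun w _ => ?_
    rw [Finsupp.single_apply]
  obtain ⟨N, hN0, hN⟩ : ∃ N : ℕ, 0 < N ∧ ∀ w ∈ p.coeff.support, w.tail.length < N := by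
    refine ⟨(p.coeff.support.sup fun w => w.tail.length) + 1, Nat.succ_pos _, fun w hw => ?_⟩
    exact Nat.lt_succ_of_le (Finset.le_sup (f := fun w : FreeSemigroup ℕ => w.tail.length) hw)
  have hN' : ∀ w ∈ p.coeff.support, (w.tail.dropLast : Multiset ℕ).card < N := by
    intro w hw
    rw [Multiset.coe_card, List.length_dropLast]
    exact lt_of_le_of_lt (Nat.sub_le _ _) (hN w hw)
  have hm : m.card < N := by
    rw [hq] at h
    obtain ⟨w, hw, hw'⟩ := Finset.exists_ne_zero_of_sum_ne_zero h
    have : idaKey w = (i, m, some j) := by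
      by_contra hne
      exact hw' (if_neg hne)
    simp only [idaKey, Prod.mk.injEq] at this
    rw [← this.2.1]
    exact hN' w hw
  refine ⟨(idaQ i j N p).filter fun w => (0 : Fin 3) ∈ w ∧ (1 : Fin 3) ∈ w, ⟨?_, ?_⟩, ?_⟩
  · intro w hw
    rw [Finsupp.support_filter] at hw
    exact (Finset.mem_filter.1 hw).2
  · by_contra hcon
    push Not at hcon
    have hcon' : ∀ n : ℕ, idaQ i j N p (0 :: (List.replicate n 2 ++ [1])) = 0 := by
      intro n
      have := hcon n
      rwa [Finsupp.filter_apply_pos] at this
      simp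
    -- evaluate on matrices
    let α : Fin 3 → F[X] := ![1, 0, 0]
    let β : Fin 3 → F[X] := ![0, 0, X]
    let γ : Fin 3 → F[X] := ![0, 1, 0]
    let V : Fin 3 → Matrix (Fin 3) (Fin 3) F[X] := fun k => idaMat (α k) (β k) (γ k)
    have e1 : (ev (idaQ i j N p) V) 0 2 = 0 := by
      rw [ev, Finsupp.sum, Matrix.sum_apply]
      refine Finset.sum_eq_zero fun w _ => ?_
      rw [Matrix.smul_apply]
      by_cases hw : ∃ n : ℕ, w = 0 :: (List.replicate n 2 ++ [1])
      · obtain ⟨n, rfl⟩ := hw
        rw [hcon' n, zero_smul]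
      · suffices hs : (w.map V).prod 0 2 = 0 by rw [hs, smul_zero]
        cases w with
        | nil => exact ida_mat_nil α β γ
        | cons a t =>
          rcases List.eq_nil_or_concat t with rfl | ⟨t', k, rfl⟩
          · exact ida_mat_single α β γ a
          · rw [List.concat_eq_append] at hw ⊢
            rw [ida_mat_02 α β γ a k t']
            by_cases ha : a = 0
            · by_cases hk : k = 1
              · subst ha hk
                have : ∃ z ∈ t', z ≠ 2 := by
                  by_contra hz
                  push Not at hz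
                  exact hw ⟨t'.length, by rw [← List.eq_replicate_of_mem hz]⟩
                obtain ⟨z, hz, hz2⟩ := this
                have hz0 : (t'.map β).prod = 0 := by
                  apply List.prod_eq_zero
                  refine List.mem_map.2 ⟨z, hz, ?_⟩
                  fin_cases z
                  · rfl
                  · rfl
                  · exact absurd rfl hz2
                rw [hz0, mul_zero, zero_mul]
              · have : γ k = 0 := by
                  fin_cases k
                  · rfl
                  · exact absurd rfl hk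
                  · rfl
                rw [this, mul_zero]
            · have : α a = 0 := by
                fin_cases a
                · exact absurd rfl ha
                · rfl
                · rfl
              rw [this, zero_mul, zero_mul]
    rw [ida_ev_Q, ida_eval] at e1
    let α' : ℕ → F[X] := fun k => if k = i then 1 else 0
    let β' : ℕ → F[X] := fun k => X ^ (N ^ k)
    let γ' : ℕ → F[X] := fun k => if k = j then 1 else 0
    have e2 : ∀ k : ℕ, (if k = i then V 0 else 0) + (if k = j then V 1 else 0) +
        V 2 ^ (N ^ k) = idaMat (α' k) (β' k) (γ' k) := by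
      intro k
      have hpow : ∀ n : ℕ, (V 2) ^ (n + 1) = idaMat 0 (X ^ (n + 1)) 0 := by
        intro n
        induction n with
        | zero => simp [V, α, β, γ]
        | succ n ih =>
          rw [pow_succ, ih]
          ext a b : 1
          fin_cases a <;> fin_cases b <;>
            simp [V, α, β, γ, idaMat, Matrix.mul_apply, Fin.sum_univ_three, pow_succ]
      obtain ⟨n, hn⟩ : ∃ n, N ^ k = n + 1 := ⟨N ^ k - 1, by
        have := pow_pos hN0 k
        omega⟩
      simp only [β', hn, hpow]
      have hV0 : V 0 = idaMat 1 0 0 := rfl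
      have hV1 : V 1 = idaMat 0 0 1 := rfl
      rw [hV0, hV1]
      simp only [α', γ']
      ext a b : 1
      split_ifs <;> fin_cases a <;> fin_cases b <;> simp [idaMat]
    simp only [e2] at e1
    have e3 : ∀ w : FreeSemigroup ℕ, ((idaW w).map fun k =>
        idaMat (α' k) (β' k) (γ' k)).prod 0 2 =
        if w.head = i ∧ w.tail.getLast? = some j then
          (X : F[X]) ^ ((w.tail.dropLast : Multiset ℕ).map (fun k => N ^ k)).sum else 0 := by
      rintro ⟨a, t⟩
      rcases List.eq_nil_or_concat t with rfl | ⟨t', k, rfl⟩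
      · rw [if_neg (by simp)]
        exact ida_mat_single α' β' γ' a
      · simp only [idaW, List.concat_eq_append]
        rw [ida_mat_02 α' β' γ' a k t']
        simp only [List.getLast?_append, List.getLast?_singleton,
          Option.some_or, Option.some.injEq, List.dropLast_concat]
        have hb : (t'.map β').prod = X ^ ((t' : Multiset ℕ).map (fun k => N ^ k)).sum := by
          rw [Multiset.map_coe, Multiset.sum_coe]
          induction t' with
          | nil => simp
          | cons x t' ih => rw [List.map_cons, List.prod_cons, ih, List.map_cons, List.sum_cons,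
              pow_add]
        rw [hb]
        simp only [α', γ']
        by_cases ha : a = i
        · by_cases hk : k = j
          · simp [ha, hk]
          · simp [ha, hk]
        · simp [ha]
    rw [Finsupp.sum, Matrix.sum_apply] at e1
    simp only [Matrix.smul_apply, e3] at e1
    have e4 := congrArg (fun q : F[X] => q.coeff (m.map (fun k => N ^ k)).sum) e1
    simp only [Polynomial.finsetSum_coeff, Polynomial.coeff_smul, Polynomial.coeff_zero] at e4
    apply h
    refine (hq _).trans (Eq.trans ?_ e4)
    refine Finset.sum_congr rfl fun w hw => ?_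
    by_cases h1 : w.head = i ∧ w.tail.getLast? = some j
    · rw [if_pos h1, Polynomial.coeff_X_pow]
      by_cases h2 : (w.tail.dropLast : Multiset ℕ) = m
      · rw [if_pos, if_pos]
        · simp
        · rw [h2]
        · simp only [idaKey, Prod.mk.injEq]
          exact ⟨h1.1, h2, h1.2⟩
      · rw [if_neg, if_neg]
        · simp
        · intro h3
          exact h2 (ida_weights (hN' w hw) hm h3.symm)
        · intro h3
          simp only [idaKey, Prod.mk.injEq] at h3
          exact h2 h3.2.1
    · rw [if_neg h1, if_neg]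
      · simp
      · intro h3
        simp only [idaKey, Prod.mk.injEq] at h3
        exact h1 ⟨h3.1, h3.2.2⟩
  · intro R _ _ I _ hI v hv
    have key : ∀ v : Fin 3 → R, (∀ k, v k ∈ I) → ev (idaQ i j N p) v = 0 := by
      intro v hv
      rw [ida_ev_Q]
      apply hI
      intro k
      refine I.add_mem (I.add_mem ?_ ?_) ?_
      · split_ifs
        · exact hv 0
        · exact I.zero_mem
      · split_ifs
        · exact hv 1
        · exact I.zero_mem
      · exact I.pow_mem_of_mem (hv 2) _ (pow_pos hN0 k)
    have hv' := fun k => (hv k : v k ∈ I)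
    rw [ida_incl_excl, key v hv', key, key, key]
    · simp
    · intro k
      fin_cases k
      · exact I.zero_mem
      · exact I.zero_mem
      · exact hv 2
    · intro k
      fin_cases k
      · exact hv 0
      · exact I.zero_mem
      · exact hv 2
    · intro k
      fin_cases k
      · exact I.zero_mem
      · exact hv 1
      · exact hv 2

theorem exists_goodD {F : Type u} [Field F] (p : MonoidAlgebra F (FreeSemigroup ℕ))
    (hp : p ∉ T0 F) :
    ∃ D : List (Fin 3) →₀ F, GoodD D ∧
      ∀ (R : Type v) [Ring R] [Algebra F R] (I : Ideal R) [I.IsTwoSided],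
        (∀ a : ℕ → R, (∀ i, a i ∈ I) → MonoidAlgebra.liftMagma F (FreeSemigroup.lift a) p = 0) →
          DId D (I : Set R) := by
  classical
  have h0 : p.coeff.mapDomain idaKey ≠ 0 := fun h => hp (ida_mem_T0 p h)
  obtain ⟨⟨i, m, o⟩, hk⟩ := Finsupp.ne_iff.1 h0
  rw [Finsupp.zero_apply] at hk
  cases o with
  | some j => exact ida_case2 p i j m hk
  | none =>
    apply ida_case1 p i
    intro hi
    apply hk
    rw [Finsupp.mapDomain, Finsupp.sum_apply, Finsupp.sum]
    refine Finset.sum_eq_zero fun w _ => ?_
    rw [Finsupp.single_apply]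
    split_ifs with hw
    · simp only [idaKey, Prod.mk.injEq, List.getLast?_eq_none_iff] at hw
      obtain ⟨a, t⟩ := w
      obtain ⟨h1, -, h3⟩ := hw
      simp only at h1 h3
      subst h1 h3
      exact hi
    · rfl

end Pool.Agent.Lib.MP_5aea19_al
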