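import Mathlib
import Pool.Agent.Lib.MP_5aea19_al.Defs

set_option autoImplicit false
open Equiv Polynomial
universe u v w

/-!
Integrality lemma (task D): if `G(c(x), c(y), c(z))` is killed by `y - z` for all polynomials `c` without
constant term, where `G` has a non-zero coefficient at some pure power of the second variable, then
`y` is integral over `F[x, z]` (`F` a finite field).
-/

namespace Pool.Agent.Lib.MP_5aea19_al

/-- field case -/
theorem intAux_field {F : Type u} [Field F] [Finite F] (G : (ℕ × ℕ × ℕ) →₀ F)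
    (hG : ∃ j, G (0, j, 0) ≠ 0) {K : Type v} [Field K] [Algebra F K] (x y z : K)
    (h : ∀ c : F[X], c.coeff 0 = 0 →
      (G.sum fun m r => r • (aeval x c ^ m.1 * aeval y c ^ m.2.1 * aeval z c ^ m.2.2)) = 0) :
    y ∈ Algebra.adjoin F {x, z, y⁻¹} := by
  classical
  set S := Algebra.adjoin F {x, z, y⁻¹} with hS
  by_contra hyS
  have hy0 : y ≠ 0 := by
    rintro rfl
    exact hyS (Subalgebra.zero_mem _)
  have hxS : x ∈ S := Algebra.subset_adjoin (by simp)
  have hzS : z ∈ S := Algebra.subset_adjoin (by simp)
  have htS : y⁻¹ ∈ S := Algebra.subset_adjoin (by simp)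
  let X' : S := ⟨x, hxS⟩
  let Z' : S := ⟨z, hzS⟩
  let t : S := ⟨y⁻¹, htS⟩
  have ht_nu : ¬ IsUnit t := by
    intro hu
    obtain ⟨s, hs⟩ := hu.exists_right_inv
    have : y⁻¹ * (s : K) = 1 := by
      have := congrArg (Subtype.val) hs
      simpa [t] using this
    have hs' : (s : K) = y := by
      field_simp at this
      exact this
    exact hyS (hs' ▸ s.2)
  obtain ⟨n, hn, htn⟩ := exists_max_ideal_of_mem_nonunits (mem_nonunits_iff.mpr ht_nu)
  have hft : Algebra.FiniteType F S := by
    rw [hS]
    refine (Subalgebra.fg_iff_finiteType _).mp ?_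
    exact Subalgebra.fg_def.mpr ⟨{x, z, y⁻¹}, by simp, rfl⟩
  have hnoeth : IsNoetherianRing S := Algebra.FiniteType.isNoetherianRing F S
  -- finiteness of the residue field
  let k := S ⧸ n
  let : Field k := Ideal.Quotient.field n
  have hftk : Algebra.FiniteType F k := Algebra.FiniteType.trans hft inferInstance
  have hfink : Module.Finite F k := finite_of_finite_type_of_isJacobsonRing F k
  have hfin : Finite k := Module.finite_of_finite F
  have : Fintype k := Fintype.ofFinite k
  set Q := Fintype.card k with hQ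
  have hfrob : ∀ s : S, s ^ Q - s ∈ n := by
    intro s
    rw [← Ideal.Quotient.eq_zero_iff_mem, map_sub, map_pow, sub_eq_zero]
    exact FiniteField.pow_card _
  have hQ1 : 1 < Q := Fintype.one_lt_card
  -- the coefficients
  let g : ℕ → F[X] → S := fun j c =>
    G.sum fun m r => if m.2.1 = j then r • (aeval X' c ^ m.1 * aeval Z' c ^ m.2.2) else 0
  let J := G.support.sup (fun m => m.2.1)
  have hgJ : ∀ j, J < j → ∀ c, g j c = 0 := by
    intro j hj c
    apply Finset.sum_eq_zero
    intro m hm
    dsimp only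
    rw [if_neg]
    rintro rfl
    have : m.2.1 ≤ J := Finset.le_sup (f := fun m : ℕ × ℕ × ℕ => m.2.1) hm
    omega
  have hrel : ∀ c : F[X], c.coeff 0 = 0 →
      ∑ j ∈ Finset.range (J + 1), (g j c : K) * aeval y c ^ j = 0 := by
    intro c hc
    rw [← h c hc]
    simp only [g, Finsupp.sum]
    push_cast
    simp only [Finset.sum_mul]
    rw [Finset.sum_comm]
    refine Finset.sum_congr rfl fun m hm => ?_
    rw [Finset.sum_eq_single m.2.1]
    · simp only [if_true]
      push_cast
      simp only [X', Z', Algebra.smul_mul_assoc]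
      congr 1
      ring
    · intro j _ hj
      rw [if_neg (Ne.symm hj)]
      simp
    · intro hm'
      exfalso
      apply hm'
      have : m.2.1 ≤ J := Finset.le_sup (f := fun m : ℕ × ℕ × ℕ => m.2.1) hm
      simp; omega
  -- existence of the maximal index
  have hex : ∃ j, ∃ c : F[X], c.coeff 0 = 0 ∧ g j c ≠ 0 := by
    obtain ⟨j, hj⟩ := hG
    refine ⟨j, 0, by simp, ?_⟩
    have : g j 0 = algebraMap F S (G (0, j, 0)) := by
      simp only [g, Finsupp.sum]
      rw [Finset.sum_eq_single (0, j, 0)]
      · simp [Algebra.smul_def]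
      · intro m _ hm
        by_cases hmj : m.2.1 = j
        · rw [if_pos hmj]
          rcases m with ⟨a, b, c⟩
          simp only at hmj
          subst hmj
          have : a ≠ 0 ∨ c ≠ 0 := by
            by_contra hcon
            push Not at hcon
            exact hm (by rw [hcon.1, hcon.2])
          rcases this with ha | hc
          · simp [map_zero, zero_pow ha]
          · simp [map_zero, zero_pow hc]
        · rw [if_neg hmj]
      · intro hm
        rw [Finsupp.notMem_support_iff] at hm
        exact absurd hm hj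
    rw [this]
    intro h0
    apply hj
    exact (map_eq_zero_iff _ (FaithfulSMul.algebraMap_injective F S)).mp h0
  have hbdd : ∃ js, (∃ c : F[X], c.coeff 0 = 0 ∧ g js c ≠ 0) ∧
      ∀ j, js < j → ∀ c : F[X], c.coeff 0 = 0 → g j c = 0 := by
    obtain ⟨j0, hj0⟩ := hex
    let T := (Finset.range (J + 1)).filter (fun j => ∃ c : F[X], c.coeff 0 = 0 ∧ g j c ≠ 0)
    have hj0T : j0 ∈ T := by
      rw [Finset.mem_filter]
      refine ⟨?_, hj0⟩
      obtain ⟨c, hc, hc2⟩ := hj0
      by_contra hcon
      apply hc2
      apply hgJ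
      simpa using hcon
    refine ⟨T.max' ⟨j0, hj0T⟩, (Finset.mem_filter.mp (T.max'_mem ⟨j0, hj0T⟩)).2, ?_⟩
    intro j hj c hc
    by_contra hcon
    have hjT : j ∈ T := by
      rw [Finset.mem_filter]
      refine ⟨?_, c, hc, hcon⟩
      by_contra hcon2
      apply hcon
      apply hgJ
      simpa using hcon2
    have := T.le_max' j hjT
    omega
  obtain ⟨js, ⟨c0, hc0, hc0g⟩, hmax⟩ := hbdd
  have hjsJ : js ≤ J := by
    by_contra hcon
    exact hc0g (hgJ js (by omega) c0)
  -- key: g js c in n ^ e
  have hkey : ∀ c : F[X], c.coeff 0 = 0 → c ≠ 0 → g js c ∈ n ^ c.natDegree := by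
    intro c hc hcne
    set e := c.natDegree with he
    -- chat
    let chat : S := aeval t (reflect e c)
    have hchat : (chat : K) = aeval y c * (y⁻¹) ^ e := by
      have hinv : Invertible (y⁻¹) := invertibleOfNonzero (inv_ne_zero hy0)
      have h1 := Polynomial.eval₂_reflect_mul_pow (algebraMap F K) (y⁻¹) e (reflect e c)
        (by
          refine (Polynomial.natDegree_le_iff_coeff_eq_zero).mpr ?_
          intro N hN
          rw [coeff_reflect, revAt_eq_self_of_lt hN]
          exact coeff_eq_zero_of_natDegree_lt hN)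
      rw [reflect_reflect] at h1
      have h2 : (⅟(y⁻¹) : K) = y := by
        rw [invOf_eq_inv, inv_inv]
      rw [h2] at h1
      have h3 : (chat : K) = aeval (y⁻¹) (reflect e c) := by
        simp [t, chat]
      rw [h3, aeval_def, aeval_def, ← h1]
    have hchat_n : chat ∉ n := by
      intro hmem
      have h1 : chat - algebraMap F S c.leadingCoeff ∈ n := by
        have h2 : (reflect e c).coeff 0 = c.leadingCoeff := by
          rw [coeff_reflect, revAt_le (Nat.zero_le _), Nat.sub_zero]
          rfl
        have h3 : chat - algebraMap F S c.leadingCoeff = aeval t (reflect e c - C ((reflect e c).coeff 0)) := by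
          rw [h2, map_sub, aeval_C]
        rw [h3]
        have h4 : (X : F[X]) ∣ (reflect e c - C ((reflect e c).coeff 0)) := by
          rw [X_dvd_iff]
          simp
        obtain ⟨r, hr⟩ := h4
        rw [hr, map_mul, aeval_X]
        exact Ideal.mul_mem_right _ _ htn
      have h2 : algebraMap F S c.leadingCoeff ∈ n := by
        have := n.sub_mem hmem h1
        simpa using this
      have h3 : IsUnit (algebraMap F S c.leadingCoeff) :=
        (isUnit_iff_ne_zero.mpr (leadingCoeff_ne_zero.mpr hcne)).map _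
      exact hn.ne_top (Ideal.eq_top_of_isUnit_mem _ h2 h3)
    have hsum : ∑ j ∈ Finset.range (js + 1), g j c * chat ^ j * t ^ (e * (js - j)) = 0 := by
      apply Subtype.ext
      push_cast
      have h1 := hrel c hc
      have h2 : ∑ j ∈ Finset.range (J + 1), (g j c : K) * aeval y c ^ j =
          ∑ j ∈ Finset.range (js + 1), (g j c : K) * aeval y c ^ j := by
        symm
        apply Finset.sum_subset
        · intro j hj
          simp at hj ⊢
          omega
        · intro j _ hj
          have : js < j := by simpa using hj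
          rw [hmax j this c hc]
          simp
      rw [h2] at h1
      have h3 : ∑ j ∈ Finset.range (js + 1), (g j c : K) * (chat : K) ^ j * (t : K) ^ (e * (js - j)) =
          (y⁻¹) ^ (e * js) * ∑ j ∈ Finset.range (js + 1), (g j c : K) * aeval y c ^ j := by
        rw [Finset.mul_sum]
        refine Finset.sum_congr rfl fun j hj => ?_
        have hj' : j ≤ js := by simp at hj; omega
        have h4 : (t : K) = y⁻¹ := rfl
        rw [h4, hchat, mul_pow, ← pow_mul]
        have h5 : e * js = e * j + e * (js - j) := by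
          rw [← mul_add]; congr 1; omega
        rw [h5, pow_add]
        ring
      rw [h3, h1, mul_zero]
    rw [Finset.sum_range_succ] at hsum
    have hlast : g js c * chat ^ js ∈ n ^ e := by
      have h1 : g js c * chat ^ js =
          - ∑ j ∈ Finset.range js, g j c * chat ^ j * t ^ (e * (js - j)) := by
        have : g js c * chat ^ js * t ^ (e * (js - js)) = g js c * chat ^ js := by simp
        rw [this] at hsum
        linear_combination hsum
      rw [h1]
      apply Ideal.neg_mem_iff _ |>.mpr
      apply Ideal.sum_mem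
      intro j hj
      apply Ideal.mul_mem_left
      have hj' : j < js := by simpa using hj
      have h2 : t ^ (e * (js - j)) = t ^ e * t ^ (e * (js - j) - e) := by
        rw [← pow_add]
        congr 1
        have : e ≤ e * (js - j) := Nat.le_mul_of_pos_right _ (by omega)
        omega
      rw [h2]
      exact Ideal.mul_mem_right _ _ (Ideal.pow_mem_pow htn _)
    by_cases he0 : e = 0
    · rw [he0, pow_zero, Ideal.one_eq_top]
      exact Submodule.mem_top
    -- n^e is primary
    have hrad : (n ^ e).radical = n := by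
      rw [Ideal.radical_pow _ he0, hn.isPrime.radical]
    have hprim : (n ^ e).IsPrimary := Ideal.isPrimary_of_isMaximal_radical (by
      rw [hrad]
      exact hn)
    rcases (Ideal.isPrimary_iff.mp hprim).2 hlast with h5 | h5
    · exact h5
    · exfalso
      rw [hrad] at h5
      exact hchat_n (hn.isPrime.mem_of_pow_mem _ h5)
  -- Krull intersection
  have hmem : ∀ M, g js c0 ∈ n ^ M := by
    intro M0
    -- take M large
    set M := max M0 (c0.natDegree + 1) with hM
    have hM0 : M0 ≤ M := le_max_left _ _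
    have hM1 : c0.natDegree + 1 ≤ M := le_max_right _ _
    have hXQ : (X ^ Q - X : F[X]).Monic := by
      apply (monic_X_pow Q).sub_of_left
      rw [degree_X_pow, degree_X]
      exact_mod_cast hQ1
    set b : F[X] := X * (X ^ Q - X) ^ M with hb
    have hbmonic : b.Monic := by
      apply Monic.mul monic_X
      apply Monic.pow
      exact hXQ
    have hbdeg : b.natDegree = 1 + M * Q := by
      rw [hb, Monic.natDegree_mul monic_X (hXQ.pow M),
        natDegree_X, Monic.natDegree_pow hXQ,
        FiniteField.X_pow_card_sub_X_natDegree_eq _ hQ1]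
    have hlt : c0.natDegree < b.natDegree := by
      rw [hbdeg]
      nlinarith
    set c : F[X] := c0 + b with hc
    have hcdeg : c.natDegree = b.natDegree := by
      rw [hc, natDegree_add_eq_right_of_natDegree_lt hlt]
    have hcc : c.coeff 0 = 0 := by
      rw [hc, coeff_add, hc0, hb]
      simp
    have hcne : c ≠ 0 := by
      intro h0
      rw [h0, natDegree_zero] at hcdeg
      omega
    have h1 : g js c ∈ n ^ M := by
      apply Ideal.pow_le_pow_right _ (hkey c hcc hcne)
      rw [hcdeg, hbdeg]
      nlinarith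
    have hbM : ∀ s : S, aeval s b ∈ n ^ M := by
      intro s
      rw [hb, map_mul, map_pow, map_sub, map_pow, aeval_X]
      exact Ideal.mul_mem_left _ _ (Ideal.pow_mem_pow (hfrob s) M)
    have hcong : ∀ s : S, Ideal.Quotient.mk (n ^ M) (aeval s c) =
        Ideal.Quotient.mk (n ^ M) (aeval s c0) := by
      intro s
      rw [Ideal.Quotient.eq, hc, map_add, add_sub_cancel_left]
      exact hbM s
    have h2 : Ideal.Quotient.mk (n ^ M) (g js c) = Ideal.Quotient.mk (n ^ M) (g js c0) := by
      simp only [g, Finsupp.sum, map_sum]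
      refine Finset.sum_congr rfl fun m _ => ?_
      by_cases hmj : m.2.1 = js
      · simp only [if_pos hmj, Algebra.smul_def, map_mul, map_pow, hcong]
      · simp only [if_neg hmj]
    have h3 : g js c0 ∈ n ^ M := by
      rw [← Ideal.Quotient.eq_zero_iff_mem, ← h2, Ideal.Quotient.eq_zero_iff_mem]
      exact h1
    exact Ideal.pow_le_pow_right hM0 h3
  have hbot : (⨅ i, n ^ i) = ⊥ := Ideal.iInf_pow_eq_bot_of_isDomain n hn.ne_top
  have : g js c0 ∈ (⨅ i, n ^ i) := by
    rw [Ideal.mem_iInf]
    exact hmem
  rw [hbot, Ideal.mem_bot] at this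
  exact hc0g this

/-- an element of `F[x, z, 1/y]` equal to `y` is integral over `F[x, z]` -/
theorem intAux_integral {F : Type u} [Field F] {K : Type v} [Field K] [Algebra F K] (x y z : K)
    (h : y ∈ Algebra.adjoin F {x, z, y⁻¹}) : IsIntegral (Algebra.adjoin F {x, z}) y := by
  classical
  by_cases hy0 : y = 0
  · rw [hy0]; exact isIntegral_zero
  have h1 : y ∈ Algebra.adjoin (Algebra.adjoin F {x, z}) {y⁻¹} := by
    have hx : x ∈ Algebra.adjoin (Algebra.adjoin F {x, z}) {y⁻¹} :=
      Subalgebra.algebraMap_mem (Algebra.adjoin (Algebra.adjoin F {x, z}) {y⁻¹})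
        (⟨x, Algebra.subset_adjoin (by simp)⟩ : Algebra.adjoin F {x, z})
    have hz : z ∈ Algebra.adjoin (Algebra.adjoin F {x, z}) {y⁻¹} :=
      Subalgebra.algebraMap_mem (Algebra.adjoin (Algebra.adjoin F {x, z}) {y⁻¹})
        (⟨z, Algebra.subset_adjoin (by simp)⟩ : Algebra.adjoin F {x, z})
    have hy : y⁻¹ ∈ Algebra.adjoin (Algebra.adjoin F {x, z}) {y⁻¹} :=
      Algebra.subset_adjoin (by simp)
    have h2 : Algebra.adjoin F {x, z, y⁻¹} ≤
        (Algebra.adjoin (Algebra.adjoin F {x, z}) {y⁻¹}).restrictScalars F := by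
      apply Algebra.adjoin_le
      intro a ha
      simp only [Set.mem_insert_iff, Set.mem_singleton_iff] at ha
      rw [SetLike.mem_coe, Subalgebra.mem_restrictScalars]
      rcases ha with h | h | h
      · rw [h]; exact hx
      · rw [h]; exact hz
      · rw [h]; exact hy
    exact h2 h
  rw [Algebra.adjoin_singleton_eq_range_aeval] at h1
  obtain ⟨q, hq⟩ := h1
  replace hq : aeval y⁻¹ q = y := hq
  set N := q.natDegree with hN
  have hinv : Invertible (y⁻¹) := invertibleOfNonzero (inv_ne_zero hy0)
  have h3 := Polynomial.eval₂_reflect_mul_pow (algebraMap (Algebra.adjoin F {x, z}) K) (y⁻¹) N q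
    le_rfl
  have h2 : (⅟(y⁻¹) : K) = y := by
    rw [invOf_eq_inv, inv_inv]
  rw [h2, ← aeval_def, ← aeval_def, hq] at h3
  have hdegN : (reflect N q).degree < ((N + 1 : ℕ) : WithBot ℕ) := by
    rw [degree_lt_iff_coeff_zero]
    intro k hk
    have hk' : N < k := hk
    rw [coeff_reflect, revAt_eq_self_of_lt hk']
    exact coeff_eq_zero_of_natDegree_lt hk'
  refine ⟨X ^ (N + 1) - reflect N q, monic_X_pow_sub hdegN, ?_⟩
  rw [← aeval_def, map_sub, map_pow, aeval_X]
  have h4 : aeval y (reflect N q) = y * y ^ N := by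
    have : aeval y (reflect N q) * (y⁻¹) ^ N * y ^ N = y * y ^ N := by rw [h3]
    rw [← this, mul_assoc, ← mul_pow, inv_mul_cancel₀ hy0, one_pow, mul_one]
  rw [h4]
  ring

theorem isIntegral_of_relations {F : Type u} [Field F] [Finite F] (G : (ℕ × ℕ × ℕ) →₀ F)
    (hG : ∃ j, G (0, j, 0) ≠ 0) {B : Type v} [CommRing B] [Algebra F B] (x y z : B)
    (h : ∀ c : F[X], c.coeff 0 = 0 →
      (y - z) * (G.sum fun m r => r • (aeval x c ^ m.1 * aeval y c ^ m.2.1 * aeval z c ^ m.2.2)) = 0) :
    IsIntegral (Algebra.adjoin F {x, z}) y := by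
  classical
  by_contra hint
  set A := Algebra.adjoin F {x, z} with hA
  let M : Submonoid B :=
    { carrier := {b | ∃ p : A[X], p.Monic ∧ aeval y p = b}
      one_mem' := ⟨1, monic_one, by simp⟩
      mul_mem' := by
        rintro a b ⟨p, hp, rfl⟩ ⟨q, hq, rfl⟩
        exact ⟨p * q, hp.mul hq, by simp⟩ }
  have hdisj : Disjoint ((⊥ : Ideal B) : Set B) (M : Set B) := by
    rw [Set.disjoint_left]
    rintro b hb ⟨p, hp, hpb⟩
    have hb0 : b = 0 := hb
    rw [hb0] at hpb
    exact hint ⟨p, hp, hpb⟩
  obtain ⟨P, hP, -, hPM⟩ := Ideal.exists_le_prime_disjoint (⊥ : Ideal B) M hdisj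
  rw [Set.disjoint_left] at hPM
  let K := FractionRing (B ⧸ P)
  let π : B →ₐ[F] K := (IsScalarTower.toAlgHom F (B ⧸ P) K).comp (Ideal.Quotient.mkₐ F P)
  have hπ : ∀ b, π b = 0 ↔ b ∈ P := by
    intro b
    change algebraMap (B ⧸ P) K (Ideal.Quotient.mk P b) = 0 ↔ _
    rw [map_eq_zero_iff _ (IsFractionRing.injective (B ⧸ P) K), Ideal.Quotient.eq_zero_iff_mem]
  have hzA : z ∈ A := Algebra.subset_adjoin (by simp)
  have hyz : π y - π z ≠ 0 := by
    rw [← map_sub, Ne, hπ]
    intro hmem
    apply hPM hmem
    refine ⟨X - C ⟨z, hzA⟩, monic_X_sub_C _, ?_⟩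
    simp
  have hrel : ∀ c : F[X], c.coeff 0 = 0 →
      (G.sum fun m r => r • (aeval (π x) c ^ m.1 * aeval (π y) c ^ m.2.1 *
        aeval (π z) c ^ m.2.2)) = 0 := by
    intro c hc
    have h1 := congrArg π (h c hc)
    rw [map_mul, map_sub, map_zero] at h1
    have h2 := (mul_eq_zero.mp h1).resolve_left hyz
    rw [← h2]
    simp only [Finsupp.sum, map_sum, map_smul, map_mul, map_pow, Polynomial.aeval_algHom_apply]
  have h1 := intAux_integral _ _ _ (intAux_field G hG (π x) (π y) (π z) hrel)
  -- lift the integral equation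
  obtain ⟨p, hp, hp0⟩ := h1
  have hmap : A.map π = Algebra.adjoin F {π x, π z} := by
    rw [hA, AlgHom.map_adjoin]
    congr 1
    simp [Set.image_pair]
  let ρ : A →+* (Algebra.adjoin F {π x, π z}) :=
    (((π.comp A.val).codRestrict (Algebra.adjoin F {π x, π z}) (by
      rintro ⟨a, ha⟩
      rw [← hmap]
      exact ⟨a, ha, rfl⟩) : A →ₐ[F] (Algebra.adjoin F {π x, π z})) : A →+* _)
  have hρ : Function.Surjective ρ := by
    rintro ⟨a, ha⟩
    rw [← hmap] at ha
    obtain ⟨b, hb, hba⟩ := ha
    exact ⟨⟨b, hb⟩, Subtype.ext hba⟩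
  obtain ⟨p', hp'1, hp'2, hp'3⟩ := lifts_and_natDegree_eq_and_monic
    ((mem_lifts p).mpr (map_surjective ρ hρ p)) hp
  refine hPM (a := aeval y p') ?_ ⟨p', hp'3, rfl⟩
  rw [SetLike.mem_coe, ← hπ, ← hp0, ← hp'1, eval₂_map, aeval_def]
  have h5 := Polynomial.hom_eval₂ p' (algebraMap A B) (π : B →+* K) y
  exact h5

end Pool.Agent.Lib.MP_5aea19_al
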