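import Mathlib
import Pool.Agent.Lib.MP_5aea19_al.Basic
import Pool.Agent.Lib.MP_5aea19_al.LemmaOne
import Pool.Agent.Lib.MP_5aea19_al.Heart
import Pool.Agent.Lib.MP_5aea19_al.Integral

set_option autoImplicit false

namespace Pool.Agent.Lib.MP_5aea19_al

open Equiv Polynomial

universe u v w

section words

/-- the word `2^i 0 2^j 1 2^k` -/
def wrd (m : ℕ × ℕ × ℕ) : List (Fin 3) :=
  List.replicate m.1 2 ++ 0 :: (List.replicate m.2.1 2 ++ 1 :: List.replicate m.2.2 2)

theorem replicate_append_inj {x y : Fin 3} (hxy : y ≠ x) :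
    ∀ (i i' : ℕ) (X X' : List (Fin 3)),
      List.replicate i x ++ y :: X = List.replicate i' x ++ y :: X' → i = i' ∧ X = X' := by
  intro i
  induction i with
  | zero =>
    intro i' X X' h
    cases i' with
    | zero => simpa using h
    | succ i' =>
      simp only [List.replicate_zero, List.nil_append, List.replicate_succ, List.cons_append,
        List.cons.injEq] at h
      exact absurd h.1 hxy
  | succ i ih =>
    intro i' X X' h
    cases i' with
    | zero =>
      simp only [List.replicate_zero, List.nil_append, List.replicate_succ, List.cons_append,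
        List.cons.injEq] at h
      exact absurd h.1.symm hxy
    | succ i' =>
      simp only [List.replicate_succ, List.cons_append, List.cons.injEq, true_and] at h
      obtain ⟨h1, h2⟩ := ih i' X X' h
      exact ⟨by rw [h1], h2⟩

theorem wrd_injective : Function.Injective wrd := by
  rintro ⟨i, j, k⟩ ⟨i', j', k'⟩ h
  simp only [wrd] at h
  obtain ⟨h1, h2⟩ := replicate_append_inj (by decide) _ _ _ _ h
  obtain ⟨h3, h4⟩ := replicate_append_inj (by decide) _ _ _ _ h2
  have h5 := congrArg List.length h4
  simp only [List.length_replicate] at h5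
  rw [h1, h3, h5]

theorem eq_replicate_two (L : List (Fin 3)) (h0 : (0 : Fin 3) ∉ L) (h1 : (1 : Fin 3) ∉ L) :
    L = List.replicate L.length 2 := by
  rw [List.eq_replicate_iff]
  refine ⟨rfl, ?_⟩
  intro b hb
  fin_cases b
  · exact absurd hb h0
  · exact absurd hb h1
  · rfl

variable {F : Type u} [Field F] {R : Type v} [Ring R] [Algebra F R]

theorem prod_mem_of_letter {C : Submodule F R} (hC : TS C) {a b c : R} (ha : a ∈ C) (hb : b ∈ C)
    (L : List (Fin 3)) (h : (0 : Fin 3) ∈ L ∨ (1 : Fin 3) ∈ L) : (L.map ![a, b, c]).prod ∈ C := by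
  rcases h with h | h
  · obtain ⟨P, Q, rfl⟩ := List.append_of_mem h
    rw [List.map_append, List.prod_append, List.map_cons, List.prod_cons]
    exact hC.mul_mem_left _ (hC.mul_mem_right _ ha)
  · obtain ⟨P, Q, rfl⟩ := List.append_of_mem h
    rw [List.map_append, List.prod_append, List.map_cons, List.prod_cons]
    exact hC.mul_mem_left _ (hC.mul_mem_right _ hb)

theorem val_key (a b c : R) (P Q : List (Fin 3)) (j : ℕ) (s t : Fin 3) :
    (List.map ![a, b, c] (P ++ s :: (List.replicate j 2 ++ t :: Q))).prod =
      (List.map ![a, b, c] P).prod * (![a, b, c] s * c ^ j * ![a, b, c] t) *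
        (List.map ![a, b, c] Q).prod := by
  simp [mul_assoc]

theorem diff_mem {C U V : Submodule F R} (hC : TS C) (hV : TS V)
    (hUC : U ≤ C) (hU : TS U) (hV1 : C * C * U ≤ V) (hV2 : C * U * C ≤ V) (hV3 : U * C * C ≤ V)
    {a b c y : R} (ha : a ∈ C) (hb : b ∈ U) (hcy : Commute y c)
    (L : List (Fin 3)) (h0 : (0 : Fin 3) ∈ L) (h1 : (1 : Fin 3) ∈ L) (hL : L ∉ Set.range wrd) :
    (L.map ![a * y, b, c]).prod - (L.map ![a, b, c]).prod * y ∈ V := by
  have hbC := hUC hb
  have haC' : a * y ∈ C := hC.mul_mem_right y ha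
  obtain ⟨P, Q, j, s, t, rfl, hst⟩ := exists_factor L h0 h1
  rw [val_key, val_key]
  by_cases hP : (0 : Fin 3) ∈ P ∨ (1 : Fin 3) ∈ P
  · have h2 : ∀ a' ∈ C, (List.map ![a', b, c] P).prod * (![a', b, c] s * c ^ j * ![a', b, c] t) *
        (List.map ![a', b, c] Q).prod ∈ V := by
      intro a' ha'
      refine hV.mul_mem_right _ ?_
      have h3 := prod_mem_of_letter hC (c := c) ha' hbC P hP
      rcases hst with ⟨rfl, rfl⟩ | ⟨rfl, rfl⟩
      · refine hV1 ?_
        rw [mul_assoc C C U]
        refine Submodule.mul_mem_mul h3 ?_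
        exact Submodule.mul_mem_mul (hC.mul_mem_right _ ha') hb
      · refine hV2 ?_
        rw [mul_assoc C U C]
        refine Submodule.mul_mem_mul h3 ?_
        exact Submodule.mul_mem_mul (hU.mul_mem_right _ hb) ha'
    exact V.sub_mem (h2 _ haC') (hV.mul_mem_right _ (h2 _ ha))
  · by_cases hQ : (0 : Fin 3) ∈ Q ∨ (1 : Fin 3) ∈ Q
    · have h2 : ∀ a' ∈ C, (List.map ![a', b, c] P).prod *
          (![a', b, c] s * c ^ j * ![a', b, c] t) * (List.map ![a', b, c] Q).prod ∈ V := by
        intro a' ha'
        rw [mul_assoc]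
        refine hV.mul_mem_left _ ?_
        have h3 := prod_mem_of_letter hC (c := c) ha' hbC Q hQ
        rcases hst with ⟨rfl, rfl⟩ | ⟨rfl, rfl⟩
        · refine hV2 ?_
          refine Submodule.mul_mem_mul ?_ h3
          exact Submodule.mul_mem_mul (hC.mul_mem_right _ ha') hb
        · refine hV3 ?_
          refine Submodule.mul_mem_mul ?_ h3
          exact Submodule.mul_mem_mul (hU.mul_mem_right _ hb) ha'
      exact V.sub_mem (h2 _ haC') (hV.mul_mem_right _ (h2 _ ha))
    · push Not at hP hQ
      have hP' := eq_replicate_two P hP.1 hP.2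
      have hQ' := eq_replicate_two Q hQ.1 hQ.2
      rcases hst with ⟨rfl, rfl⟩ | ⟨rfl, rfl⟩
      · exfalso
        apply hL
        refine ⟨(P.length, j, Q.length), ?_⟩
        simp only [wrd]
        rw [← hP', ← hQ']
      · have h4 : ∀ a' : R, (List.map ![a', b, c] Q).prod = c ^ Q.length := by
          intro a'
          rw [hQ']
          simp
        have h5 : (List.map ![a * y, b, c] P).prod = (List.map ![a, b, c] P).prod := by
          rw [hP']
          simp
        rw [h4, h4, h5]
        have h6 : y * c ^ Q.length = c ^ Q.length * y := (hcy.pow_right _).eq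
        have h7 : (List.map ![a, b, c] P).prod * (![a * y, b, c] 1 * c ^ j * ![a * y, b, c] 0) *
            c ^ Q.length - (List.map ![a, b, c] P).prod * (![a, b, c] 1 * c ^ j * ![a, b, c] 0) *
            c ^ Q.length * y = 0 := by
          change (List.map ![a, b, c] P).prod * (b * c ^ j * (a * y)) *
            c ^ Q.length - (List.map ![a, b, c] P).prod * (b * c ^ j * a) *
            c ^ Q.length * y = 0
          rw [sub_eq_zero, ← mul_assoc (b * c ^ j) a y, ← mul_assoc _ _ y,
            mul_assoc _ y, h6, mul_assoc _ _ y]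
        rw [h7]
        exact V.zero_mem

theorem diff_wrd (a b c y : R) (m : ℕ × ℕ × ℕ) :
    ((wrd m).map ![a * y, b, c]).prod - ((wrd m).map ![a, b, c]).prod * y =
      c ^ m.1 * (a * (y * c ^ m.2.1) * b) * c ^ m.2.2 -
        c ^ m.1 * (a * c ^ m.2.1 * b) * c ^ m.2.2 * y := by
  simp [wrd, mul_assoc]

end words

section phi

variable {F : Type u} [Field F] {R : Type v} [Ring R] [Algebra F R]

/-- the trilinear substitution -/
noncomputable def Phi (y a b : R) : MvPolynomial (Fin 3) F →ₗ[F] R :=
  (MvPolynomial.basisMonomials (Fin 3) F).constr F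
    (fun m => y ^ m 0 * a * y ^ m 1 * b * y ^ m 2)

theorem Phi_monomial (y a b : R) (m : Fin 3 →₀ ℕ) :
    Phi (F := F) y a b (MvPolynomial.monomial m 1) = y ^ m 0 * a * y ^ m 1 * b * y ^ m 2 := by
  have := (MvPolynomial.basisMonomials (Fin 3) F).constr_basis F
    (fun m => y ^ m 0 * a * y ^ m 1 * b * y ^ m 2) m
  rwa [MvPolynomial.coe_basisMonomials] at this

theorem Phi_ext {f g : MvPolynomial (Fin 3) F →ₗ[F] R}
    (h : ∀ m, f (MvPolynomial.monomial m 1) = g (MvPolynomial.monomial m 1)) (P) : f P = g P := by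
  have : f = g := by
    apply (MvPolynomial.basisMonomials (Fin 3) F).ext
    intro m
    simpa using h m
  rw [this]

theorem Phi_X0 (y a b : R) (P : MvPolynomial (Fin 3) F) :
    Phi y a b (MvPolynomial.X 0 * P) = y * Phi y a b P := by
  refine Phi_ext (f := (Phi y a b).comp (LinearMap.mulLeft F (MvPolynomial.X 0)))
    (g := (LinearMap.mulLeft F y).comp (Phi y a b)) ?_ P
  intro m
  simp only [LinearMap.comp_apply, LinearMap.mulLeft_apply, MvPolynomial.X,
    MvPolynomial.monomial_mul, Phi_monomial, one_mul]
  simp [pow_add, mul_assoc]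

theorem Phi_X2 (y a b : R) (P : MvPolynomial (Fin 3) F) :
    Phi y a b (MvPolynomial.X 2 * P) = Phi y a b P * y := by
  refine Phi_ext (f := (Phi y a b).comp (LinearMap.mulLeft F (MvPolynomial.X 2)))
    (g := (LinearMap.mulRight F y).comp (Phi y a b)) ?_ P
  intro m
  simp only [LinearMap.comp_apply, LinearMap.mulLeft_apply, LinearMap.mulRight_apply,
    MvPolynomial.X, MvPolynomial.monomial_mul, Phi_monomial, one_mul]
  rw [add_comm (Finsupp.single 2 1) m]
  simp [pow_add, mul_assoc]

theorem Phi_X1 (y a b : R) (P : MvPolynomial (Fin 3) F) :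
    Phi y a b (MvPolynomial.X 1 * P) = Phi y (a * y) b P := by
  refine Phi_ext (f := (Phi y a b).comp (LinearMap.mulLeft F (MvPolynomial.X 1)))
    (g := Phi y (a * y) b) ?_ P
  intro m
  simp only [LinearMap.comp_apply, LinearMap.mulLeft_apply,
    MvPolynomial.X, MvPolynomial.monomial_mul, Phi_monomial, one_mul]
  simp [pow_add, mul_assoc]

theorem Phi_aeval0 (y a b : R) (c : F[X]) (P : MvPolynomial (Fin 3) F) :
    Phi y a b (aeval (MvPolynomial.X 0) c * P) = aeval y c * Phi y a b P := by
  induction c using Polynomial.induction_on' with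
  | add p q hp hq => simp only [map_add, add_mul, hp, hq]
  | monomial n r =>
    rw [Polynomial.aeval_monomial, Polynomial.aeval_monomial, mul_assoc, ← Algebra.smul_def,
      map_smul, mul_assoc, ← Algebra.smul_def]
    congr 1
    induction n with
    | zero => simp
    | succ n ih => rw [pow_succ', mul_assoc, Phi_X0, ih, pow_succ', mul_assoc]

theorem Phi_aeval2 (y a b : R) (c : F[X]) (P : MvPolynomial (Fin 3) F) :
    Phi y a b (aeval (MvPolynomial.X 2) c * P) = Phi y a b P * aeval y c := by
  induction c using Polynomial.induction_on' with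
  | add p q hp hq => simp only [map_add, add_mul, mul_add, hp, hq]
  | monomial n r =>
    rw [Polynomial.aeval_monomial, Polynomial.aeval_monomial, mul_assoc, ← Algebra.smul_def,
      map_smul, ← Algebra.smul_def, mul_smul_comm]
    congr 1
    induction n with
    | zero => simp
    | succ n ih => rw [pow_succ', mul_assoc, Phi_X2, ih, pow_succ, mul_assoc]

theorem Phi_aeval1 (y a b : R) (c : F[X]) :
    Phi y a b (aeval (MvPolynomial.X 1 : MvPolynomial (Fin 3) F) c) = a * aeval y c * b := by
  induction c using Polynomial.induction_on' with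
  | add p q hp hq => simp only [map_add, add_mul, mul_add, hp, hq]
  | monomial n r =>
    rw [Polynomial.aeval_monomial, Polynomial.aeval_monomial, ← Algebra.smul_def,
      map_smul, ← Algebra.smul_def, mul_smul_comm, smul_mul_assoc]
    congr 1
    have : (MvPolynomial.X 1 : MvPolynomial (Fin 3) F) ^ n =
        MvPolynomial.monomial (Finsupp.single 1 n) 1 := by
      rw [MvPolynomial.X_pow_eq_monomial]
    rw [this, Phi_monomial]
    simp

theorem Phi_adjoin {y a b : R} {W : Submodule F R} (hW : TS W) {q : MvPolynomial (Fin 3) F}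
    (hq : q ∈ Algebra.adjoin F {MvPolynomial.X 0, (MvPolynomial.X 2 : MvPolynomial (Fin 3) F)}) :
    ∀ P : MvPolynomial (Fin 3) F, Phi y a b P ∈ W → Phi y a b (q * P) ∈ W := by
  induction hq using Algebra.adjoin_induction with
  | mem x hx =>
    intro P hP
    rcases hx with rfl | hx
    · rw [Phi_X0]
      exact hW.mul_mem_left _ hP
    · rw [Set.mem_singleton_iff] at hx
      subst hx
      rw [Phi_X2]
      exact hW.mul_mem_right _ hP
  | algebraMap r =>
    intro P hP
    rw [← Algebra.smul_def, map_smul]
    exact W.smul_mem _ hP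
  | add x z _ _ hx hz =>
    intro P hP
    rw [add_mul, map_add]
    exact W.add_mem (hx P hP) (hz P hP)
  | mul x z _ _ hx hz =>
    intro P hP
    rw [mul_assoc]
    exact hx _ (hz _ hP)

end phi

section main

variable {F : Type u} [Field F] {D : List (Fin 3) →₀ F} {d : ℕ} {α : Perm (Fin d) → F}
  {R : Type v} [Ring R] [Algebra F R] {A : Ideal R} {k : ℕ} {e : Fin k → R}

theorem Dat.exists_sub_mem (hdat : Dat D α R A e) (r : R) : ∃ c : F, r - algebraMap F R c ∈ A := by
  have two := hdat.two
  have hr : r ∈ Algebra.adjoin F (Set.range e) := by rw [hdat.top]; trivial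
  induction hr using Algebra.adjoin_induction with
  | mem x hx =>
    obtain ⟨i, rfl⟩ := hx
    exact ⟨0, by simpa using hdat.mem i⟩
  | algebraMap r => exact ⟨r, by simp⟩
  | add x y _ _ hx hy =>
    obtain ⟨a, ha⟩ := hx
    obtain ⟨b, hb⟩ := hy
    refine ⟨a + b, ?_⟩
    rw [map_add, add_sub_add_comm]
    exact A.add_mem ha hb
  | mul x y _ _ hx hy =>
    obtain ⟨a, ha⟩ := hx
    obtain ⟨b, hb⟩ := hy
    refine ⟨a * b, ?_⟩
    have : x * y - algebraMap F R (a * b) = (x - algebraMap F R a) * y +
        algebraMap F R a * (y - algebraMap F R b) := by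
      rw [map_mul]
      noncomm_ring
    rw [this]
    exact A.add_mem (A.mul_mem_right _ ha) (A.mul_mem_left _ hb)

theorem Dat.comm_mem (hdat : Dat D α R A e) (x y : R) : x * y - y * x ∈ A := by
  have two := hdat.two
  obtain ⟨a, ha⟩ := hdat.exists_sub_mem x
  have : x * y - y * x = (x - algebraMap F R a) * y - y * (x - algebraMap F R a) := by
    rw [sub_mul, mul_sub, Algebra.commutes a y]
    abel
  rw [this]
  exact A.sub_mem (A.mul_mem_right _ ha) (A.mul_mem_left _ ha)

theorem Dat.cI_sub (hdat : Dat D α R A e) {x : R} (hx : x ∈ cI F R) : x ∈ A := by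
  have two := hdat.two
  let A' : Submodule F R := A.restrictScalars F
  have hA' : TS A' := TS.of_mem (fun r x hx => A.mul_mem_left r hx)
    (fun r x hx => A.mul_mem_right r hx)
  exact cI_le hA' hdat.comm_mem hx

theorem middle_reduction [Finite F] (hD : GoodD D) (hdat : Dat D α R A e) (y : R) (hy : y ∈ A)
    {U V : Submodule F R} (hU : TS U) (hV : TS V) (hUC : U ≤ cI F R)
    (hV1 : cI F R * cI F R * U ≤ V) (hV2 : cI F R * U * cI F R ≤ V)
    (hV3 : U * cI F R * cI F R ≤ V) :
    ∃ m, ∀ a ∈ cI F R, ∀ b ∈ U, a * y ^ m * b ∈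
      (⊤ * Submodule.span F {z | ∃ l < m, z = a * y ^ l * b} * ⊤) ⊔ V := by
  classical
  have two := hdat.two
  set C := cI F R with hC
  have hCts : TS C := ts_cI
  let J : Ideal (MvPolynomial (Fin 3) F) :=
    { carrier := {P | ∀ a ∈ C, ∀ b ∈ U, Phi y a b P ∈ V}
      add_mem' := fun {P Q} hP hQ a ha b hb => by
        rw [map_add]
        exact V.add_mem (hP a ha b hb) (hQ a ha b hb)
      zero_mem' := fun a _ b _ => by rw [map_zero]; exact V.zero_mem
      smul_mem' := fun Q => by
        induction Q using MvPolynomial.induction_on with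
        | C r =>
          intro P hP a ha b hb
          rw [smul_eq_mul, ← MvPolynomial.smul_eq_C_mul, map_smul]
          exact V.smul_mem _ (hP a ha b hb)
        | add Q1 Q2 h1 h2 =>
          intro P hP a ha b hb
          rw [add_smul, map_add]
          exact V.add_mem (h1 hP a ha b hb) (h2 hP a ha b hb)
        | mul_X Q1 n h1 =>
          intro P hP
          rw [mul_smul]
          refine h1 ?_
          intro a ha b hb
          rw [smul_eq_mul]
          fin_cases n
          · change Phi y a b (MvPolynomial.X 0 * P) ∈ V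
            rw [Phi_X0]
            exact hV.mul_mem_left _ (hP a ha b hb)
          · change Phi y a b (MvPolynomial.X 1 * P) ∈ V
            rw [Phi_X1]
            exact hP _ (hCts.mul_mem_right _ ha) b hb
          · change Phi y a b (MvPolynomial.X 2 * P) ∈ V
            rw [Phi_X2]
            exact hV.mul_mem_right _ (hP a ha b hb) }
  have hJmem : ∀ P, P ∈ J ↔ ∀ a ∈ C, ∀ b ∈ U, Phi y a b P ∈ V := fun P => Iff.rfl
  let mk := Ideal.Quotient.mkₐ F J
  let G : (ℕ × ℕ × ℕ) →₀ F := D.comapDomain wrd wrd_injective.injOn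
  have hG : ∃ j, G (0, j, 0) ≠ 0 := by
    obtain ⟨j, hj⟩ := hD.2
    refine ⟨j, ?_⟩
    rw [Finsupp.comapDomain_apply]
    simpa [wrd] using hj
  have hint : IsIntegral (Algebra.adjoin F {mk (MvPolynomial.X 0), mk (MvPolynomial.X 2)})
      (mk (MvPolynomial.X 1)) := by
    refine isIntegral_of_relations G hG _ _ _ ?_
    intro c hc
    -- the polynomial itself
    have hmem : ((MvPolynomial.X 1 - MvPolynomial.X 2) * (G.sum fun m r => r •
        (aeval (MvPolynomial.X 0 : MvPolynomial (Fin 3) F) c ^ m.1 *
          aeval (MvPolynomial.X 1 : MvPolynomial (Fin 3) F) c ^ m.2.1 *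
          aeval (MvPolynomial.X 2 : MvPolynomial (Fin 3) F) c ^ m.2.2))) ∈ J := by
      rw [hJmem]
      intro a ha b hb
      have hcA : aeval y c ∈ A := by
        have : c = X * c.divX := by
          have := c.X_mul_divX_add
          rw [hc] at this
          simpa using this.symm
        rw [this, map_mul, aeval_X]
        exact A.mul_mem_right _ hy
      have hcy : Commute y (aeval y c) := by
        have : Commute (aeval y (X : F[X])) (aeval y c) := by
          rw [Commute, SemiconjBy, ← map_mul, ← map_mul, mul_comm]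
        rwa [aeval_X] at this
      have e1 : ev D ![a * y, b, aeval y c] = 0 := hdat.did _ (by
        intro i
        fin_cases i
        · exact A.mul_mem_right _ (hdat.cI_sub ha)
        · exact hdat.cI_sub (hUC hb)
        · exact hcA)
      have e2 : ev D ![a, b, aeval y c] = 0 := hdat.did _ (by
        intro i
        fin_cases i
        · exact hdat.cI_sub ha
        · exact hdat.cI_sub (hUC hb)
        · exact hcA)
      have e3 : ∑ L ∈ D.support, D L • ((L.map ![a * y, b, aeval y c]).prod -
          (L.map ![a, b, aeval y c]).prod * y) = 0 := by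
        have : (ev D ![a * y, b, aeval y c] - ev D ![a, b, aeval y c] * y) = 0 := by
          rw [e1, e2, zero_mul, sub_zero]
        rw [ev, ev, Finsupp.sum, Finsupp.sum, Finset.sum_mul, ← Finset.sum_sub_distrib] at this
        rw [← this]
        refine Finset.sum_congr rfl ?_
        intro L _
        rw [smul_sub, smul_mul_assoc]
      rw [Finsupp.sum, Finset.mul_sum, map_sum]
      have e4 : ∀ m : ℕ × ℕ × ℕ, Phi y a b ((MvPolynomial.X 1 - MvPolynomial.X 2) * (G m •
          (aeval (MvPolynomial.X 0 : MvPolynomial (Fin 3) F) c ^ m.1 *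
            aeval (MvPolynomial.X 1 : MvPolynomial (Fin 3) F) c ^ m.2.1 *
            aeval (MvPolynomial.X 2 : MvPolynomial (Fin 3) F) c ^ m.2.2))) =
          D (wrd m) • (((wrd m).map ![a * y, b, aeval y c]).prod -
            ((wrd m).map ![a, b, aeval y c]).prod * y) := by
        intro m
        rw [diff_wrd, mul_smul_comm, map_smul]
        congr 1
        rw [sub_mul, map_sub]
        congr 1
        · have : MvPolynomial.X 1 * (aeval (MvPolynomial.X 0 : MvPolynomial (Fin 3) F) c ^ m.1 *
              aeval (MvPolynomial.X 1 : MvPolynomial (Fin 3) F) c ^ m.2.1 *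
              aeval (MvPolynomial.X 2 : MvPolynomial (Fin 3) F) c ^ m.2.2) =
              aeval (MvPolynomial.X 0) (c ^ m.1) * (aeval (MvPolynomial.X 2) (c ^ m.2.2) *
                aeval (MvPolynomial.X 1 : MvPolynomial (Fin 3) F) (X * c ^ m.2.1)) := by
            simp only [map_mul, map_pow, aeval_X]
            ring
          rw [this, Phi_aeval0, Phi_aeval2, Phi_aeval1]
          simp only [map_mul, map_pow, aeval_X, mul_assoc]
        · have : MvPolynomial.X 2 * (aeval (MvPolynomial.X 0 : MvPolynomial (Fin 3) F) c ^ m.1 *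
              aeval (MvPolynomial.X 1 : MvPolynomial (Fin 3) F) c ^ m.2.1 *
              aeval (MvPolynomial.X 2 : MvPolynomial (Fin 3) F) c ^ m.2.2) =
              MvPolynomial.X 2 * (aeval (MvPolynomial.X 0) (c ^ m.1) *
                (aeval (MvPolynomial.X 2) (c ^ m.2.2) *
                aeval (MvPolynomial.X 1 : MvPolynomial (Fin 3) F) (c ^ m.2.1))) := by
            simp only [map_pow]
            ring
          rw [this, Phi_X2, Phi_aeval0, Phi_aeval2, Phi_aeval1]
          simp only [map_pow, mul_assoc]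
      rw [Finset.sum_congr rfl (fun m _ => e4 m)]
      have e5 : ∑ m ∈ G.support, D (wrd m) • (((wrd m).map ![a * y, b, aeval y c]).prod -
            ((wrd m).map ![a, b, aeval y c]).prod * y) =
          ∑ L ∈ D.support, if L ∈ Set.range wrd then D L • ((L.map ![a * y, b, aeval y c]).prod -
          (L.map ![a, b, aeval y c]).prod * y) else 0 := by
        rw [← Finset.sum_preimage wrd D.support wrd_injective.injOn]
        · refine Finset.sum_congr rfl ?_
          intro m _
          rw [if_pos ⟨m, rfl⟩]
        · intro L _ hL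
          rw [if_neg hL]
      rw [e5]
      have e6 : ∑ L ∈ D.support, (if L ∈ Set.range wrd then
          D L • ((L.map ![a * y, b, aeval y c]).prod -
          (L.map ![a, b, aeval y c]).prod * y) else 0) =
          - ∑ L ∈ D.support, (if L ∈ Set.range wrd then 0 else
          D L • ((L.map ![a * y, b, aeval y c]).prod -
          (L.map ![a, b, aeval y c]).prod * y)) := by
        rw [eq_neg_iff_add_eq_zero, ← Finset.sum_add_distrib]
        refine Eq.trans (Finset.sum_congr rfl ?_) e3
        intro L _
        split_ifs <;> simp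
      rw [e6]
      refine V.neg_mem (V.sum_mem ?_)
      intro L hL
      split_ifs with hLr
      · exact V.zero_mem
      · obtain ⟨h0, h1⟩ := hD.1 L hL
        exact V.smul_mem _ (diff_mem hCts hV hUC hU hV1 hV2 hV3 ha hb hcy L h0 h1 hLr)
    have h7 : mk ((MvPolynomial.X 1 - MvPolynomial.X 2) * (G.sum fun m r => r •
        (aeval (MvPolynomial.X 0 : MvPolynomial (Fin 3) F) c ^ m.1 *
          aeval (MvPolynomial.X 1 : MvPolynomial (Fin 3) F) c ^ m.2.1 *
          aeval (MvPolynomial.X 2 : MvPolynomial (Fin 3) F) c ^ m.2.2))) = 0 :=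
      Ideal.Quotient.eq_zero_iff_mem.2 hmem
    rw [← h7, map_mul, map_sub, Finsupp.sum, Finsupp.sum, map_sum]
    congr 1
    refine Finset.sum_congr rfl ?_
    intro m _
    rw [map_smul, map_mul, map_mul, map_pow, map_pow, map_pow, ← Polynomial.aeval_algHom_apply,
      ← Polynomial.aeval_algHom_apply, ← Polynomial.aeval_algHom_apply]
  obtain ⟨p, hpm, hp⟩ := hint
  have hlift : ∀ z ∈ Algebra.adjoin F {mk (MvPolynomial.X 0), mk (MvPolynomial.X 2)},
      ∃ q ∈ Algebra.adjoin F {MvPolynomial.X 0, (MvPolynomial.X 2 : MvPolynomial (Fin 3) F)},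
        mk q = z := by
    intro z hz
    have : (Algebra.adjoin F {MvPolynomial.X 0, (MvPolynomial.X 2 : MvPolynomial (Fin 3) F)}).map
        mk = Algebra.adjoin F {mk (MvPolynomial.X 0), mk (MvPolynomial.X 2)} := by
      rw [AlgHom.map_adjoin, Set.image_pair]
    rw [← this] at hz
    simpa using hz
  choose q hq hqmk using fun i : ℕ => hlift (p.coeff i : _ ⧸ J) (p.coeff i).2
  set m := p.natDegree with hm
  refine ⟨m, ?_⟩
  intro a ha b hb
  have h8 : MvPolynomial.X 1 ^ m + ∑ i ∈ Finset.range m, q i * MvPolynomial.X 1 ^ i ∈ J := by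
    refine Ideal.Quotient.eq_zero_iff_mem.1 ?_
    rw [Polynomial.eval₂_eq_sum_range, Finset.sum_range_succ, ← hm] at hp
    have h9 : p.coeff m = 1 := by rw [hm]; exact hpm
    rw [h9, map_one, one_mul] at hp
    change mk _ = 0
    rw [map_add, map_sum, map_pow, ← hp, add_comm]
    congr 1
    refine Finset.sum_congr rfl ?_
    intro i _
    rw [map_mul, map_pow, hqmk]
    rfl
  have h9 := (hJmem _).1 h8 a ha b hb
  rw [map_add, map_sum] at h9
  have hpow : ∀ n : ℕ, Phi y a b ((MvPolynomial.X 1 : MvPolynomial (Fin 3) F) ^ n) =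
      a * y ^ n * b := by
    intro n
    have := Phi_aeval1 y a b (X ^ n : F[X])
    simpa only [map_pow, aeval_X] using this
  rw [hpow] at h9
  have h10 : ∑ i ∈ Finset.range m, Phi y a b (q i * MvPolynomial.X 1 ^ i) ∈
      (⊤ * Submodule.span F {z | ∃ l < m, z = a * y ^ l * b} * ⊤ : Submodule F R) := by
    refine Submodule.sum_mem _ ?_
    intro i hi
    refine Phi_adjoin (ts_gen _) (hq i) _ ?_
    rw [hpow]
    exact le_gen _ (Submodule.subset_span ⟨i, Finset.mem_range.1 hi, rfl⟩)
  rw [show a * y ^ m * b = - (∑ i ∈ Finset.range m, Phi y a b (q i * MvPolynomial.X 1 ^ i)) +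
    (a * y ^ m * b + ∑ i ∈ Finset.range m, Phi y a b (q i * MvPolynomial.X 1 ^ i)) by abel]
  exact Submodule.add_mem_sup (Submodule.neg_mem _ h10) h9

end main

end Pool.Agent.Lib.MP_5aea19_al
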