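import Mathlib
import Pool.Agent.Lib.MP_5aea19_al.Middle
import Pool.Agent.Lib.MP_5aea19_al.CommAlg

set_option autoImplicit false

namespace Pool.Agent.Lib.MP_5aea19_al

open Equiv Polynomial

universe u v w

variable {F : Type u} [Field F] {D : List (Fin 3) →₀ F} {d : ℕ} {α : Perm (Fin d) → F}
  {R : Type v} [Ring R] [Algebra F R] {A : Ideal R} {k : ℕ} {e : Fin k → R}

/-- words span everything -/
theorem span_words (htop : Algebra.adjoin F (Set.range e) = ⊤) :
    Submodule.span F (Set.range fun u : List (Fin k) => (u.map e).prod) = ⊤ := by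
  rw [eq_top_iff]
  intro x _
  have hx : x ∈ Algebra.adjoin F (Set.range e) := by rw [htop]; trivial
  rw [← Subalgebra.mem_toSubmodule, Algebra.adjoin_eq_span] at hx
  refine Submodule.span_mono ?_ hx
  intro y hy
  induction hy using Submonoid.closure_induction with
  | mem x hx =>
    obtain ⟨i, rfl⟩ := hx
    exact ⟨[i], by simp⟩
  | one => exact ⟨[], by simp⟩
  | mul x y _ _ hx hy =>
    obtain ⟨u, rfl⟩ := hx
    obtain ⟨w, rfl⟩ := hy
    exact ⟨u ++ w, by simp⟩

/-- the commutator ideal is generated by the commutators of generators -/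
theorem cI_le_gen (htop : Algebra.adjoin F (Set.range e) = ⊤) :
    cI F R ≤ ⊤ * Submodule.span F (Set.range fun p : Fin k × Fin k =>
      e p.1 * e p.2 - e p.2 * e p.1) * ⊤ := by
  set T := Submodule.span F (Set.range fun p : Fin k × Fin k =>
      e p.1 * e p.2 - e p.2 * e p.1) with hT
  have hts : TS (⊤ * T * ⊤ : Submodule F R) := ts_gen T
  refine cI_le hts ?_
  have h1 : ∀ (s : R), (∀ i, e i * s - s * e i ∈ (⊤ * T * ⊤ : Submodule F R)) →
      ∀ x : R, x * s - s * x ∈ (⊤ * T * ⊤ : Submodule F R) := by
    intro s hs x
    have hx : x ∈ Algebra.adjoin F (Set.range e) := by rw [htop]; trivial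
    induction hx using Algebra.adjoin_induction with
    | mem x hx =>
      obtain ⟨i, rfl⟩ := hx
      exact hs i
    | algebraMap r => rw [Algebra.commutes, sub_self]; exact Submodule.zero_mem _
    | add x y _ _ hx hy =>
      have : (x + y) * s - s * (x + y) = (x * s - s * x) + (y * s - s * y) := by noncomm_ring
      rw [this]
      exact Submodule.add_mem _ hx hy
    | mul x y _ _ hx hy =>
      have : x * y * s - s * (x * y) = x * (y * s - s * y) + (x * s - s * x) * y := by
        noncomm_ring
      rw [this]
      exact Submodule.add_mem _ (hts.mul_mem_left _ hy) (hts.mul_mem_right _ hx)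
  intro x y
  refine h1 y ?_ x
  intro i
  rw [← neg_sub]
  refine Submodule.neg_mem _ (h1 (e i) ?_ y)
  intro j
  exact le_gen _ (Submodule.subset_span ⟨(j, i), rfl⟩)

theorem prod_perm_sub_mem {u w : List (Fin k)} (h : u.Perm w) :
    (u.map e).prod - (w.map e).prod ∈ cI F R := by
  have hts : TS (cI F R) := ts_cI
  induction h with
  | nil => rw [sub_self]; exact Submodule.zero_mem _
  | cons x _ ih =>
    rw [List.map_cons, List.map_cons, List.prod_cons, List.prod_cons, ← mul_sub]
    exact hts.mul_mem_left _ ih
  | swap x y l =>
    simp only [List.map_cons, List.prod_cons]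
    rw [← mul_assoc, ← mul_assoc, ← sub_mul]
    exact hts.mul_mem_right _ (comm_mem_cI _ _)
  | trans _ _ h1 h2 =>
    have := Submodule.add_mem _ h1 h2
    rwa [sub_add_sub_cancel] at this

theorem exists_large_count (m : ℕ) (u : List (Fin k)) (hu : m * k < u.length) :
    ∃ j : Fin k, m ≤ u.count j := by
  by_contra hcon
  push Not at hcon
  have h1 : u.length = ∑ j : Fin k, u.count j := by
    have := Multiset.toFinset_sum_count_eq (u : Multiset (Fin k))
    rw [Multiset.coe_card] at this
    rw [← this]
    simp only [Multiset.coe_count]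
    refine Finset.sum_subset (Finset.subset_univ _) ?_
    intro x _ hx
    rw [List.count_eq_zero]
    intro hx'
    exact hx (by simpa using hx')
  have h2 : ∑ j : Fin k, u.count j ≤ ∑ _j : Fin k, m := Finset.sum_le_sum fun j _ => (hcon j).le
  rw [Finset.sum_const, Finset.card_univ, Fintype.card_fin, smul_eq_mul, mul_comm] at h2
  omega

/-- the conclusion of `middle_reduction` for the exponent `m` -/
def MidRed (U V : Submodule F R) (y : R) (m : ℕ) : Prop :=
  ∀ a ∈ cI F R, ∀ b ∈ U, a * y ^ m * b ∈
      (⊤ * Submodule.span F {z | ∃ l < m, z = a * y ^ l * b} * ⊤) ⊔ V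

theorem MidRed.succ {U V : Submodule F R} {y : R} {m : ℕ} (hU : TS U)
    (h : MidRed U V y m) : MidRed U V y (m + 1) := by
  intro a ha b hb
  have h1 := h a ha (y * b) (hU.mul_mem_left y hb)
  rw [pow_succ, ← mul_assoc, mul_assoc _ y b]
  have h2 : Submodule.span F {z | ∃ l < m, z = a * y ^ l * (y * b)} ≤
      Submodule.span F {z | ∃ l < m + 1, z = a * y ^ l * b} := by
    refine Submodule.span_mono ?_
    rintro z ⟨l, hl, rfl⟩
    exact ⟨l + 1, by omega, by rw [pow_succ]; noncomm_ring⟩
  have h3 : (⊤ * Submodule.span F {z | ∃ l < m, z = a * y ^ l * (y * b)} * ⊤ ⊔ V :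
      Submodule F R) ≤ ⊤ * Submodule.span F {z | ∃ l < m + 1, z = a * y ^ l * b} * ⊤ ⊔ V :=
    sup_le_sup (mul_le_mul' (mul_le_mul' le_rfl h2) le_rfl) le_rfl
  exact h3 h1

theorem MidRed.mono {U V : Submodule F R} {y : R} {m n : ℕ} (hU : TS U)
    (h : MidRed U V y m) (hmn : m ≤ n) : MidRed U V y n := by
  induction hmn with
  | refl => exact h
  | step _ ih => exact ih.succ hU

theorem cI_mul_pow (n : ℕ) : cI F R * cI F R ^ n = cI F R ^ (n + 1) := (pow_succ' _ _).symm

/-- all layers are finitely generated -/
theorem layers [Finite F] (hD : GoodD D) (hdat : Dat D α R A e) (n : ℕ) :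
    ∃ g : Submodule F R, g.FG ∧ g ≤ cI F R ^ (n + 1) ∧
      cI F R ^ (n + 1) ≤ ⊤ * g * ⊤ ⊔ cI F R ^ (n + 2) := by
  set C := cI F R with hC
  have hCts : TS C := ts_cI
  set g1 := Submodule.span F (Set.range fun p : Fin k × Fin k =>
      e p.1 * e p.2 - e p.2 * e p.1) with hg1
  have hg1fg : g1.FG := Submodule.fg_span (Set.finite_range _)
  have hg1C : g1 ≤ C := by
    rw [hg1, Submodule.span_le]
    rintro _ ⟨p, rfl⟩
    exact comm_mem_cI _ _
  have hCg1 : C ≤ ⊤ * g1 * ⊤ := cI_le_gen hdat.top
  induction n with
  | zero =>
    refine ⟨g1, hg1fg, by simpa using hg1C, ?_⟩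
    rw [zero_add, pow_one]
    exact hCg1.trans le_sup_left
  | succ n ih =>
    obtain ⟨g, hg, hgU, hUg⟩ := ih
    have hUts : TS (C ^ (n + 1)) := hCts.pow n
    have hVts : TS (C ^ (n + 3)) := hCts.pow (n + 2)
    have hUC : C ^ (n + 1) ≤ C := by
      rw [pow_succ]
      exact (mul_le_mul' le_top le_rfl).trans hCts.1
    have hred : ∀ j : Fin k, ∃ m, MidRed (C ^ (n + 1)) (C ^ (n + 3)) (e j) m := by
      intro j
      refine middle_reduction hD hdat (e j) (hdat.mem j) hUts hVts hUC ?_ ?_ ?_
      · rw [← pow_two, ← pow_add, show 2 + (n + 1) = n + 3 by omega]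
      · rw [← pow_succ', ← pow_succ]
      · rw [← pow_succ, ← pow_succ]
    choose mj hmj using hred
    set m := Finset.univ.sup mj with hm
    have hred : ∀ j : Fin k, MidRed (C ^ (n + 1)) (C ^ (n + 3)) (e j) m :=
      fun j => (hmj j).mono hUts (Finset.le_sup (Finset.mem_univ j))
    set Wd := Submodule.span F ((fun u : List (Fin k) => (u.map e).prod) ''
      {u : List (Fin k) | u.length < m * k + 1}) with hWd
    have hWdfg : Wd.FG := Submodule.fg_span ((List.finite_length_lt (Fin k) _).image _)
    refine ⟨g1 * Wd * g, (hg1fg.mul hWdfg).mul hg, ?_, ?_⟩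
    · calc g1 * Wd * g ≤ C * ⊤ * C ^ (n + 1) := mul_le_mul' (mul_le_mul' hg1C le_top) hgU
        _ = C ^ (n + 1 + 1) := by rw [hCts.mul_top, ← pow_succ']
    · set T := (⊤ * (g1 * Wd * g) * ⊤ ⊔ C ^ (n + 1 + 2) : Submodule F R) with hT
      have hTts : TS T := (ts_gen _).sup hVts
      have key : ∀ (N : ℕ) (u : List (Fin k)), u.length < N → ∀ c ∈ g1, ∀ s ∈ g,
          c * (u.map e).prod * s ∈ T := by
        intro N
        induction N with
        | zero => intro u hu; omega
        | succ N ih =>
          intro u hu c hc s hs
          by_cases hul : u.length < m * k + 1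
          · refine le_sup_left (a := (⊤ * (g1 * Wd * g) * ⊤ : Submodule F R)) (le_gen _ ?_)
            exact Submodule.mul_mem_mul (Submodule.mul_mem_mul hc
              (Submodule.subset_span ⟨u, hul, rfl⟩)) hs
          · obtain ⟨j, hj⟩ := exists_large_count m u (by omega)
            obtain ⟨u', hu'⟩ := (List.replicate_sublist_iff.2 hj).exists_perm_append
            have hlen : u.length = m + u'.length := by
              have := hu'.length_eq
              simpa using this
            have h1 : c * (u.map e).prod * s = c * ((u.map e).prod -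
                ((List.replicate m j ++ u').map e).prod) * s +
                c * e j ^ m * ((u'.map e).prod * s) := by
              simp only [List.map_append, List.map_replicate, List.prod_append,
                List.prod_replicate]
              noncomm_ring
            rw [h1]
            refine Submodule.add_mem _ ?_ ?_
            · refine le_sup_right (b := C ^ (n + 1 + 2)) ?_
              have : C ^ (n + 1 + 2) = C * C * C ^ (n + 1) := by
                rw [← pow_two, ← pow_add]
                congr 1
                omega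
              rw [this]
              exact Submodule.mul_mem_mul (Submodule.mul_mem_mul (hg1C hc)
                (prod_perm_sub_mem hu')) (hgU hs)
            · have h2 := hred j c (hg1C hc) _ (hUts.mul_mem_left (u'.map e).prod (hgU hs))
              refine (sup_le (gen_le hTts ?_) le_sup_right) h2
              rw [Submodule.span_le]
              rintro _ ⟨l, hl, rfl⟩
              have h3 := ih (List.replicate l j ++ u') (by
                simp only [List.length_append, List.length_replicate]
                omega) c hc s hs
              have h4 : c * e j ^ l * ((u'.map e).prod * s) =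
                  c * ((List.replicate l j ++ u').map e).prod * s := by
                simp only [List.map_append, List.map_replicate, List.prod_append,
                  List.prod_replicate]
                noncomm_ring
              rw [SetLike.mem_coe, h4]
              exact h3
      have hmid : g1 * ⊤ * g ≤ T := by
        rw [← span_words (F := F) (e := e) hdat.top, Submodule.mul_le]
        intro cu hcu s hs
        induction hcu using Submodule.mul_induction_on' with
        | mem_mul_mem c hc x hx =>
          induction hx using Submodule.span_induction with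
          | mem x hx =>
            obtain ⟨u, rfl⟩ := hx
            exact key (u.length + 1) u (by omega) c hc s hs
          | zero => rw [mul_zero, zero_mul]; exact T.zero_mem
          | add x y _ _ hx hy =>
            rw [mul_add, add_mul]
            exact T.add_mem hx hy
          | smul r x _ hx =>
            rw [mul_smul_comm, smul_mul_assoc]
            exact T.smul_mem r hx
        | add x _ y _ hx hy =>
          rw [add_mul]
          exact T.add_mem hx hy
      calc C ^ (n + 1 + 1) = C * C ^ (n + 1) := pow_succ' _ _
        _ ≤ (⊤ * g1 * ⊤) * (⊤ * g * ⊤ ⊔ C ^ (n + 2)) := mul_le_mul' hCg1 hUg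
        _ = ⊤ * (g1 * (⊤ * ⊤) * g) * ⊤ ⊔ (⊤ * g1 * ⊤) * C ^ (n + 2) := by
            simp only [Submodule.mul_sup, mul_assoc]
        _ ≤ T := by
            refine sup_le ?_ ?_
            · rw [top_mul_top]
              exact gen_le hTts hmid
            · refine le_trans ?_ le_sup_right
              calc (⊤ * g1 * ⊤) * C ^ (n + 2) ≤ C * C ^ (n + 2) :=
                    mul_le_mul' (gen_le hCts hg1C) le_rfl
                _ = C ^ (n + 1 + 2) := by rw [← pow_succ']

end Pool.Agent.Lib.MP_5aea19_al
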