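import Mathlib
import Pool.Agent.Lib.MP_5aea19_al.Layers

set_option autoImplicit false

namespace Pool.Agent.Lib.MP_5aea19_al

open Equiv Polynomial

universe u v w

variable {F : Type u} [Field F] {D : List (Fin 3) →₀ F} {d : ℕ} {α : Perm (Fin d) → F}
  {R : Type v} [Ring R] [Algebra F R] {A : Ideal R} {k : ℕ} {e : Fin k → R}

variable (F) in
/-- left and right multiplications by the generators -/
def mulSet (e : Fin k → R) : Set (Module.End F R) :=
  Set.range (fun j => LinearMap.mulLeft F (e j)) ∪ Set.range (fun j => LinearMap.mulRight F (e j))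

variable (F) in
/-- the multiplication algebra -/
def MA (e : Fin k → R) : Type v := ↥(Algebra.adjoin F (mulSet F e))

instance : Ring (MA F e) := inferInstanceAs (Ring ↥(Algebra.adjoin F (mulSet F e)))

instance : Algebra F (MA F e) := inferInstanceAs (Algebra F ↥(Algebra.adjoin F (mulSet F e)))

instance : Module (MA F e) R := inferInstanceAs (Module ↥(Algebra.adjoin F (mulSet F e)) R)

theorem MA_smul (c : MA F e) (x : R) :
    c • x = (show ↥(Algebra.adjoin F (mulSet F e)) from c).1 x := rfl

theorem finite_mulSet : (mulSet F e).Finite := (Set.finite_range _).union (Set.finite_range _)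

variable (F) in
/-- the generators of the multiplication algebra -/
def mulGen (e : Fin k → R) : Set (MA F e) :=
  (Subtype.val : ↥(Algebra.adjoin F (mulSet F e)) → Module.End F R) ⁻¹' (mulSet F e)

theorem finite_mulGen : (mulGen F e).Finite :=
  (finite_mulSet (F := F) (e := e)).preimage (Set.injOn_of_injective Subtype.val_injective)

theorem adjoin_mulGen : Algebra.adjoin F (mulGen F e) = ⊤ :=
  Algebra.adjoin_adjoin_coe_preimage (R := F) (s := mulSet F e)

/-- two-sided ideals as submodules over the multiplication algebra -/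
def toMod (e : Fin k → R) {I : Submodule F R} (hI : TS I) : Submodule (MA F e) R where
  carrier := I
  add_mem' := fun ha hb => I.add_mem ha hb
  zero_mem' := I.zero_mem
  smul_mem' := by
    rintro ⟨c, hc⟩ x hx
    change c x ∈ I
    change x ∈ I at hx
    induction hc using Algebra.adjoin_induction generalizing x with
    | mem c hc =>
      rcases hc with ⟨j, rfl⟩ | ⟨j, rfl⟩
      · exact hI.mul_mem_left _ hx
      · exact hI.mul_mem_right _ hx
    | algebraMap r =>
      change r • x ∈ I
      exact I.smul_mem r hx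
    | add a b _ _ ha hb => exact I.add_mem (ha hx) (hb hx)
    | mul a b _ _ ha hb => exact ha (hb hx)

theorem mem_toMod {I : Submodule F R} (hI : TS I) {x : R} : x ∈ toMod e hI ↔ x ∈ I := Iff.rfl

/-- submodules over the multiplication algebra as subspaces -/
def ofMod (N : Submodule (MA F e) R) : Submodule F R where
  carrier := N
  add_mem' := fun ha hb => N.add_mem ha hb
  zero_mem' := N.zero_mem
  smul_mem' := fun c _ hx => N.smul_mem (algebraMap F (MA F e) c) hx

theorem mem_ofMod {N : Submodule (MA F e) R} {x : R} : x ∈ ofMod N ↔ x ∈ N := Iff.rfl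

theorem ts_ofMod (htop : Algebra.adjoin F (Set.range e) = ⊤) (N : Submodule (MA F e) R) :
    TS (ofMod N) := by
  refine TS.of_mem ?_ ?_
  · intro r x hx
    have hr : r ∈ Algebra.adjoin F (Set.range e) := by rw [htop]; trivial
    induction hr using Algebra.adjoin_induction generalizing x with
    | mem r hr =>
      obtain ⟨j, rfl⟩ := hr
      exact N.smul_mem (⟨LinearMap.mulLeft F (e j), Algebra.subset_adjoin (Or.inl ⟨j, rfl⟩)⟩ :
        MA F e) hx
    | algebraMap c =>
      rw [← Algebra.smul_def]
      exact (ofMod N).smul_mem c hx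
    | add a b _ _ ha hb =>
      rw [add_mul]
      exact (ofMod N).add_mem (ha x hx) (hb x hx)
    | mul a b _ _ ha hb =>
      rw [mul_assoc]
      exact ha _ (hb x hx)
  · intro r x hx
    have hr : r ∈ Algebra.adjoin F (Set.range e) := by rw [htop]; trivial
    induction hr using Algebra.adjoin_induction generalizing x with
    | mem r hr =>
      obtain ⟨j, rfl⟩ := hr
      exact N.smul_mem (⟨LinearMap.mulRight F (e j), Algebra.subset_adjoin (Or.inr ⟨j, rfl⟩)⟩ :
        MA F e) hx
    | algebraMap c =>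
      rw [← Algebra.commutes, ← Algebra.smul_def]
      exact (ofMod N).smul_mem c hx
    | add a b _ _ ha hb =>
      rw [mul_add]
      exact (ofMod N).add_mem (ha x hx) (hb x hx)
    | mul a b _ _ ha hb =>
      rw [← mul_assoc]
      exact hb _ (ha x hx)

/-- commutators of the generators of the multiplication algebra -/
theorem mulGen_comm {B A' : Submodule F R} (hCA : cI F R * A' ≤ B) (hAC : A' * cI F R ≤ B)
    {s t : MA F e} (hs : s ∈ mulGen F e) (ht : t ∈ mulGen F e) {x : R} (hx : x ∈ A') :
    (s * t - t * s) • x ∈ B := by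
  obtain ⟨s, hs'⟩ := s
  obtain ⟨t, ht'⟩ := t
  change s (t x) - t (s x) ∈ B
  change s ∈ mulSet F e at hs
  change t ∈ mulSet F e at ht
  rcases hs with ⟨i, rfl⟩ | ⟨i, rfl⟩
  · rcases ht with ⟨j, rfl⟩ | ⟨j, rfl⟩
    · simp only [LinearMap.mulLeft_apply]
      rw [← mul_assoc, ← mul_assoc, ← sub_mul]
      exact hCA (Submodule.mul_mem_mul (comm_mem_cI _ _) hx)
    · simp only [LinearMap.mulLeft_apply, LinearMap.mulRight_apply]
      rw [← mul_assoc, sub_self]
      exact B.zero_mem
  · rcases ht with ⟨j, rfl⟩ | ⟨j, rfl⟩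
    · simp only [LinearMap.mulLeft_apply, LinearMap.mulRight_apply]
      rw [← mul_assoc, sub_self]
      exact B.zero_mem
    · simp only [LinearMap.mulRight_apply]
      rw [mul_assoc, mul_assoc, ← mul_sub]
      exact hAC (Submodule.mul_mem_mul hx (comm_mem_cI _ _))

theorem noeth_step (htop : Algebra.adjoin F (Set.range e) = ⊤) {B A' g : Submodule F R}
    (hB : TS B) (hA : TS A') (hBA : B ≤ A') (hCA : cI F R * A' ≤ B) (hAC : A' * cI F R ≤ B)
    (hg : g.FG) (hgA : g ≤ A') (hgen : A' ≤ ⊤ * g * ⊤ ⊔ B)
    (hnB : IsNoetherian (MA F e) (toMod e hB)) : IsNoetherian (MA F e) (toMod e hA) := by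
  set N := toMod e hA with hN
  set S : Submodule (MA F e) N := (toMod e hB).comap N.subtype with hS
  refine (isNoetherian_iff_submodule_quotient S).2 ⟨?_, ?_⟩
  · have hle : toMod e hB ≤ N := hBA
    exact isNoetherian_of_linearEquiv (Submodule.comapSubtypeEquivOfLe hle).symm
  · obtain ⟨T, hT⟩ := hg
    have hTA : ∀ x ∈ T, x ∈ A' := fun x hx => hgA (hT ▸ Submodule.subset_span hx)
    have hfin : Module.Finite (MA F e) (N ⧸ S) := by
      let T' : Set (N ⧸ S) := Set.range fun x : T => S.mkQ ⟨x.1, hTA _ x.2⟩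
      refine ⟨⟨(Set.finite_range _).toFinset (s := T'), ?_⟩⟩
      rw [Set.Finite.coe_toFinset, eq_top_iff]
      intro q _
      -- the preimage in `R`
      set P := Submodule.span (MA F e) T' with hP
      let P' : Submodule (MA F e) R := (P.comap S.mkQ).map N.subtype
      have h1 : (⊤ * g * ⊤ ⊔ B : Submodule F R) ≤ ofMod P' := by
        refine sup_le (gen_le (ts_ofMod htop P') ?_) ?_
        · rw [← hT, Submodule.span_le]
          intro x hx
          refine ⟨⟨x, hTA x hx⟩, ?_, rfl⟩
          exact Submodule.subset_span ⟨⟨x, hx⟩, rfl⟩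
        · intro x hx
          refine ⟨⟨x, hBA hx⟩, ?_, rfl⟩
          have : S.mkQ ⟨x, hBA hx⟩ = 0 := by
            rw [Submodule.mkQ_apply, Submodule.Quotient.mk_eq_zero]
            exact hx
          change S.mkQ ⟨x, hBA hx⟩ ∈ P
          rw [this]
          exact P.zero_mem
      obtain ⟨⟨x, hx⟩, rfl⟩ := S.mkQ_surjective q
      obtain ⟨y, hy, hyx⟩ := h1 (hgen hx)
      have : y = ⟨x, hx⟩ := Subtype.ext hyx
      rw [← this]
      exact hy
    refine isNoetherian_of_commuting (F := F) finite_mulGen (adjoin_mulGen (e := e)) ?_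
    intro s hs t ht q
    obtain ⟨⟨x, hx⟩, rfl⟩ := S.mkQ_surjective q
    rw [← map_smul, Submodule.mkQ_apply, Submodule.Quotient.mk_eq_zero]
    exact mulGen_comm hCA hAC hs ht hx

theorem isNoetherian_layers [Finite F] (hD : GoodD D) (hdat : Dat D α R A e) {s : ℕ}
    (hnil : cI F R ^ (s + 1) = ⊥) : ∀ t, t ≤ s → ∀ h : TS (cI F R ^ (s - t + 1)),
      IsNoetherian (MA F e) (toMod e h) := by
  have hCts : TS (cI F R) := ts_cI
  intro t
  induction t with
  | zero =>
    intro _ h
    have : toMod e h = ⊥ := by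
      rw [eq_bot_iff]
      intro x hx
      have hx' : x ∈ cI F R ^ (s - 0 + 1) := hx
      rw [Nat.sub_zero, hnil] at hx'
      exact hx'
    rw [this]
    infer_instance
  | succ t ih =>
    intro ht h
    obtain ⟨g, hg, hgC, hgen⟩ := layers hD hdat (s - (t + 1))
    have e1 : s - (t + 1) + 2 = s - t + 1 := by omega
    rw [e1] at hgen
    have hB : TS (cI F R ^ (s - t + 1)) := hCts.pow (s - t)
    have e2 : cI F R ^ (s - t + 1) = cI F R * cI F R ^ (s - (t + 1) + 1) := by
      rw [← pow_succ']
      congr 1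
      omega
    have e3 : cI F R ^ (s - t + 1) = cI F R ^ (s - (t + 1) + 1) * cI F R := by
      rw [← pow_succ]
      congr 1
      omega
    refine noeth_step hdat.top hB h ?_ e2.ge e3.ge hg hgC hgen (ih (by omega) hB)
    rw [e2]
    exact (mul_le_mul' le_top le_rfl).trans h.1

theorem isNoetherian_all [Finite F] (hD : GoodD D) (hdat : Dat D α R A e) {s : ℕ}
    (hnil : cI F R ^ (s + 1) = ⊥) : IsNoetherian (MA F e) R := by
  have hCts : TS (cI F R) := ts_cI
  have hB : TS (cI F R ^ (s - s + 1)) := hCts.pow (s - s)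
  have h1 := isNoetherian_layers hD hdat hnil s le_rfl hB
  have e1 : cI F R ^ (s - s + 1) = cI F R := by simp
  have h2 : IsNoetherian (MA F e) (toMod e (ts_top (F := F) (R := R))) := by
    refine noeth_step (g := Submodule.span F {1}) hdat.top hB ts_top le_top ?_ ?_
      (Submodule.fg_span_singleton 1) le_top ?_ h1
    · rw [e1]
      exact hCts.2
    · rw [e1]
      exact hCts.1
    · refine le_trans ?_ le_sup_left
      intro x _
      have h3 : x * 1 * 1 ∈ (⊤ * Submodule.span F {1} * ⊤ : Submodule F R) :=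
        Submodule.mul_mem_mul (Submodule.mul_mem_mul Submodule.mem_top
          (Submodule.mem_span_singleton_self _)) Submodule.mem_top
      rwa [mul_one, mul_one] at h3
  have h4 : toMod e (ts_top (F := F) (R := R)) = ⊤ := by
    rw [eq_top_iff]
    intro x _
    exact Submodule.mem_top (R := F)
  rw [h4] at h2
  exact isNoetherian_top_iff.1 h2

theorem fg_of_finite {K : Submodule F R} (h : Finite K) : K.FG :=
  ⟨(Set.toFinite (K : Set R)).toFinset, by simp⟩

theorem ann2_fg [Finite F] (hD : GoodD D) (hdat : Dat D α R A e) {s : ℕ}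
    (hnil : cI F R ^ (s + 1) = ⊥) (h : R) (h0 : h ≠ 0)
    (hh : ∀ I : Submodule F R, TS I → I ≠ ⊥ → h ∈ I) : (ann2 (cI F R)).FG := by
  have hnoeth := isNoetherian_all hD hdat hnil
  have hCts : TS (cI F R) := ts_cI
  have hKts : TS (ann2 (cI F R)) := ts_ann2 hCts
  by_cases hK : ann2 (cI F R) = ⊥
  · rw [hK]
    exact Submodule.fg_bot
  · have hhK : h ∈ toMod e hKts := hh _ hKts hK
    have hfin : Finite (toMod e hKts) := by
      refine finite_of_heart (F := F) finite_mulGen (adjoin_mulGen (e := e)) ?_ ⟨h, hhK⟩ ?_ ?_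
      · rintro s hs t ht ⟨x, hx⟩
        refine Subtype.ext ?_
        have h1 := le_ann2_iff.1 (le_refl (ann2 (cI F R)))
        exact (Submodule.mem_bot F).1 (mulGen_comm h1.2 h1.1 hs ht hx)
      · intro h'
        exact h0 (congrArg Subtype.val h')
      · intro N hN
        have h2 := hh (ofMod (N.map (toMod e hKts).subtype)) (ts_ofMod hdat.top _) (by
          intro h3
          apply hN
          rw [eq_bot_iff]
          intro x hx
          have h4 : (x : R) ∈ ofMod (N.map (toMod e hKts).subtype) := ⟨x, hx, rfl⟩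
          rw [h3, Submodule.mem_bot] at h4
          rw [Submodule.mem_bot]
          exact Subtype.ext h4)
        obtain ⟨y, hy, hyh⟩ := h2
        have : y = ⟨h, hhK⟩ := Subtype.ext hyh
        rwa [← this]
    exact fg_of_finite hfin

theorem heart_finite_layers [Finite F] (hD : GoodD D) (hd : 0 < d) (hα : α 1 = 1)
    (hdat : Dat D α R A e) {s : ℕ} (hnil : cI F R ^ (s + 1) = ⊥)
    (hK : (ann2 (cI F R)).FG) : ∀ t, t ≤ s → (cI F R ^ (s - t + 1)).FG := by
  have hCts : TS (cI F R) := ts_cI
  intro t
  induction t with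
  | zero =>
    intro _
    rw [Nat.sub_zero, hnil]
    exact Submodule.fg_bot
  | succ t ih =>
    intro ht
    obtain ⟨g, hg, hgC, hgen⟩ := layers hD hdat (s - (t + 1))
    have e1 : s - (t + 1) + 2 = s - t + 1 := by omega
    rw [e1] at hgen
    have hB : TS (cI F R ^ (s - t + 1)) := hCts.pow (s - t)
    have hA : TS (cI F R ^ (s - (t + 1) + 1)) := hCts.pow _
    have e2 : cI F R ^ (s - t + 1) = cI F R * cI F R ^ (s - (t + 1) + 1) := by
      rw [← pow_succ']
      congr 1
      omega
    have e3 : cI F R ^ (s - t + 1) = cI F R ^ (s - (t + 1) + 1) * cI F R := by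
      rw [← pow_succ]
      congr 1
      omega
    have hle : cI F R ^ (s - t + 1) ≤ cI F R ^ (s - (t + 1) + 1) := by
      rw [e2]
      exact (mul_le_mul' le_top le_rfl).trans hA.1
    have hfg := ih (by omega)
    refine heart_step (g := g ⊔ cI F R ^ (s - t + 1)) hD hd hα hdat hK (hg.sup hfg)
      (le_antisymm ?_ ?_) ?_
    · refine hgen.trans (sup_le ?_ ?_)
      · exact mul_le_mul' (mul_le_mul' le_rfl le_sup_left) le_rfl
      · exact le_sup_right.trans (le_gen _)
    · exact gen_le hA (sup_le hgC hle)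
    · rw [← e2, ← e3, sup_idem]
      exact hfg

theorem heart_finite [Finite F] (hD : GoodD D) (hd : 0 < d) (hα : α 1 = 1)
    (hdat : Dat D α R A e) {s : ℕ} (hnil : cI F R ^ (s + 1) = ⊥) (h : R) (h0 : h ≠ 0)
    (hh : ∀ I : Submodule F R, TS I → I ≠ ⊥ → h ∈ I) : (⊤ : Submodule F R).FG := by
  have hCts : TS (cI F R) := ts_cI
  have hK := ann2_fg hD hdat hnil h h0 hh
  have h1 := heart_finite_layers hD hd hα hdat hnil hK s le_rfl
  rw [Nat.sub_self, zero_add, pow_one] at h1
  refine heart_step (g := Submodule.span F {1}) hD hd hα hdat hK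
    (Submodule.fg_span_singleton 1) ?_ ?_
  · refine (top_le_iff.1 ?_).symm
    intro x _
    have h3 : x * 1 * 1 ∈ (⊤ * Submodule.span F {1} * ⊤ : Submodule F R) :=
      Submodule.mul_mem_mul (Submodule.mul_mem_mul Submodule.mem_top
        (Submodule.mem_span_singleton_self _)) Submodule.mem_top
    rwa [mul_one, mul_one] at h3
  · rw [hCts.mul_top, hCts.top_mul, sup_idem]
    exact h1

end Pool.Agent.Lib.MP_5aea19_al
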