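import Mathlib
import Pool.Agent.Lib.MP_5aea19_al.Noeth

set_option autoImplicit false

namespace Pool.Agent.Lib.MP_5aea19_al

open Equiv Polynomial

universe u v w

variable {F : Type u} [Field F] {D : List (Fin 3) →₀ F} {d : ℕ} {α : Perm (Fin d) → F}
  {R : Type v} [Ring R] [Algebra F R] {A : Ideal R} {k : ℕ} {e : Fin k → R}
  {R' : Type v} [Ring R'] [Algebra F R']

theorem ev_map (f : R →ₐ[F] R') (a : Fin 3 → R) : ev D (f ∘ a) = f (ev D a) := by
  rw [ev, ev, Finsupp.sum, Finsupp.sum, map_sum]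
  refine Finset.sum_congr rfl ?_
  intro w _
  rw [map_smul, map_list_prod, List.map_map]

theorem DId.image (f : R →ₐ[F] R') {S : Set R} (h : DId D S) : DId D (f '' S) := by
  intro a ha
  choose b hb hba using ha
  have : a = f ∘ b := by
    funext i
    exact (hba i).symm
  rw [this, ev_map, h b hb, map_zero]

theorem MLId.image (f : R →ₐ[F] R') {S : Set R} (h : MLId α S) : MLId α (f '' S) := by
  intro a ha
  choose b hb hba using ha
  have h1 := congrArg f (h b hb)
  rw [map_sum, map_zero] at h1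
  rw [← h1]
  refine Finset.sum_congr rfl ?_
  intro σ _
  rw [map_smul, map_list_prod, List.map_ofFn]
  congr 3
  funext i
  exact (hba _).symm

theorem image_eq_map (f : R →ₐ[F] R') (hf : Function.Surjective f) (A : Ideal R) :
    (A.map f : Set R') = f '' (A : Set R) := by
  ext y
  exact Ideal.mem_map_iff_of_surjective f hf

theorem Dat.map (hdat : Dat D α R A e) (f : R →ₐ[F] R') (hf : Function.Surjective f) :
    Dat D α R' (A.map f) (f ∘ e) where
  two := by
    have := hdat.two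
    refine ⟨?_⟩
    intro a b ha
    have ha' : a ∈ f '' (A : Set R) := by rw [← image_eq_map f hf]; exact ha
    obtain ⟨x, hx, rfl⟩ := ha'
    obtain ⟨y, rfl⟩ := hf b
    rw [← map_mul]
    exact Ideal.mem_map_of_mem f (A.mul_mem_right y hx)
  did := by
    rw [image_eq_map f hf]
    exact hdat.did.image f
  mlid := by
    rw [image_eq_map f hf]
    exact hdat.mlid.image f
  mem := fun i => Ideal.mem_map_of_mem f (hdat.mem i)
  top := by
    rw [Set.range_comp, ← AlgHom.map_adjoin, hdat.top, Algebra.map_top]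
    exact (AlgHom.range_eq_top f).2 hf

theorem TS.map {I : Submodule F R} (hI : TS I) (f : R →ₐ[F] R') (hf : Function.Surjective f) :
    TS (I.map f.toLinearMap) := by
  refine TS.of_mem ?_ ?_
  · rintro r _ ⟨x, hx, rfl⟩
    obtain ⟨y, rfl⟩ := hf r
    exact ⟨y * x, hI.mul_mem_left y hx, by simp⟩
  · rintro r _ ⟨x, hx, rfl⟩
    obtain ⟨y, rfl⟩ := hf r
    exact ⟨x * y, hI.mul_mem_right y hx, by simp⟩

theorem TS.comap {I : Submodule F R'} (hI : TS I) (f : R →ₐ[F] R') :
    TS (I.comap f.toLinearMap) := by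
  refine TS.of_mem ?_ ?_
  · intro r x hx
    change f (r * x) ∈ I
    rw [map_mul]
    exact hI.mul_mem_left _ hx
  · intro r x hx
    change f (x * r) ∈ I
    rw [map_mul]
    exact hI.mul_mem_right _ hx

theorem cI_map_le (f : R →ₐ[F] R') (hf : Function.Surjective f) :
    cI F R' ≤ (cI F R).map f.toLinearMap := by
  refine cI_le (ts_cI.map f hf) ?_
  intro x y
  obtain ⟨a, rfl⟩ := hf x
  obtain ⟨b, rfl⟩ := hf y
  exact ⟨a * b - b * a, comm_mem_cI a b, by simp⟩

theorem cI_pow_map_le (f : R →ₐ[F] R') (hf : Function.Surjective f) (n : ℕ) :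
    cI F R' ^ n ≤ (cI F R ^ n).map f.toLinearMap := by
  rw [Submodule.map_pow]
  exact pow_le_pow_left' (cI_map_le f hf) n

/-- Residual finiteness when the commutator ideal is nilpotent. -/
theorem resid_of_nilpotent [Finite F] (hD : GoodD D) (hd : 0 < d) (hα : α 1 = 1)
    (hdat : Dat D α R A e) {s : ℕ} (hnil : cI F R ^ (s + 1) = ⊥) (h : R) (h0 : h ≠ 0) :
    ∃ I : Submodule F R, TS I ∧ FI I ∧ h ∉ I := by
  obtain ⟨I, -, hI⟩ := zorn_le_nonempty₀ {I : Submodule F R | TS I ∧ h ∉ I} (by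
    intro c hc hchain y hy
    have hdir : DirectedOn (· ≤ ·) c := hchain.directedOn
    have hmem : ∀ x, x ∈ sSup c ↔ ∃ I ∈ c, x ∈ I := fun x =>
      Submodule.mem_sSup_of_directed ⟨y, hy⟩ hdir
    refine ⟨sSup c, ⟨?_, ?_⟩, fun z hz => le_sSup hz⟩
    · refine TS.of_mem ?_ ?_
      · intro r x hx
        obtain ⟨I, hI, hxI⟩ := (hmem x).1 hx
        exact (hmem _).2 ⟨I, hI, (hc hI).1.mul_mem_left r hxI⟩
      · intro r x hx
        obtain ⟨I, hI, hxI⟩ := (hmem x).1 hx
        exact (hmem _).2 ⟨I, hI, (hc hI).1.mul_mem_right r hxI⟩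
    · intro hh
      obtain ⟨I, hI, hxI⟩ := (hmem h).1 hh
      exact (hc hI).2 hxI) ⊥ ⟨ts_bot, by simpa using h0⟩
  have hIts := hI.prop.1
  have hhI := hI.prop.2
  refine ⟨I, hIts, ?_, hhI⟩
  have := hIts.isTwoSided
  let f := Ideal.Quotient.mkₐ F hIts.toIdeal
  have hf : Function.Surjective f := Ideal.Quotient.mkₐ_surjective F _
  have hker : ∀ x, f x = 0 ↔ x ∈ I := fun x => Ideal.Quotient.eq_zero_iff_mem
  have hnil' : cI F (R ⧸ hIts.toIdeal) ^ (s + 1) = ⊥ := by
    rw [eq_bot_iff]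
    refine (cI_pow_map_le f hf _).trans ?_
    rw [hnil, Submodule.map_bot]
  have hfg : (⊤ : Submodule F (R ⧸ hIts.toIdeal)).FG := by
    refine heart_finite hD hd hα (hdat.map f hf) hnil' (f h) (fun h' => hhI ((hker h).1 h')) ?_
    intro I' hI'ts hI'
    have hle : I ≤ I'.comap f.toLinearMap := by
      intro x hx
      change f x ∈ I'
      rw [(hker x).2 hx]
      exact I'.zero_mem
    by_contra hcon
    have heq := hI.eq_of_le ⟨hI'ts.comap f, hcon⟩ hle
    apply hI'
    rw [eq_bot_iff]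
    intro x hx
    obtain ⟨y, rfl⟩ := hf x
    have : y ∈ I'.comap f.toLinearMap := hx
    rw [← heq] at this
    rw [(hker y).2 this]
    exact Submodule.zero_mem _
  have : Module.Finite F (R ⧸ hIts.toIdeal) := ⟨hfg⟩
  exact fi_of_finite_quotient hIts.toIdeal (fun x hx => hx)

end Pool.Agent.Lib.MP_5aea19_al
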