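import Mathlib
import Pool.Agent.Lib.MP_5aea19_al.Resid

set_option autoImplicit false

namespace Pool.Agent.Lib.MP_5aea19_al

open Equiv Polynomial

universe u v w

variable {F : Type u} [Field F] {R : Type v} [Ring R] [Algebra F R]

theorem fi_inf {P Q : Submodule F R} (hP : FI P) (hQ : FI Q) : FI (P ⊓ Q) := by
  have := (fi_iff P).1 hP
  have := (fi_iff Q).1 hQ
  refine (fi_ker (V := (R ⧸ P) × (R ⧸ Q)) (P.mkQ.prod Q.mkQ)).mono ?_
  intro x hx
  simpa using hx

theorem exists_small {V B T : Submodule F R} (hVB : V ⊔ B = ⊤) (hT : T.FG) :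
    ∃ B0 : Submodule F R, B0.FG ∧ B0 ≤ B ∧ T ≤ V ⊔ B0 := by
  classical
  obtain ⟨S, rfl⟩ := hT
  have h1 : ∀ t : R, ∃ b ∈ B, t - b ∈ V := by
    intro t
    have ht : t ∈ V ⊔ B := by rw [hVB]; trivial
    obtain ⟨v, hv, b, hb, rfl⟩ := Submodule.mem_sup.1 ht
    exact ⟨b, hb, by simpa using hv⟩
  choose b hb hbV using h1
  refine ⟨Submodule.span F (S.image b : Finset R), ⟨_, rfl⟩, ?_, ?_⟩
  · rw [Submodule.span_le]
    intro x hx
    simp only [Finset.coe_image, Set.mem_image] at hx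
    obtain ⟨t, _, rfl⟩ := hx
    exact hb t
  · rw [Submodule.span_le]
    intro t ht
    rw [show t = (t - b t) + b t by abel]
    exact Submodule.add_mem_sup (hbV t) (Submodule.subset_span (by
      simp only [Finset.coe_image, Set.mem_image]
      exact ⟨t, ht, rfl⟩))

/-- A Schreier type lemma: an ideal of finite codimension is a finitely generated algebra. -/
theorem schreier {k : ℕ} {e : Fin k → R} (htop : Algebra.adjoin F (Set.range e) = ⊤)
    {B : Submodule F R} (hB : TS B) (hBfi : FI B) :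
    ∃ W : Submodule F R, W.FG ∧ W ≤ B ∧
      B ≤ Subalgebra.toSubmodule (Algebra.adjoin F (W : Set R)) := by
  obtain ⟨P, hP, hPB⟩ := hBfi
  set V : Submodule F R := P ⊔ Submodule.span F (insert 1 (Set.range e)) with hV
  have hVfg : V.FG := hP.sup (Submodule.fg_span ((Set.finite_range e).insert 1))
  have h1V : (1 : Submodule F R) ≤ V := by
    rw [Submodule.one_le]
    exact le_sup_right (a := P) (Submodule.subset_span (Set.mem_insert _ _))
  have heV : ∀ i, e i ∈ V := fun i =>
    le_sup_right (a := P) (Submodule.subset_span (Set.mem_insert_of_mem _ ⟨i, rfl⟩))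
  have hVB : V ⊔ B = ⊤ := by
    rw [eq_top_iff, ← hPB]
    exact sup_le_sup_right le_sup_left _
  obtain ⟨B0, hB0, hB0B, hVV⟩ := exists_small hVB (hVfg.mul hVfg)
  set W := V * B0 * V with hW
  have hWfg : W.FG := (hVfg.mul hB0).mul hVfg
  have hWB : W ≤ B := by
    calc W ≤ ⊤ * B * ⊤ := mul_le_mul' (mul_le_mul' le_top hB0B) le_top
      _ = B := by rw [hB.top_mul, hB.mul_top]
  have hleV : ∀ X : Submodule F R, X ≤ V * X := fun X => by
    calc X = 1 * X := (one_mul X).symm
      _ ≤ V * X := mul_le_mul' h1V le_rfl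
  have hVle : ∀ X : Submodule F R, X ≤ X * V := fun X => by
    calc X = X * 1 := (mul_one X).symm
      _ ≤ X * V := mul_le_mul' le_rfl h1V
  have hB0W : B0 ≤ W := (hleV B0).trans (hVle _)
  have hB0VW : B0 * V ≤ W := by
    rw [hW, mul_assoc]
    exact hleV _
  have hVB0W : V * B0 ≤ W := hVle _
  have hVW : V * W ≤ W ⊔ W * W := by
    calc V * W = (V * V) * (B0 * V) := by rw [hW]; simp only [mul_assoc]
      _ ≤ (V ⊔ B0) * (B0 * V) := mul_le_mul' hVV le_rfl
      _ = V * B0 * V ⊔ B0 * (B0 * V) := by rw [Submodule.sup_mul, mul_assoc]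
      _ ≤ W ⊔ W * W := sup_le_sup le_rfl (mul_le_mul' hB0W hB0VW)
  have hWV : W * V ≤ W ⊔ W * W := by
    calc W * V = (V * B0) * (V * V) := by rw [hW]; simp only [mul_assoc]
      _ ≤ (V * B0) * (V ⊔ B0) := mul_le_mul' le_rfl hVV
      _ = V * B0 * V ⊔ (V * B0) * B0 := by rw [Submodule.mul_sup]
      _ ≤ W ⊔ W * W := sup_le_sup le_rfl (mul_le_mul' hVB0W hB0W)
  set N : Submodule F R := ⨆ n : ℕ, W ^ (n + 1) with hN
  have hWn : ∀ n : ℕ, W ^ (n + 1) ≤ N := fun n => le_iSup (fun n : ℕ => W ^ (n + 1)) n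
  have hWN : W ≤ N := by simpa using hWn 0
  have hVN : V * N ≤ N := by
    rw [hN, Submodule.mul_iSup]
    refine iSup_le fun n => ?_
    calc V * W ^ (n + 1) = (V * W) * W ^ n := by rw [pow_succ', ← mul_assoc]
      _ ≤ (W ⊔ W * W) * W ^ n := mul_le_mul' hVW le_rfl
      _ = W ^ (n + 1) ⊔ W ^ (n + 1 + 1) := by
          rw [Submodule.sup_mul, ← pow_succ', mul_assoc, ← pow_succ', ← pow_succ']
      _ ≤ N := sup_le (hWn n) (hWn (n + 1))
  have hNV : N * V ≤ N := by
    rw [hN, Submodule.iSup_mul]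
    refine iSup_le fun n => ?_
    calc W ^ (n + 1) * V = W ^ n * (W * V) := by rw [pow_succ, mul_assoc]
      _ ≤ W ^ n * (W ⊔ W * W) := mul_le_mul' le_rfl hWV
      _ = W ^ (n + 1) ⊔ W ^ (n + 1 + 1) := by
          rw [Submodule.mul_sup, ← pow_succ, ← mul_assoc, ← pow_succ, ← pow_succ]
      _ ≤ N := sup_le (hWn n) (hWn (n + 1))
  have hNN : N * N ≤ N := by
    have : N * N = ⨆ n : ℕ, ⨆ m : ℕ, W ^ (n + 1) * W ^ (m + 1) := by
      rw [hN, Submodule.iSup_mul]
      simp only [Submodule.mul_iSup]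
    rw [this]
    refine iSup_le fun n => iSup_le fun m => ?_
    rw [← pow_add, show n + 1 + (m + 1) = (n + m + 1) + 1 by omega]
    exact hWn _
  have hNB : N ≤ B := by
    refine iSup_le fun n => ?_
    calc W ^ (n + 1) ≤ B ^ (n + 1) := pow_le_pow_left' hWB _
      _ ≤ B := by
        rw [pow_succ]
        exact (mul_le_mul' le_top le_rfl).trans hB.1
  have hSS : (V ⊔ N) * (V ⊔ N) ≤ V ⊔ N := by
    have h1 : (V ⊔ N) * (V ⊔ N) = (V * V ⊔ N * V) ⊔ (V * N ⊔ N * N) := by
      rw [Submodule.mul_sup, Submodule.sup_mul V N V, Submodule.sup_mul V N N]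
    rw [h1]
    refine sup_le (sup_le ?_ ?_) (sup_le ?_ ?_)
    · exact hVV.trans (sup_le_sup_left (hB0W.trans hWN) _)
    · exact hNV.trans le_sup_right
    · exact hVN.trans le_sup_right
    · exact hNN.trans le_sup_right
  have hStop : V ⊔ N = ⊤ := by
    let S : Subalgebra F R := (V ⊔ N).toSubalgebra
      (le_sup_left (b := N) (Submodule.one_le.1 h1V))
      (fun x y hx hy => hSS (Submodule.mul_mem_mul hx hy))
    have h1 : Algebra.adjoin F (Set.range e) ≤ S := by
      refine Algebra.adjoin_le ?_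
      rintro _ ⟨i, rfl⟩
      exact le_sup_left (b := N) (heV i)
    rw [eq_top_iff]
    intro x _
    have : x ∈ Algebra.adjoin F (Set.range e) := by rw [htop]; trivial
    exact h1 this
  refine ⟨W ⊔ (B ⊓ V), hWfg.sup (FG.mono hVfg inf_le_right), sup_le hWB inf_le_left, ?_⟩
  intro x hx
  have hx' : x ∈ V ⊔ N := by rw [hStop]; trivial
  obtain ⟨v, hv, n, hn, rfl⟩ := Submodule.mem_sup.1 hx'
  have hvB : v ∈ B := by
    have := B.sub_mem hx (hNB hn)
    rwa [add_sub_cancel_right] at this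
  set T := Algebra.adjoin F ((W ⊔ (B ⊓ V) : Submodule F R) : Set R) with hT
  have hWT : W ≤ Subalgebra.toSubmodule T := by
    intro x hx
    exact Algebra.subset_adjoin (le_sup_left (b := B ⊓ V) hx)
  have hNT : N ≤ Subalgebra.toSubmodule T := by
    refine iSup_le fun n => ?_
    induction n with
    | zero => simpa using hWT
    | succ n ih =>
      rw [pow_succ]
      calc W ^ (n + 1) * W ≤ Subalgebra.toSubmodule T * Subalgebra.toSubmodule T :=
            mul_le_mul' ih hWT
        _ ≤ Subalgebra.toSubmodule T := by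
            rw [Submodule.mul_le]
            intro a ha b hb
            exact T.mul_mem ha hb
  refine Submodule.add_mem _ ?_ (hNT hn)
  exact Algebra.subset_adjoin (le_sup_right (a := W) ⟨hvB, hv⟩)

end Pool.Agent.Lib.MP_5aea19_al
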