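import Mathlib
import Pool.Agent.Lib.MP_5aea19_al.Schreier

set_option autoImplicit false

namespace Pool.Agent.Lib.MP_5aea19_al

open Equiv Polynomial

universe u v w

variable {F : Type u} [Field F] {D : List (Fin 3) →₀ F} {d : ℕ} {α : Perm (Fin d) → F}
  {R : Type v} [Ring R] [Algebra F R] {A : Ideal R} {k : ℕ} {e : Fin k → R}

/-- a nil commutator ideal is nilpotent -/
theorem nilpotent_of_nil (hd : 0 < d) (hα : α 1 = 1) (hdat : Dat D α R A e)
    (hnil : ∀ x ∈ cI F R, IsNilpotent x) : ∃ n, cI F R ^ (n + 1) = ⊥ := by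
  classical
  have two := hdat.two
  let ι := Fin k ⊕ (Fin k × Fin k)
  let φ : ι ≃ Fin (Fintype.card ι) := Fintype.equivFin ι
  let e₀ : ι → R := Sum.elim e (fun p => e p.1 * e p.2 - e p.2 * e p.1)
  let e' : Fin (Fintype.card ι) → R := fun x => e₀ (φ.symm x)
  let G : Fin (Fintype.card ι) → Prop := fun x => (φ.symm x).isRight = true
  have hmem : ∀ x, e' x ∈ A := by
    intro x
    change e₀ (φ.symm x) ∈ A
    rcases φ.symm x with i | p
    · exact hdat.mem i
    · exact hdat.comm_mem _ _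
  have hpi : ∀ b : Fin d → List (Fin (Fintype.card ι)), (∀ i, b i ≠ []) →
      ∑ σ, α σ • (List.ofFn fun i => ((b (σ i)).map e').prod).prod = 0 := fun b hb =>
    hdat.mlid (fun i => ((b i).map e').prod) (fun i => prod_mem_of_ne_nil two hmem (hb i))
  have hcts : TS (cI F R) := ts_cI
  have hGmem : ∀ w : List (Fin (Fintype.card ι)), (∃ x ∈ w, G x) → (w.map e').prod ∈ cI F R := by
    rintro w ⟨x, hx, hGx⟩
    obtain ⟨P, Q, rfl⟩ := List.append_of_mem hx
    rw [List.map_append, List.prod_append, List.map_cons, List.prod_cons]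
    refine hcts.mul_mem_left _ (hcts.mul_mem_right _ ?_)
    change (φ.symm x).isRight = true at hGx
    change e₀ (φ.symm x) ∈ cI F R
    rcases h : φ.symm x with i | p
    · rw [h] at hGx
      simp at hGx
    · exact comm_mem_cI _ _
  -- a uniform exponent for short words
  obtain ⟨N, hN⟩ : ∃ N, ∀ u : List (Fin (Fintype.card ι)), u ≠ [] → u.length < d →
      (∃ x ∈ u, G x) → (u.map e').prod ^ N = 0 := by
    have h1 : ∀ u : List (Fin (Fintype.card ι)), ∃ n, (∃ x ∈ u, G x) →
        (u.map e').prod ^ n = 0 := by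
      intro u
      by_cases hu : ∃ x ∈ u, G x
      · obtain ⟨n, hn⟩ := hnil _ (hGmem u hu)
        exact ⟨n, fun _ => hn⟩
      · exact ⟨0, fun h => absurd h hu⟩
    choose n hn using h1
    have hfin := List.finite_length_lt (Fin (Fintype.card ι)) d
    refine ⟨hfin.toFinset.sup n, ?_⟩
    intro u _ hul hG
    exact pow_eq_zero_of_le (Finset.le_sup (f := n) (by simpa using hul)) (hn u hG)
  obtain ⟨n, hn⟩ := words_eq_zero hd α hα e' hpi G N hN
  -- the filtration
  let W : ℕ → Submodule F R := fun m => Submodule.span F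
    {z | ∃ w : List (Fin (Fintype.card ι)), m ≤ w.countP (fun x => decide (G x)) ∧
      z = (w.map e').prod}
  have hWmul : ∀ m m', W m * W m' ≤ W (m + m') := by
    intro m m'
    rw [Submodule.span_mul_span, Submodule.span_le]
    rintro _ ⟨_, ⟨w, hw, rfl⟩, _, ⟨w', hw', rfl⟩, rfl⟩
    refine Submodule.subset_span ⟨w ++ w', ?_, ?_⟩
    · rw [List.countP_append]
      omega
    · simp
  have hW0 : W 0 = ⊤ := by
    rw [eq_top_iff, ← span_words (F := F) (e := e) hdat.top, Submodule.span_le]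
    rintro _ ⟨u, rfl⟩
    refine Submodule.subset_span ⟨u.map (fun i => φ (Sum.inl i)), Nat.zero_le _, ?_⟩
    rw [List.map_map]
    change (List.map e u).prod = _
    congr 2
    funext i
    simp [e', e₀]
  have hW1 : Submodule.span F (Set.range fun p : Fin k × Fin k =>
      e p.1 * e p.2 - e p.2 * e p.1) ≤ W 1 := by
    rw [Submodule.span_le]
    rintro _ ⟨p, rfl⟩
    refine Submodule.subset_span ⟨[φ (Sum.inr p)], ?_, ?_⟩
    · simp [G]
    · simp [e', e₀]
  have hC1 : cI F R ≤ W 1 := by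
    calc cI F R ≤ ⊤ * Submodule.span F (Set.range fun p : Fin k × Fin k =>
          e p.1 * e p.2 - e p.2 * e p.1) * ⊤ := cI_le_gen hdat.top
      _ ≤ W 0 * W 1 * W 0 := mul_le_mul' (mul_le_mul' hW0.ge hW1) hW0.ge
      _ ≤ W (0 + 1) * W 0 := mul_le_mul' (hWmul _ _) le_rfl
      _ ≤ W (0 + 1 + 0) := hWmul _ _
      _ = W 1 := by simp
  have hCn : ∀ m, cI F R ^ (m + 1) ≤ W (m + 1) := by
    intro m
    induction m with
    | zero => simpa using hC1
    | succ m ih =>
      rw [pow_succ]
      exact (mul_le_mul' ih hC1).trans (hWmul _ _)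
  refine ⟨n, ?_⟩
  rw [eq_bot_iff]
  refine (hCn n).trans ?_
  rw [Submodule.span_le]
  rintro _ ⟨w, hw, rfl⟩
  exact hn w (by omega)

end Pool.Agent.Lib.MP_5aea19_al
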