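import Mathlib
import Pool.Agent.Lib.MP_5aea19_al.Defs

set_option autoImplicit false

/-!
Simple modules of finitely generated algebras over a finite field which satisfy a multilinear
identity on commutators.
-/

namespace Pool.Agent.Lib.MP_5aea19_al

open Equiv Polynomial

universe u v w

section Density

variable {R : Type v} [Ring R] {N : Type w} [AddCommGroup N] [Module R N] [IsSimpleModule R N]

/-- Density theorem in the form: independent vectors can be moved anywhere. -/
theorem csim_density {n : ℕ} (v : Fin n → N)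
    (hv : LinearIndependent (Module.End R N) v) (t : Fin n → N) :
    ∃ x : R, ∀ i, x • v i = t i := by
  classical
  obtain ⟨g, hg⟩ := LinearMap.exists_extend
    ((Finsupp.linearCombination (Module.End R N) t).comp hv.repr)
  have hgv : ∀ i, g (v i) = t i := by
    intro i
    have h0 : v i ∈ Submodule.span (Module.End R N) (Set.range v) :=
      Submodule.subset_span ⟨i, rfl⟩
    have h1 := congrArg (fun f => f ⟨v i, h0⟩) hg
    simp only [LinearMap.comp_apply, Submodule.subtype_apply] at h1
    rw [h1]
    have h2 : hv.repr ⟨v i, h0⟩ = Finsupp.single i 1 :=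
      hv.repr_eq_single i _ rfl
    simp [h2]
  obtain ⟨r, hr⟩ := jacobson_density (R := R) (M := N) g (Finset.univ.image v)
  refine ⟨r, fun i => ?_⟩
  rw [← hr (v i) (Finset.mem_image_of_mem _ (Finset.mem_univ i)), hgv]

/-- Density for two-sided ideals. -/
theorem csim_density_ideal (I : Ideal R) [I.IsTwoSided]
    (hI : ∃ x ∈ I, ∃ m : N, x • m ≠ 0) {n : ℕ} (v : Fin n → N)
    (hv : LinearIndependent (Module.End R N) v) (t : Fin n → N) :
    ∃ x ∈ I, ∀ i, x • v i = t i := by
  classical
  obtain ⟨x0, hx0, m, hm⟩ := hI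
  have h1 : ∀ i : Fin n, ∃ s : R, ∀ j, s • v j = if j = i then m else 0 := fun i =>
    csim_density v hv _
  choose s hs using h1
  have h2 : ∀ i : Fin n, ∃ r : R, r • (x0 • m) = t i := fun i =>
    IsSimpleModule.toSpanSingleton_surjective R hm (t i)
  choose r hr using h2
  refine ⟨∑ i, r i * x0 * s i, ?_, ?_⟩
  · refine Ideal.sum_mem _ fun i _ => ?_
    exact Ideal.mul_mem_right _ _ (I.mul_mem_left _ hx0)
  · intro i
    rw [Finset.sum_smul, Finset.sum_eq_single i]
    · rw [mul_smul, hs, if_pos rfl, mul_smul, hr]
    · intro j _ hj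
      rw [mul_smul, hs, if_neg (Ne.symm hj), smul_zero]
    · intro h
      exact absurd (Finset.mem_univ i) h

end Density

section Staircase

variable {R : Type v} [Ring R] {N : Type w} [AddCommGroup N] [Module R N]

theorem csim_stair_aux1 {d : ℕ} (c : Fin d → R) (v' : ℕ → N)
    (hc : ∀ (i : Fin d) (j : ℕ), c i • v' j = if j = 2 * (i : ℕ) + 2 then v' (2 * (i : ℕ)) else 0)
    (l : List (Fin d)) :
    ((l.map c).prod • v' (2 * d) = v' (2 * (d - l.length)) ∧
      l.map Fin.val = List.range' (d - l.length) l.length) ∨ (l.map c).prod • v' (2 * d) = 0 := by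
  induction l with
  | nil => left; simp
  | cons a l ih =>
    rw [List.map_cons, List.prod_cons, mul_smul]
    rcases ih with ⟨h1, h2⟩ | h1
    · rw [h1, hc]
      by_cases h3 : 2 * (d - l.length) = 2 * (a : ℕ) + 2
      · left
        rw [if_pos h3]
        have h4 : d - (l.length + 1) = (a : ℕ) := by omega
        have h5 : d - l.length = (a : ℕ) + 1 := by omega
        rw [List.length_cons, h4]
        refine ⟨rfl, ?_⟩
        rw [List.map_cons, h2, h5, List.range'_succ]
      · right
        rw [if_neg h3]
    · right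
      rw [h1, smul_zero]

theorem csim_stair_aux2 {d : ℕ} (c : Fin d → R) (v' : ℕ → N)
    (hc : ∀ (i : Fin d) (j : ℕ), c i • v' j = if j = 2 * (i : ℕ) + 2 then v' (2 * (i : ℕ)) else 0)
    (l : List (Fin d)) : ∀ s : ℕ, s + l.length = d → l.map Fin.val = List.range' s l.length →
    (l.map c).prod • v' (2 * d) = v' (2 * s) := by
  induction l with
  | nil =>
    intro s hs _
    simp only [List.length_nil, Nat.add_zero] at hs
    simp [hs]
  | cons a l ih =>
    intro s hs h
    rw [List.length_cons, List.map_cons, List.range'_succ, List.cons.injEq] at h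
    rw [List.length_cons] at hs
    rw [List.map_cons, List.prod_cons, mul_smul, ih (s + 1) (by omega) h.2, hc, if_pos (by omega),
      h.1]

/-- Staircase argument: an algebra satisfying a multilinear commutator identity of degree `d` has
no simple module with `2 * d + 1` independent vectors over the endomorphism ring. -/
theorem csim_staircase {F : Type u} [Field F] {d : ℕ} (α : Perm (Fin d) → F) (hα : α 1 = 1)
    [Algebra F R] (hR : CMLId α R) [IsSimpleModule R N]
    (v : Fin (2 * d + 1) → N) (hv : LinearIndependent (Module.End R N) v) : False := by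
  classical
  have hx : ∀ i : Fin d, ∃ x : R, ∀ j : Fin (2 * d + 1),
      x • v j = if (j : ℕ) = 2 * (i : ℕ) + 1 then v ⟨2 * (i : ℕ), by omega⟩ else 0 := fun i =>
    csim_density v hv _
  have hy : ∀ i : Fin d, ∃ y : R, ∀ j : Fin (2 * d + 1),
      y • v j = if (j : ℕ) = 2 * (i : ℕ) + 2 then v ⟨2 * (i : ℕ) + 1, by omega⟩ else 0 := fun i =>
    csim_density v hv _
  choose x hx using hx
  choose y hy using hy
  let v' : ℕ → N := fun j => if h : j < 2 * d + 1 then v ⟨j, h⟩ else 0
  let c : Fin d → R := fun i => x i * y i - y i * x i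
  have hc : ∀ (i : Fin d) (j : ℕ), c i • v' j =
      if j = 2 * (i : ℕ) + 2 then v' (2 * (i : ℕ)) else 0 := by
    intro i j
    by_cases hj : j < 2 * d + 1
    · have h1 : v' j = v ⟨j, hj⟩ := dif_pos hj
      have h2 : v' (2 * (i : ℕ)) = v ⟨2 * (i : ℕ), by omega⟩ := dif_pos (by omega)
      rw [h1, h2, sub_smul, mul_smul, mul_smul, hy, hx]
      by_cases h3 : j = 2 * (i : ℕ) + 2
      · subst h3
        simp [hx]
      · by_cases h4 : j = 2 * (i : ℕ) + 1
        · subst h4
          simp [hy]
        · simp [h3, h4]
    · have h1 : v' j = 0 := dif_neg hj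
      rw [h1, smul_zero, if_neg (by omega)]
  have h0 := congrArg (fun r : R => r • v' (2 * d)) (hR x y)
  simp only [zero_smul, Finset.sum_smul] at h0
  rw [Finset.sum_eq_single (1 : Perm (Fin d))] at h0
  · have h1 : (List.ofFn fun i => x ((1 : Perm (Fin d)) i) * y ((1 : Perm (Fin d)) i) -
        y ((1 : Perm (Fin d)) i) * x ((1 : Perm (Fin d)) i)) = (List.finRange d).map c := by
      rw [List.ofFn_eq_map]; rfl
    rw [h1, hα, one_smul, csim_stair_aux2 c v' hc _ 0 (by simp)
      (by simp [List.range_eq_range'])] at h0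
    have h2 : v' (2 * 0) = v ⟨0, by omega⟩ := dif_pos (by omega)
    rw [h2] at h0
    have : Nontrivial N := IsSimpleModule.nontrivial R N
    exact hv.ne_zero _ h0
  · intro σ _ hσ
    have h1 : (List.ofFn fun i => x (σ i) * y (σ i) - y (σ i) * x (σ i)) =
        (List.ofFn σ).map c := by
      rw [List.map_ofFn]; rfl
    rw [h1, Algebra.smul_def, mul_smul]
    rcases csim_stair_aux1 c v' hc (List.ofFn σ) with ⟨_, h3⟩ | h3
    · exfalso
      apply hσ
      ext i
      rw [List.length_ofFn, Nat.sub_self, List.map_ofFn] at h3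
      have h4 : (List.ofFn (Fin.val ∘ σ))[(i : ℕ)]'(by simp) = (i : ℕ) := by
        simp [h3]
      simpa using h4
    · rw [h3, smul_zero]
  · intro h
    exact absurd (Finset.mem_univ _) h

end Staircase

section Density

variable {R : Type v} [Ring R] {N : Type w} [AddCommGroup N] [Module R N] [IsSimpleModule R N]

/-- Finite dimensionality over the endomorphism ring. -/
theorem csim_exists_basis {F : Type u} [Field F] {d : ℕ} (α : Perm (Fin d) → F) (hα : α 1 = 1)
    [Algebra F R] (hR : CMLId α R) :
    ∃ n : ℕ, n ≤ 2 * d ∧ Nonempty (Module.Basis (Fin n) (Module.End R N) N) := by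
  classical
  let b := Module.Basis.ofVectorSpace (Module.End R N) N
  by_cases h : ∃ g : Fin (2 * d + 1) → Module.Basis.ofVectorSpaceIndex (Module.End R N) N,
      Function.Injective g
  · obtain ⟨g, hg⟩ := h
    exact (csim_staircase α hα hR (b ∘ g) (b.linearIndependent.comp g hg)).elim
  · have hfin : Finite (Module.Basis.ofVectorSpaceIndex (Module.End R N) N) := by
      by_contra hinf
      rw [not_finite_iff_infinite] at hinf
      apply h
      exact ⟨fun i => (Infinite.natEmbedding _ (i : ℕ)), fun i j hij => by
        apply Fin.ext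
        exact (Infinite.natEmbedding _).injective hij⟩
    refine ⟨Nat.card (Module.Basis.ofVectorSpaceIndex (Module.End R N) N), ?_, ?_⟩
    · by_contra hlt
      apply h
      let e := Finite.equivFin (Module.Basis.ofVectorSpaceIndex (Module.End R N) N)
      exact ⟨fun i => e.symm (Fin.castLE (by omega) i), fun i j hij =>
        Fin.castLE_injective _ (e.symm.injective hij)⟩
    · exact ⟨b.reindex (Finite.equivFin _)⟩

end Density

section Core

variable {F : Type u} [Field F]

/-- The bookkeeping polynomials of a word: coordinates of the image of the second vector. -/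
noncomputable def csimPQ (F : Type u) [Field F] : List (Fin 3) → F[X][X] × F[X][X]
  | [] => (0, 1)
  | x :: w => if x = 0 then (0, X * (csimPQ F w).1) else
      if x = 1 then ((csimPQ F w).2, 0) else (C X * (csimPQ F w).1, 0)

theorem csimPQ_nil : csimPQ F [] = (0, 1) := by rw [csimPQ]

theorem csimPQ_zero (w : List (Fin 3)) : csimPQ F (0 :: w) = (0, X * (csimPQ F w).1) := by
  rw [csimPQ, if_pos rfl]

theorem csimPQ_one (w : List (Fin 3)) : csimPQ F (1 :: w) = ((csimPQ F w).2, 0) := by
  rw [csimPQ, if_neg (by decide), if_pos rfl]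

theorem csimPQ_two (w : List (Fin 3)) : csimPQ F (2 :: w) = (C X * (csimPQ F w).1, 0) := by
  rw [csimPQ, if_neg (by decide), if_neg (by decide)]

theorem csim_fin3 (x : Fin 3) : x = 0 ∨ x = 1 ∨ x = 2 := by
  revert x; decide

theorem csimPQ_coeff_q0 (w : List (Fin 3)) :
    ((csimPQ F w).2).coeff 0 = if w = [] then 1 else 0 := by
  cases w with
  | nil => simp [csimPQ_nil]
  | cons x w =>
    rcases csim_fin3 x with rfl | rfl | rfl
    · simp [csimPQ_zero]
    · simp [csimPQ_one]
    · simp [csimPQ_two]

theorem csimPQ_coeff_p0 (w : List (Fin 3)) : ∀ j : ℕ,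
    (((csimPQ F w).1).coeff 0).coeff j = if w = List.replicate j 2 ++ [1] then 1 else 0 := by
  induction w with
  | nil => intro j; simp [csimPQ_nil]
  | cons x w ih =>
    intro j
    rcases csim_fin3 x with rfl | rfl | rfl
    · cases j <;> simp [csimPQ_zero, List.replicate_succ]
    · rw [csimPQ_one]
      simp only [csimPQ_coeff_q0]
      cases j with
      | zero => by_cases hw : w = [] <;> simp [hw]
      | succ j =>
        by_cases hw : w = [] <;> simp [hw, List.replicate_succ, Polynomial.coeff_one]
    · rw [csimPQ_two]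
      simp only [Polynomial.coeff_C_mul]
      cases j with
      | zero => simp
      | succ j =>
        rw [Polynomial.coeff_X_mul, ih j]
        simp [List.replicate_succ]

theorem csimPQ_coeff_q1 (w : List (Fin 3)) (j : ℕ) :
    (((csimPQ F w).2).coeff 1).coeff j =
      if w = 0 :: (List.replicate j 2 ++ [1]) then 1 else 0 := by
  cases w with
  | nil => simp [csimPQ_nil, Polynomial.coeff_one]
  | cons x w =>
    rcases csim_fin3 x with rfl | rfl | rfl
    · rw [csimPQ_zero]
      simp only [Polynomial.coeff_X_mul, csimPQ_coeff_p0]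
      simp
    · simp [csimPQ_one]
    · simp [csimPQ_two]

/-- The polynomial attached to `D`. -/
noncomputable def csimG (D : List (Fin 3) →₀ F) : F[X][X] :=
  D.sum fun w c => C (C c) * (csimPQ F w).2

theorem csimG_coeff (D : List (Fin 3) →₀ F) (j : ℕ) :
    ((csimG D).coeff 1).coeff j = D (0 :: (List.replicate j 2 ++ [1])) := by
  classical
  rw [csimG, Finsupp.sum, Polynomial.finsetSum_coeff, Polynomial.finsetSum_coeff]
  simp only [Polynomial.coeff_C_mul, csimPQ_coeff_q1]
  simp only [mul_ite, mul_one, mul_zero, Finset.sum_ite_eq', Finsupp.mem_support_iff, ne_eq,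
    ite_not, ite_eq_right_iff]
  exact fun h => h.symm

variable {R : Type v} [Ring R] [Algebra F R] {N : Type w} [AddCommGroup N] [Module R N]
  {K : Type w} [Field K] [Module K N] [SMulCommClass R K N]

/-- Evaluation. -/
noncomputable def csimE (φ : F →+* K) (lam tau : K) : F[X][X] →+* K :=
  eval₂RingHom (eval₂RingHom φ tau) lam

theorem csimE_X (φ : F →+* K) (lam tau : K) : csimE φ lam tau X = lam := by
  simp [csimE]

theorem csimE_CX (φ : F →+* K) (lam tau : K) : csimE φ lam tau (C X) = tau := by
  simp [csimE]

theorem csimE_CC (φ : F →+* K) (lam tau : K) (c : F) : csimE φ lam tau (C (C c)) = φ c := by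
  simp [csimE]

omit [Algebra F R] in
theorem csim_word (φ : F →+* K) (A : Fin 3 → R) (v1 v2 : N) (lam tau : K)
    (h01 : A 0 • v1 = lam • v2) (h02 : A 0 • v2 = 0) (h11 : A 1 • v1 = 0) (h12 : A 1 • v2 = v1)
    (h21 : A 2 • v1 = tau • v1) (h22 : A 2 • v2 = 0) (w : List (Fin 3)) :
    (w.map A).prod • v2 = csimE φ lam tau (csimPQ F w).1 • v1 +
      csimE φ lam tau (csimPQ F w).2 • v2 := by
  induction w with
  | nil => simp [csimPQ_nil]
  | cons x w ih =>
    rw [List.map_cons, List.prod_cons, mul_smul, ih, smul_add,
      smul_comm (A x) (csimE φ lam tau (csimPQ F w).1), 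
      smul_comm (A x) (csimE φ lam tau (csimPQ F w).2)]
    rcases csim_fin3 x with rfl | rfl | rfl
    · rw [csimPQ_zero, h01, h02]
      simp only [map_zero, zero_smul, smul_zero, add_zero, zero_add, map_mul, csimE_X]
      rw [mul_comm, mul_smul]
    · rw [csimPQ_one, h11, h12]
      simp
    · rw [csimPQ_two, h21, h22]
      simp only [map_zero, zero_smul, smul_zero, add_zero, map_mul, csimE_CX]
      rw [mul_comm, mul_smul]

theorem csim_evD (φ : F →+* K) (hφ : ∀ (c : F) (n : N), algebraMap F R c • n = φ c • n)
    (D : List (Fin 3) →₀ F) (A : Fin 3 → R) (v1 v2 : N) (lam tau : K)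
    (h01 : A 0 • v1 = lam • v2) (h02 : A 0 • v2 = 0) (h11 : A 1 • v1 = 0) (h12 : A 1 • v2 = v1)
    (h21 : A 2 • v1 = tau • v1) (h22 : A 2 • v2 = 0) :
    ∃ s : K, ev D A • v2 = s • v1 + csimE φ lam tau (csimG D) • v2 := by
  refine ⟨csimE φ lam tau (D.sum fun w c => C (C c) * (csimPQ F w).1), ?_⟩
  rw [ev, csimG, Finsupp.sum, Finsupp.sum, Finsupp.sum, Finset.sum_smul, map_sum, map_sum,
    Finset.sum_smul, Finset.sum_smul, ← Finset.sum_add_distrib]
  refine Finset.sum_congr rfl fun w _ => ?_
  rw [Algebra.smul_def, mul_smul, csim_word φ A v1 v2 lam tau h01 h02 h11 h12 h21 h22 w, hφ,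
    smul_add, map_mul, map_mul, csimE_CC, mul_smul, mul_smul]

theorem csim_card_field_le (D : List (Fin 3) →₀ F) (hD : GoodD D) (K : Type w) [Field K] [Finite K]
    (φ : F →+* K) (h : ∀ lam tau : K, csimE φ lam tau (csimG D) = 0) :
    Nat.card K ≤ max (csimG D).natDegree ((csimG D).coeff 1).natDegree := by
  classical
  have : Fintype K := Fintype.ofFinite K
  by_contra hlt
  push Not at hlt
  rw [Nat.card_eq_fintype_card] at hlt
  have h1 : (csimG D).natDegree < Fintype.card K := lt_of_le_of_lt (le_max_left _ _) hlt
  have h2 : ((csimG D).coeff 1).natDegree < Fintype.card K := lt_of_le_of_lt (le_max_right _ _) hlt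
  obtain ⟨j, hj⟩ := hD.2
  have h3 : (csimG D).coeff 1 ≠ 0 := by
    intro h0
    apply hj
    rw [← csimG_coeff, h0, Polynomial.coeff_zero]
  have h4 : ∃ tau : K, ((csimG D).coeff 1).eval₂ φ tau ≠ 0 := by
    by_contra hne
    push Not at hne
    have h5 : ((csimG D).coeff 1).map φ = 0 := by
      refine Polynomial.eq_zero_of_natDegree_lt_card_of_eval_eq_zero _
        (Function.injective_id (α := K)) (fun i => ?_)
        (lt_of_le_of_lt Polynomial.natDegree_map_le h2)
      rw [Polynomial.eval_map]
      exact hne i
    rw [Polynomial.map_eq_zero] at h5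
    exact h3 h5
  obtain ⟨tau, ht⟩ := h4
  have h6 : (csimG D).map (eval₂RingHom φ tau) = 0 := by
    refine Polynomial.eq_zero_of_natDegree_lt_card_of_eval_eq_zero _
      (Function.injective_id (α := K)) (fun i => ?_)
      (lt_of_le_of_lt Polynomial.natDegree_map_le h1)
    rw [Polynomial.eval_map]
    exact h i tau
  apply ht
  have h7 := congrArg (fun p => Polynomial.coeff p 1) h6
  simpa using h7

end Core

section C2

variable {R : Type v} [Ring R] {N : Type w} [AddCommGroup N] [Module R N] [IsSimpleModule R N]

/-- The ground field acts by endomorphisms. -/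
noncomputable def csimPhi (F : Type u) [Field F] (R : Type v) [Ring R] [Algebra F R]
    (N : Type w) [AddCommGroup N] [Module R N] : F →+* Module.End R N where
  toFun c :=
    { toFun := fun n => algebraMap F R c • n
      map_add' := fun a b => smul_add _ _ _
      map_smul' := fun r n => by
        rw [RingHom.id_apply, ← mul_smul, ← mul_smul, Algebra.commutes] }
  map_one' := by ext n; simp
  map_mul' a b := by
    ext n
    change algebraMap F R (a * b) • n = algebraMap F R a • (algebraMap F R b • n)
    rw [map_mul, mul_smul]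
  map_zero' := by ext n; simp
  map_add' a b := by ext n; simp [add_smul]

/-- A bound for the finite simple modules on which commutators do not act as zero. -/
theorem card_le_of_isSimpleModule {F : Type u} [Field F] [Finite F] (D : List (Fin 3) →₀ F)
    (hD : GoodD D) {d : ℕ} (α : Perm (Fin d) → F) (hα : α 1 = 1) :
    ∃ B : ℕ, ∀ (R : Type v) [Ring R] [Algebra F R] (I : Ideal R) [I.IsTwoSided],
      CMLId α R → DId D (I : Set R) → (∀ x y : R, x * y - y * x ∈ I) →
      ∀ (N : Type w) [AddCommGroup N] [Module R N] [IsSimpleModule R N] [Finite N],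
        (∀ x y : R, ∀ n : N, (x * y - y * x) • n = 0) ∨ Nat.card N ≤ B := by
  classical
  refine ⟨(max (csimG D).natDegree ((csimG D).coeff 1).natDegree) ^ (2 * d), ?_⟩
  intro R _ _ I _ hR hDI hI N _ _ _ _
  by_cases hIN : ∃ x ∈ I, ∃ m : N, x • m ≠ 0
  swap
  · left
    intro x y n
    by_contra hne
    exact hIN ⟨_, hI x y, n, hne⟩
  have hfin : Finite (Module.End R N) := DFunLike.finite _
  obtain ⟨n, hn, ⟨b⟩⟩ := csim_exists_basis (N := N) α hα hR
  have hcomm : ∀ a b : Module.End R N, a * b = b * a := fun a b => mul_comm a b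
  by_cases hn2 : 2 ≤ n
  · right
    have hcard : Nat.card (Module.End R N) ≤
        max (csimG D).natDegree ((csimG D).coeff 1).natDegree := by
      refine csim_card_field_le D hD (Module.End R N) (csimPhi F R N) ?_
      intro lam tau
      have hli : LinearIndependent (Module.End R N) ![b ⟨0, by omega⟩, b ⟨1, by omega⟩] := by
        have := b.linearIndependent.comp ![(⟨0, by omega⟩ : Fin n), ⟨1, by omega⟩] (by
          intro i j hij
          fin_cases i <;> fin_cases j <;> simp at hij ⊢)
        convert this using 1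
        ext i
        fin_cases i <;> rfl
      obtain ⟨a0, ha0, h0⟩ := csim_density_ideal I hIN _ hli ![lam • b ⟨1, by omega⟩, 0]
      obtain ⟨a1, ha1, h1⟩ := csim_density_ideal I hIN _ hli ![0, b ⟨0, by omega⟩]
      obtain ⟨a2, ha2, h2⟩ := csim_density_ideal I hIN _ hli ![tau • b ⟨0, by omega⟩, 0]
      have hA : ev D ![a0, a1, a2] = 0 := hDI _ (fun i => by fin_cases i <;> simpa)
      obtain ⟨s, hs⟩ := csim_evD (K := Module.End R N) (csimPhi F R N)
        (fun c n => rfl) D ![a0, a1, a2] (b ⟨0, by omega⟩) (b ⟨1, by omega⟩) lam tau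
        (h0 0) (h0 1) (h1 0) (h1 1) (h2 0) (h2 1)
      rw [hA, zero_smul] at hs
      have h3 := LinearIndependent.pair_iff.1 hli s _ hs.symm
      exact h3.2
    have hN : Nat.card N = Nat.card (Module.End R N) ^ n := by
      rw [Nat.card_congr b.equivFun.toEquiv, Nat.card_fun, Nat.card_fin]
    have h1 : 1 ≤ Nat.card (Module.End R N) := Nat.card_pos
    rw [hN]
    exact le_trans (Nat.pow_le_pow_left hcard n) (Nat.pow_le_pow_right (le_trans h1 hcard) hn)
  · left
    have hone : ∀ (r : R) (i : Fin n), ∃ δ : Module.End R N, r • b i = δ • b i := by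
      intro r i
      refine ⟨b.repr (r • b i) i, ?_⟩
      have hs := b.sum_repr (r • b i)
      rw [Finset.sum_eq_single i] at hs
      · exact hs.symm
      · intro j _ hj
        exact absurd (Fin.ext (by omega)) hj
      · intro h
        exact absurd (Finset.mem_univ _) h
    intro x y m
    have hz : ∀ i : Fin n, (x * y - y * x) • b i = 0 := by
      intro i
      obtain ⟨δ, hδ⟩ := hone x i
      obtain ⟨ε, hε⟩ := hone y i
      rw [sub_smul, mul_smul, mul_smul, hδ, hε, smul_comm x ε, smul_comm y δ, hδ, hε,
        ← mul_smul, ← mul_smul, hcomm, sub_self]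
    rw [← b.sum_repr m, Finset.smul_sum]
    refine Finset.sum_eq_zero fun i _ => ?_
    rw [smul_comm, hz, smul_zero]

end C2

/-- Finiteness of a simple module with a finite basis over a commuting field. -/
theorem csim_finite_aux {F : Type u} [Field F] [Finite F] {R : Type v} [Ring R] [Algebra F R]
    [Algebra.FiniteType F R] {N : Type w} [AddCommGroup N] [Module R N] [IsSimpleModule R N]
    {n' : ℕ} (b' : Module.Basis (Fin n') (Module.End R N) N)
    {E : Type w} [Field E] [Algebra F E] [Module E N] [SMulCommClass R E N]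
    (hF : ∀ (c : F) (m : N), algebraMap F R c • m = algebraMap F E c • m)
    {n : ℕ} (b : Module.Basis (Fin n) E N) : Finite N := by
  classical
  have hnt : Nontrivial N := IsSimpleModule.nontrivial R N
  have hn : Nonempty (Fin n) := by
    by_contra hne
    rw [not_nonempty_iff] at hne
    have : Subsingleton N := b.equivFun.toEquiv.subsingleton
    exact not_subsingleton N this
  let Φ : R →+* Matrix (Fin n) (Fin n) E :=
    (LinearMap.toMatrixAlgEquiv b).toRingEquiv.toRingHom.comp (Module.toModuleEnd E N)
  have hΦ : ∀ r i j, Φ r i j = b.repr (r • b j) i := by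
    intro r i j
    exact LinearMap.toMatrix_apply b b _ i j
  obtain ⟨s, hs⟩ := Algebra.FiniteType.out (R := F) (A := R)
  let K0 : Subalgebra F E :=
    Algebra.adjoin F (Set.range fun p : s × Fin n × Fin n => Φ p.1 p.2.1 p.2.2)
  have hK0fg : Algebra.FiniteType F K0 := by
    rw [← Subalgebra.fg_iff_finiteType]
    exact Subalgebra.fg_def.2 ⟨_, Set.finite_range _, rfl⟩
  have hmem : ∀ r i j, Φ r i j ∈ K0 := by
    intro r
    have hr : r ∈ Algebra.adjoin F (s : Set R) := by rw [hs]; trivial
    induction hr using Algebra.adjoin_induction with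
    | mem x hx =>
      intro i j
      exact Algebra.subset_adjoin ⟨(⟨x, hx⟩, i, j), rfl⟩
    | algebraMap c =>
      intro i j
      rw [hΦ, hF, map_smul, b.repr_self, Finsupp.smul_single, Finsupp.single_apply]
      split_ifs
      · rw [smul_eq_mul, mul_one]; exact K0.algebraMap_mem c
      · exact K0.zero_mem
    | add x y _ _ hx hy =>
      intro i j
      rw [map_add]
      exact K0.add_mem (hx i j) (hy i j)
    | mul x y _ _ hx hy =>
      intro i j
      rw [map_mul, Matrix.mul_apply]
      exact K0.sum_mem fun k _ => K0.mul_mem (hx i k) (hy k j)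
  let Φ0 : R →+* Matrix (Fin n) (Fin n) K0 :=
    { toFun := fun r => Matrix.of fun i j => ⟨Φ r i j, hmem r i j⟩
      map_one' := by
        ext i j
        simp only [map_one, Matrix.of_apply, Matrix.one_apply]
        split_ifs <;> rfl
      map_mul' := fun x y => by
        ext i j
        simp [Matrix.mul_apply]
      map_zero' := by
        ext i j
        simp
      map_add' := fun x y => by
        ext i j
        simp }
  have hΦ0 : ∀ r, Φ0 r = 0 → Φ r = 0 := by
    intro r hr
    ext i j
    have := congrArg (fun M : Matrix (Fin n) (Fin n) K0 => ((M i j : K0) : E)) hr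
    exact this
  have hΦ0' : ∀ r, Φ r = 0 → Φ0 r = 0 := by
    intro r hr
    ext i j
    have := congrArg (fun M : Matrix (Fin n) (Fin n) E => M i j) hr
    exact this
  have hΦker : ∀ r, (∀ m : N, r • m = 0) → Φ r = 0 := by
    intro r hr
    ext i j
    rw [hΦ, hr]
    simp
  obtain ⟨m0, hm0⟩ := Ideal.exists_maximal K0
  let q : K0 →+* K0 ⧸ m0 := Ideal.Quotient.mk m0
  let _ : Field (K0 ⧸ m0) := Ideal.Quotient.field m0
  have hfin1 : Module.Finite F (K0 ⧸ m0) := finite_of_finite_type_of_isJacobsonRing F (K0 ⧸ m0)
  have hfin2 : Finite (K0 ⧸ m0) := Module.finite_of_finite F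
  let ψ : R →+* Matrix (Fin n) (Fin n) (K0 ⧸ m0) := q.mapMatrix.comp Φ0
  have hψ : ∀ r, (∀ m : N, r • m = 0) → ψ r = 0 := by
    intro r hr
    rw [RingHom.comp_apply, hΦ0' r (hΦker r hr), map_zero]
  have hker : ∀ r, ψ r = 0 → ∀ m : N, r • m = 0 := by
    intro r hr m
    by_contra hne
    obtain ⟨x, hx, hxb⟩ := csim_density_ideal (RingHom.ker ψ) ⟨r, hr, m, hne⟩ b'
      b'.linearIndependent b'
    have h1 : ∀ m : N, (1 - x) • m = 0 := by
      intro m
      rw [← b'.sum_repr m, Finset.smul_sum]
      refine Finset.sum_eq_zero fun i _ => ?_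
      rw [smul_comm, sub_smul, hxb, one_smul, sub_self, smul_zero]
    have h2 := hψ _ h1
    rw [map_sub, map_one, (RingHom.mem_ker).1 hx, sub_zero] at h2
    exact one_ne_zero h2
  obtain ⟨v, hv⟩ := exists_ne (0 : N)
  have hsurj := IsSimpleModule.toSpanSingleton_surjective R hv
  let g : Matrix (Fin n) (Fin n) (K0 ⧸ m0) → N := fun M =>
    if h : ∃ r, ψ r = M then h.choose • v else 0
  refine Finite.of_surjective g fun m => ?_
  obtain ⟨r, hr⟩ := hsurj m
  refine ⟨ψ r, ?_⟩
  have h : ∃ r', ψ r' = ψ r := ⟨r, rfl⟩
  have h1 : g (ψ r) = h.choose • v := dif_pos h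
  rw [h1, ← hr]
  have h2 : ψ (h.choose - r) = 0 := by rw [map_sub, h.choose_spec, sub_self]
  have h3 := hker _ h2 v
  rw [sub_smul, sub_eq_zero] at h3
  exact h3

/-- A ring has a subset equal to its own centralizer. -/
theorem csim_exists_maxcomm (A : Type w) [Ring A] :
    ∃ M : Set A, Set.centralizer M = M := by
  obtain ⟨M, hM⟩ := zorn_subset {s : Set A | ∀ a ∈ s, ∀ b ∈ s, a * b = b * a} (by
    intro c hc hchain
    refine ⟨⋃₀ c, ?_, fun s hs => Set.subset_sUnion_of_mem hs⟩
    rintro a ⟨s, hs, ha⟩ b ⟨t, ht, hb⟩
    rcases hchain.total hs ht with hst | hst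
    · exact hc ht a (hst ha) b hb
    · exact hc hs a ha b (hst hb))
  refine ⟨M, Set.Subset.antisymm ?_ ?_⟩
  · intro a ha
    have h1 : insert a M ∈ {s : Set A | ∀ a ∈ s, ∀ b ∈ s, a * b = b * a} := by
      intro x hx y hy
      rcases hx with rfl | hx <;> rcases hy with rfl | hy
      · rfl
      · exact (ha y hy).symm
      · exact ha x hx
      · exact hM.prop x hx y hy
    exact hM.le_of_ge h1 (Set.subset_insert a M) (Set.mem_insert a M)
  · intro a ha b hb
    exact hM.prop b hb a ha

/-- A multilinear map vanishing on a set vanishes on its span. -/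
theorem csim_mlin {F : Type u} [Field F] {d : ℕ} {S : Type v} [Ring S] [Algebra F S]
    (g : MultilinearMap F (fun _ : Fin d => S) S) (T : Set S)
    (h : ∀ c, (∀ i, c i ∈ T) → g c = 0) (c : Fin d → S)
    (hc : ∀ i, c i ∈ Submodule.span F T) : g c = 0 := by
  classical
  suffices ∀ s : Finset (Fin d), ∀ c : Fin d → S, (∀ i ∈ s, c i ∈ Submodule.span F T) →
      (∀ i ∉ s, c i ∈ T) → g c = 0 by
    exact this Finset.univ c (fun i _ => hc i) (fun i hi => absurd (Finset.mem_univ i) hi)
  intro s
  induction s using Finset.induction_on with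
  | empty => exact fun c _ hc => h c fun i => hc i (Finset.notMem_empty i)
  | insert a s ha ih =>
    intro c hc1 hc2
    have h1 : ∀ t ∈ Submodule.span F T, g.toLinearMap c a t = 0 := by
      intro t ht
      induction ht using Submodule.span_induction with
      | mem t ht =>
        rw [MultilinearMap.toLinearMap_apply]
        apply ih
        · intro i hi
          rw [Function.update_of_ne (by rintro rfl; exact ha hi)]
          exact hc1 i (Finset.mem_insert_of_mem hi)
        · intro i hi
          by_cases hia : i = a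
          · subst hia
            rw [Function.update_self]
            exact ht
          · rw [Function.update_of_ne hia]
            exact hc2 i (by
              rw [Finset.mem_insert]
              push Not
              exact ⟨hia, hi⟩)
      | zero => rw [map_zero]
      | add x y _ _ hx hy => rw [map_add, hx, hy, add_zero]
      | smul r x _ hx => rw [map_smul, hx, smul_zero]
    have h2 := h1 (c a) (hc1 a (Finset.mem_insert_self a s))
    rwa [MultilinearMap.toLinearMap_apply, Function.update_eq_self] at h2

open TensorProduct in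
/-- The commutator identity passes to tensor products with commutative algebras. -/
theorem csim_cmlid_tensor {F : Type u} [Field F] {d : ℕ} (α : Perm (Fin d) → F)
    {R : Type v} [Ring R] [Algebra F R] (hR : CMLId α R) (K : Type w) [CommRing K] [Algebra F K] :
    CMLId α (K ⊗[F] R) := by
  classical
  let T : Set (K ⊗[F] R) := {t | ∃ (k : K) (r s : R), t = k ⊗ₜ[F] (r * s - s * r)}
  have hcomm : ∀ x y : K ⊗[F] R, x * y - y * x ∈ Submodule.span F T := by
    intro x y
    induction x using TensorProduct.induction_on with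
    | zero => simp
    | tmul k r =>
      induction y using TensorProduct.induction_on with
      | zero => simp
      | tmul l s =>
        apply Submodule.subset_span
        refine ⟨k * l, r, s, ?_⟩
        rw [Algebra.TensorProduct.tmul_mul_tmul, Algebra.TensorProduct.tmul_mul_tmul, mul_comm l k,
          TensorProduct.tmul_sub]
      | add y z hy hz =>
        have := Submodule.add_mem _ hy hz
        convert this using 1
        rw [mul_add, add_mul]; abel
    | add x z hx hz =>
      have := Submodule.add_mem _ hx hz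
      convert this using 1
      rw [mul_add, add_mul]; abel
  let g : MultilinearMap F (fun _ : Fin d => K ⊗[F] R) (K ⊗[F] R) :=
    ∑ σ : Perm (Fin d), α σ • (MultilinearMap.mkPiAlgebraFin F d (K ⊗[F] R)).domDomCongr σ
  have hg : ∀ c : Fin d → K ⊗[F] R, g c = ∑ σ, α σ • (List.ofFn fun i => c (σ i)).prod := by
    intro c
    simp only [g, sum_apply, smul_apply]
    rfl
  intro x y
  have h0 : g (fun i => x i * y i - y i * x i) = 0 := by
    apply csim_mlin g T
    · intro c hc
      choose k r s hcs using hc
      rw [hg]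
      have h1 : ∀ σ : Perm (Fin d), (List.ofFn fun i => c (σ i)).prod =
          (∏ i, k i) ⊗ₜ[F] (List.ofFn fun i => r (σ i) * s (σ i) - s (σ i) * r (σ i)).prod := by
        intro σ
        have h2 : ∀ l : List (Fin d), (l.map c).prod =
            (l.map k).prod ⊗ₜ[F] (l.map fun i => r i * s i - s i * r i).prod := by
          intro l
          induction l with
          | nil => simp [Algebra.TensorProduct.one_def]
          | cons a l ih =>
            rw [List.map_cons, List.prod_cons, ih, hcs, Algebra.TensorProduct.tmul_mul_tmul,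
              List.map_cons, List.prod_cons, List.map_cons, List.prod_cons]
        have h3 := h2 (List.ofFn σ)
        rw [List.map_ofFn, List.map_ofFn, List.map_ofFn] at h3
        have h4 : (List.ofFn (k ∘ σ)).prod = ∏ i, k i := by
          rw [List.prod_ofFn]
          exact Equiv.prod_comp σ k
        rw [h4] at h3
        exact h3
      simp only [h1]
      simp only [← TensorProduct.tmul_smul]
      rw [← TensorProduct.tmul_sum, hR r s, TensorProduct.tmul_zero]
    · exact fun i => hcomm _ _
  rw [hg] at h0
  exact h0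

open TensorProduct in
theorem csim_C1_aux {F : Type u} [Field F] [Finite F] {d : ℕ}
    (α : Perm (Fin d) → F) (hα : α 1 = 1) (R : Type v) [Ring R] [Algebra F R]
    [Algebra.FiniteType F R] (hR : CMLId α R)
    (N : Type w) [AddCommGroup N] [Module R N] [IsSimpleModule R N]
    [Module F N] [IsScalarTower F R N]
    (K : Type w) [CommRing K] [Algebra F K] [Module K N] [IsScalarTower F K N]
    [SMulCommClass K R N]
    (hK : ∀ δ : Module.End R N, (∀ (k : K) (m : N), δ (k • m) = k • δ m) →
      ∃ k : K, ∀ m, δ m = k • m) : Finite N := by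
  classical
  have hnt : Nontrivial N := IsSimpleModule.nontrivial R N
  let _ : Module (K ⊗[F] R) N := TensorProduct.Algebra.module
  have hsm : ∀ (k : K) (r : R) (m : N), (k ⊗ₜ[F] r) • m = k • r • m := fun k r m => rfl
  have hsimple : IsSimpleModule (K ⊗[F] R) N := by
    rw [isSimpleModule_iff_toSpanSingleton_surjective]
    refine ⟨hnt, fun m hm m' => ?_⟩
    obtain ⟨r, hr⟩ := IsSimpleModule.toSpanSingleton_surjective R hm m'
    refine ⟨(1 : K) ⊗ₜ[F] r, ?_⟩
    rw [LinearMap.toSpanSingleton_apply, hsm, one_smul]
    exact hr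
  have hS := csim_cmlid_tensor α hR K
  obtain ⟨n', _, ⟨b'⟩⟩ := csim_exists_basis (N := N) α hα hR
  obtain ⟨n, _, ⟨b⟩⟩ := csim_exists_basis (N := N) α hα hS
  have hEk : ∀ e : Module.End (K ⊗[F] R) N, ∃ k : K, ∀ m, e m = k • m := by
    intro e
    have he1 : ∀ (r : R) (m : N), e (r • m) = r • e m := by
      intro r m
      have := e.map_smul ((1 : K) ⊗ₜ[F] r) m
      rwa [hsm, hsm, one_smul, one_smul] at this
    have he2 : ∀ (k : K) (m : N), e (k • m) = k • e m := by
      intro k m
      have := e.map_smul (k ⊗ₜ[F] (1 : R)) m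
      rwa [hsm, hsm, one_smul, one_smul] at this
    exact hK { toFun := e, map_add' := e.map_add, map_smul' := he1 } he2
  have hEcomm : ∀ e e' : Module.End (K ⊗[F] R) N, e * e' = e' * e := by
    intro e e'
    obtain ⟨k, hk⟩ := hEk e
    obtain ⟨k', hk'⟩ := hEk e'
    ext m
    rw [Module.End.mul_apply, Module.End.mul_apply, hk, hk', hk', hk, ← mul_smul, ← mul_smul,
      mul_comm]
  let _ : Field (Module.End (K ⊗[F] R) N) :=
    { (Module.End.instDivisionRing : DivisionRing (Module.End (K ⊗[F] R) N)) with
      mul_comm := hEcomm }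
  let _ : Algebra F (Module.End (K ⊗[F] R) N) := RingHom.toAlgebra (csimPhi F (K ⊗[F] R) N)
  have : SMulCommClass R (Module.End (K ⊗[F] R) N) N := by
    refine ⟨fun r e m => ?_⟩
    have := e.map_smul ((1 : K) ⊗ₜ[F] r) m
    rw [hsm, hsm, one_smul, one_smul] at this
    exact this.symm
  refine csim_finite_aux (F := F) (R := R) b' (E := Module.End (K ⊗[F] R) N) ?_ b
  intro c m
  have h1 : algebraMap F (Module.End (K ⊗[F] R) N) c • m =
      (algebraMap F (K ⊗[F] R) c) • m := rfl
  rw [h1, Algebra.TensorProduct.algebraMap_apply, hsm, one_smul, algebraMap_smul, algebraMap_smul]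

/-- Simple modules of finitely generated algebras over a finite field satisfying a multilinear
identity on commutators are finite. -/
theorem finite_of_isSimpleModule {F : Type u} [Field F] [Finite F] {d : ℕ}
    (α : Perm (Fin d) → F) (hα : α 1 = 1) (R : Type v) [Ring R] [Algebra F R]
    [Algebra.FiniteType F R] (hR : CMLId α R)
    (N : Type w) [AddCommGroup N] [Module R N] [IsSimpleModule R N] : Finite N := by
  let _ : Module F N := Module.compHom N (algebraMap F R)
  have : IsScalarTower F R N := ⟨fun c r m => by
    rw [Algebra.smul_def, mul_smul]; rfl⟩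
  obtain ⟨M, hM⟩ := csim_exists_maxcomm (Module.End R N)
  let K : Subalgebra F (Module.End R N) := Subalgebra.centralizer F M
  have hKM : ∀ k, k ∈ K ↔ k ∈ M := by
    intro k
    rw [Subalgebra.mem_centralizer_iff, ← Set.mem_centralizer_iff, hM]
  let _ : CommRing K :=
    { (inferInstance : Ring K) with
      mul_comm := fun a b => Subtype.ext (by
        have h1 : (a : Module.End R N) ∈ Set.centralizer M := by
          rw [hM]; exact (hKM a).1 a.2
        exact ((Set.mem_centralizer_iff.1 h1) b ((hKM b).1 b.2)).symm) }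
  refine csim_C1_aux α hα R hR N K ?_
  intro δ hδ
  have h1 : δ ∈ M := by
    rw [← hM, Set.mem_centralizer_iff]
    intro k hk
    ext m
    exact (hδ ⟨k, (hKM k).2 hk⟩ m).symm
  exact ⟨⟨δ, (hKM δ).2 h1⟩, fun m => rfl⟩

end Pool.Agent.Lib.MP_5aea19_al
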