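import Mathlib
import Pool.Agent.Lib.MP_5aea19_al.Defs
import Pool.Agent.Lib.MP_5aea19_al.Simple

set_option autoImplicit false

namespace Pool.Agent.Lib.MP_5aea19_al

open Equiv Polynomial

universe u v w

variable {F : Type u} [Field F] {d : ℕ} {α : Perm (Fin d) → F}
  {R : Type v} [Ring R] [Algebra F R]

theorem multilinear_eq_zero {ι : Type*} [DecidableEq ι] [Fintype ι] {M N : Type*}
    [AddCommGroup M] [Module F M] [AddCommGroup N] [Module F N]
    (f : MultilinearMap F (fun _ : ι => M) N) (S : Set M) (hS : Submodule.span F S = ⊤)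
    (h : ∀ a : ι → M, (∀ i, a i ∈ S) → f a = 0) (a : ι → M) : f a = 0 := by
  have key : ∀ (s : Finset ι) (a : ι → M), (∀ i, i ∉ s → a i ∈ S) → f a = 0 := by
    intro s
    induction s using Finset.induction_on with
    | empty => intro a ha; exact h a (fun i => ha i (by simp))
    | insert j s hj ih =>
      intro a ha
      have h1 : ∀ z : M, f (Function.update a j z) = 0 := by
        intro z
        have hz : z ∈ Submodule.span F S := by rw [hS]; trivial
        induction hz using Submodule.span_induction with
        | mem z hz =>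
          refine ih _ ?_
          intro i hi
          by_cases hij : i = j
          · subst hij
            rwa [Function.update_self]
          · rw [Function.update_of_ne hij]
            exact ha i (by simp [hij, hi])
        | zero => exact f.map_update_zero a j
        | add x y _ _ hx hy => rw [f.map_update_add, hx, hy, add_zero]
        | smul c x _ hx => rw [f.map_update_smul, hx, smul_zero]
      have := h1 (a j)
      rwa [Function.update_eq_self] at this
  exact key Finset.univ a (fun i hi => absurd (Finset.mem_univ i) hi)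

/-- the commutator identity as a multilinear map in the first variables -/
noncomputable def commMap (F : Type u) [Field F] {d : ℕ} (α : Perm (Fin d) → F) {P : Type v}
    [Ring P] [Algebra F P] (g : Fin d → P →ₗ[F] P) :
    MultilinearMap F (fun _ : Fin d => P) P :=
  ∑ σ, α σ • ((MultilinearMap.mkPiAlgebraFin F d P).compLinearMap
    (fun i => g (σ i))).domDomCongr σ

theorem commMap_apply {P : Type v} [Ring P] [Algebra F P] (g : Fin d → P →ₗ[F] P)
    (x : Fin d → P) : commMap F α g x = ∑ σ, α σ • (List.ofFn fun i => g (σ i) (x (σ i))).prod := by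
  simp [commMap]

theorem cmlId_polynomial (hR : CMLId α R) : CMLId α R[X] := by
  have hspan : Submodule.span F {p : R[X] | ∃ (n : ℕ) (r : R), p = monomial n r} = ⊤ := by
    rw [eq_top_iff]
    intro p _
    induction p using Polynomial.induction_on' with
    | add p q hp hq => exact Submodule.add_mem _ (hp trivial) (hq trivial)
    | monomial n r => exact Submodule.subset_span ⟨n, r, rfl⟩
  have h1 : ∀ (x y : Fin d → R[X]), (∀ i, ∃ (n : ℕ) (r : R), x i = monomial n r) →
      (∀ i, ∃ (n : ℕ) (r : R), y i = monomial n r) →
      ∑ σ, α σ • (List.ofFn fun i => x (σ i) * y (σ i) - y (σ i) * x (σ i)).prod = 0 := by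
    intro x y hx hy
    choose m r hr using hx
    choose n s hs using hy
    have h2 : ∀ i, x i * y i - y i * x i = monomial (m i + n i) (r i * s i - s i * r i) := by
      intro i
      rw [hr, hs, monomial_mul_monomial, monomial_mul_monomial, add_comm (n i) (m i), ← map_sub]
    have h3 : ∀ (l : List (Fin d)), (l.map fun i => monomial (m i + n i)
        (r i * s i - s i * r i)).prod = monomial ((l.map fun i => m i + n i).sum)
        ((l.map fun i => r i * s i - s i * r i).prod) := by
      intro l
      induction l with
      | nil => simp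
      | cons i l ih =>
        rw [List.map_cons, List.prod_cons, ih, monomial_mul_monomial]
        simp
    have h4 : ∀ σ : Perm (Fin d), ((List.ofFn σ).map fun i => m i + n i).sum =
        ∑ i, (m i + n i) := by
      intro σ
      rw [List.map_ofFn, List.sum_ofFn]
      exact Equiv.sum_comp σ (fun i => m i + n i)
    have h5 : ∀ σ : Perm (Fin d), (List.ofFn fun i => x (σ i) * y (σ i) - y (σ i) * x (σ i)).prod =
        monomial (∑ i, (m i + n i)) (List.ofFn fun i => r (σ i) * s (σ i) -
          s (σ i) * r (σ i)).prod := by
      intro σ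
      rw [← h4 σ]
      have := h3 (List.ofFn σ)
      rw [List.map_ofFn, List.map_ofFn] at this
      simp only [h2]
      rw [show (List.ofFn fun i => r (σ i) * s (σ i) - s (σ i) * r (σ i)) =
        List.map (fun i => r i * s i - s i * r i) (List.ofFn σ) by rw [List.map_ofFn]; rfl]
      rw [List.map_ofFn]
      exact this
    simp only [h5]
    have h6 := hR r s
    have h7 := congrArg (monomial (∑ i, (m i + n i))) h6
    rw [map_sum, map_zero] at h7
    rw [← h7]
    refine Finset.sum_congr rfl ?_
    intro σ _
    rw [smul_monomial]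
  have h8 : ∀ (x y : Fin d → R[X]), (∀ i, ∃ (n : ℕ) (r : R), y i = monomial n r) →
      ∑ σ, α σ • (List.ofFn fun i => x (σ i) * y (σ i) - y (σ i) * x (σ i)).prod = 0 := by
    intro x y hy
    have h9 := multilinear_eq_zero (commMap F α (P := R[X])
      (fun i => LinearMap.mulRight F (y i) - LinearMap.mulLeft F (y i)))
      {p : R[X] | ∃ (n : ℕ) (r : R), p = monomial n r} hspan (by
        intro a ha
        rw [commMap_apply]
        exact h1 a y ha hy) x
    rwa [commMap_apply] at h9
  intro x y
  have h9 := multilinear_eq_zero (commMap F α (P := R[X])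
    (fun i => LinearMap.mulLeft F (x i) - LinearMap.mulRight F (x i)))
    {p : R[X] | ∃ (n : ℕ) (r : R), p = monomial n r} hspan (by
      intro a ha
      rw [commMap_apply]
      exact h8 x a ha) y
  rwa [commMap_apply] at h9

theorem finiteType_polynomial [Algebra.FiniteType F R] : Algebra.FiniteType F R[X] := by
  classical
  obtain ⟨S, hS⟩ := Algebra.FiniteType.out (R := F) (A := R)
  refine ⟨⟨insert X (S.image C), ?_⟩⟩
  rw [eq_top_iff]
  intro p _
  set T := Algebra.adjoin F (((insert X (S.image C) : Finset R[X])) : Set R[X]) with hT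
  have hX : (X : R[X]) ∈ T := Algebra.subset_adjoin (by simp)
  have hC : ∀ r : R, C r ∈ T := by
    intro r
    have hr : r ∈ Algebra.adjoin F (S : Set R) := by rw [hS]; trivial
    induction hr using Algebra.adjoin_induction with
    | mem x hx => exact Algebra.subset_adjoin (by simpa using Or.inr hx)
    | algebraMap c => exact T.algebraMap_mem c
    | add x y _ _ hx hy => rw [C_add]; exact T.add_mem hx hy
    | mul x y _ _ hx hy => rw [C_mul]; exact T.mul_mem hx hy
  induction p using Polynomial.induction_on' with
  | add p q hp hq => exact T.add_mem (hp trivial) (hq trivial)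
  | monomial n r =>
    rw [← C_mul_X_pow_eq_monomial]
    exact T.mul_mem (hC r) (T.pow_mem hX n)

/-- from a finite module with a non-nilpotent action to a simple one -/
theorem exists_simple_of_finite (u : R) : ∀ (n : ℕ) (M : Type v) [AddCommGroup M] [Module R M]
    [Finite M], Nat.card M ≤ n → (∀ k : ℕ, ∃ x : M, u ^ k • x ≠ 0) →
    ∃ (N : Type v) (_ : AddCommGroup N) (_ : Module R N), IsSimpleModule R N ∧ Finite N ∧
      ∃ x : N, u • x ≠ 0 := by
  intro n
  induction n with
  | zero =>
    intro M _ _ _ hM _
    have : 0 < Nat.card M := Nat.card_pos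
    omega
  | succ n ih =>
    intro M _ _ _ hM hu
    by_cases hs : IsSimpleModule R M
    · obtain ⟨x, hx⟩ := hu 1
      exact ⟨M, _, _, hs, ‹_›, x, by simpa using hx⟩
    · have hnt : Nontrivial M := by
        obtain ⟨x, hx⟩ := hu 0
        exact ⟨x, 0, by simpa using hx⟩
      obtain ⟨M1, hM1, hM1'⟩ : ∃ M1 : Submodule R M, M1 ≠ ⊥ ∧ M1 ≠ ⊤ := by
        by_contra hcon
        push Not at hcon
        refine hs ?_
        rw [isSimpleModule_iff]
        exact { eq_bot_or_eq_top := fun N => or_iff_not_imp_left.2 (hcon N) }
      by_cases h1 : ∀ k : ℕ, ∃ x : M1, u ^ k • x ≠ 0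
      · refine ih M1 ?_ h1
        have hlt : Nat.card M1 < Nat.card M := by
          refine Finite.card_subtype_lt (p := fun x => x ∈ M1) (x := ?_) ?_
          · exact ((SetLike.exists_not_mem_of_ne_top M1 hM1' rfl).choose)
          · exact ((SetLike.exists_not_mem_of_ne_top M1 hM1' rfl).choose_spec)
        omega
      · push Not at h1
        obtain ⟨k1, hk1⟩ := h1
        have hfinq : Finite (M ⧸ M1) := Finite.of_surjective _ M1.mkQ_surjective
        by_cases h2 : ∀ k : ℕ, ∃ x : M ⧸ M1, u ^ k • x ≠ 0
        · refine ih (M ⧸ M1) ?_ h2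
          have hlt : Nat.card (M ⧸ M1) < Nat.card M := by
            have h3 := M1.card_eq_card_quotient_mul_card
            have h4 : 1 < Nat.card M1 := by
              have : Nontrivial M1 := (Submodule.nontrivial_iff_ne_bot).2 hM1
              exact Finite.one_lt_card
            have h5 : 0 < Nat.card (M ⧸ M1) := Nat.card_pos
            rw [h3]
            nlinarith
          omega
        · push Not at h2
          obtain ⟨k2, hk2⟩ := h2
          exfalso
          obtain ⟨x, hx⟩ := hu (k1 + k2)
          apply hx
          have h3 : u ^ k2 • x ∈ M1 := by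
            have := hk2 (Submodule.Quotient.mk x)
            rwa [← Submodule.Quotient.mk_smul, Submodule.Quotient.mk_eq_zero] at this
          rw [pow_add, mul_smul]
          exact congrArg Subtype.val (hk1 ⟨_, h3⟩)

/-- `(N)` -/
theorem exists_simple_of_not_nilp [Finite F] (hα : α 1 = 1) [Algebra.FiniteType F R]
    (hR : CMLId α R) (u : R) (hu : ¬ IsNilpotent u) :
    ∃ (N : Type v) (_ : AddCommGroup N) (_ : Module R N), IsSimpleModule R N ∧ Finite N ∧
      ∃ n : N, u • n ≠ 0 := by
  have := finiteType_polynomial (F := F) (R := R)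
  let q : R[X] := 1 - C u * X
  have hq : Ideal.span {q} ≠ ⊤ := by
    intro h
    rw [Ideal.eq_top_iff_one, Ideal.mem_span_singleton'] at h
    obtain ⟨r, hr⟩ := h
    apply hu
    have h1 : ∀ n, r.coeff n = u ^ n := by
      intro n
      induction n with
      | zero =>
        have := congrArg (fun p : R[X] => p.coeff 0) hr
        simpa [q, mul_sub, ← mul_assoc] using this
      | succ n ih =>
        have := congrArg (fun p : R[X] => p.coeff (n + 1)) hr
        simp only [q, mul_sub, mul_one, ← mul_assoc, coeff_sub, coeff_mul_X, coeff_mul_C, ih,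
          coeff_one] at this
        rw [if_neg (by omega), sub_eq_zero] at this
        rw [this, pow_succ]
    refine ⟨r.natDegree + 1, ?_⟩
    rw [← h1]
    exact coeff_eq_zero_of_natDegree_lt (by omega)
  obtain ⟨M, hM, hqM⟩ := Ideal.exists_le_maximal _ hq
  have hsimple : IsSimpleModule R[X] (R[X] ⧸ M) := by
    rw [isSimpleModule_iff_isCoatom]
    exact hM.out
  have hfin : Finite (R[X] ⧸ M) := finite_of_isSimpleModule α hα R[X] (cmlId_polynomial hR) _
  have hsmul : ∀ (r : R) (x : R[X] ⧸ M), r • x = (C r : R[X]) • x := fun r x => by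
    rw [← smul_one_smul R[X] r x, ← C_1, smul_C, smul_eq_mul, mul_one]
  have hsmulpow : ∀ (n : ℕ) (x : R[X] ⧸ M), u ^ n • x = (C u ^ n : R[X]) • x := fun n x => by
    rw [hsmul, C_pow]
  refine exists_simple_of_finite u _ (R[X] ⧸ M) le_rfl ?_
  intro k
  set v : R[X] ⧸ M := Submodule.Quotient.mk 1 with hv
  have hv0 : v ≠ 0 := by
    intro h
    rw [hv, Submodule.Quotient.mk_eq_zero] at h
    exact hM.ne_top ((Ideal.eq_top_iff_one M).2 h)
  have hv1 : (C u * X : R[X]) • v = v := by
    have h1 : q • v = 0 := by
      rw [hv, ← Submodule.Quotient.mk_smul, Submodule.Quotient.mk_eq_zero, smul_eq_mul, mul_one]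
      exact hqM (Ideal.subset_span rfl)
    rw [sub_smul, one_smul, sub_eq_zero] at h1
    exact h1.symm
  have hv2 : ∀ n : ℕ, ((C u * X) ^ n : R[X]) • v = v := by
    intro n
    induction n with
    | zero => simp
    | succ n ih => rw [pow_succ, mul_smul, hv1, ih]
  refine ⟨(X ^ k : R[X]) • v, ?_⟩
  have hcomm : Commute (C u : R[X]) X := (X_mul_C u).symm
  rw [hsmulpow, ← mul_smul, ← hcomm.mul_pow, hv2]
  exact hv0

end Pool.Agent.Lib.MP_5aea19_al
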