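import Mathlib
import Pool.Agent.Lib.MP_5aea19_al.NilComm
import Pool.Agent.Lib.MP_5aea19_al.Nonnilp

set_option autoImplicit false

namespace Pool.Agent.Lib.MP_5aea19_al

open Equiv Polynomial

universe u v w

variable {F : Type u} [Field F] {D : List (Fin 3) →₀ F} {d : ℕ} {α : Perm (Fin d) → F}
  {R : Type v} [Ring R] [Algebra F R] {A : Ideal R} {k : ℕ} {e : Fin k → R}

theorem ts_iInf {ι : Sort*} {P : ι → Submodule F R} (h : ∀ i, TS (P i)) : TS (⨅ i, P i) := by
  refine TS.of_mem ?_ ?_
  · intro r x hx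
    rw [Submodule.mem_iInf] at hx ⊢
    exact fun i => (h i).mul_mem_left r (hx i)
  · intro r x hx
    rw [Submodule.mem_iInf] at hx ⊢
    exact fun i => (h i).mul_mem_right r (hx i)

theorem fi_iInf {ι : Type*} [Finite ι] {P : ι → Submodule F R} (h : ∀ i, FI (P i)) :
    FI (⨅ i, P i) := by
  have := fun i => (fi_iff (P i)).1 (h i)
  refine (fi_ker (V := ∀ i, R ⧸ P i) (LinearMap.pi fun i => (P i).mkQ)).mono ?_
  intro x hx
  rw [Submodule.mem_iInf]
  intro i
  have := congrFun (LinearMap.mem_ker.1 hx) i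
  simpa using this

theorem ts_ker {P : Type w} [Ring P] [Algebra F P] (φ : R →ₐ[F] P) :
    TS (LinearMap.ker φ.toLinearMap) := by
  refine TS.of_mem ?_ ?_
  · intro r x hx
    have hx' : φ x = 0 := hx
    change φ (r * x) = 0
    rw [map_mul, hx', mul_zero]
  · intro r x hx
    have hx' : φ x = 0 := hx
    change φ (x * r) = 0
    rw [map_mul, hx', zero_mul]

/-- the intersection of the kernels of all representations of small degree -/
theorem exists_fi_kernel [Finite F] (htop : Algebra.adjoin F (Set.range e) = ⊤) (B : ℕ) :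
    ∃ I : Submodule F R, TS I ∧ FI I ∧ ∀ (m : ℕ), m ≤ B →
      ∀ φ : R →ₐ[F] Matrix (Fin m) (Fin m) F, ∀ x ∈ I, φ x = 0 := by
  have hfin : ∀ m : ℕ, Finite (R →ₐ[F] Matrix (Fin m) (Fin m) F) := by
    intro m
    have : Finite (Matrix (Fin m) (Fin m) F) := inferInstanceAs (Finite (Fin m → Fin m → F))
    refine Finite.of_injective (fun φ => (φ ∘ e : Fin k → Matrix (Fin m) (Fin m) F)) ?_
    intro φ ψ h
    refine AlgHom.ext_of_adjoin_eq_top htop ?_
    rintro _ ⟨i, rfl⟩
    exact congrFun h i
  let ι := Σ m : Fin (B + 1), (R →ₐ[F] Matrix (Fin m) (Fin m) F)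
  refine ⟨⨅ i : ι, LinearMap.ker i.2.toLinearMap, ts_iInf fun i => ts_ker _,
    fi_iInf fun i => fi_ker _, ?_⟩
  intro m hm φ x hx
  rw [Submodule.mem_iInf] at hx
  exact hx ⟨⟨m, by omega⟩, φ⟩

theorem smul_eq_zero_of_card_le [Finite F] {B : ℕ} {I : Submodule F R}
    (hI : ∀ (m : ℕ), m ≤ B → ∀ φ : R →ₐ[F] Matrix (Fin m) (Fin m) F, ∀ x ∈ I, φ x = 0)
    (N : Type w) [AddCommGroup N] [Module R N] [Finite N] (hN : Nat.card N ≤ B) {x : R}
    (hx : x ∈ I) (n : N) : x • n = 0 := by
  let _ : Module F N := Module.compHom N (algebraMap F R)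
  have : IsScalarTower F R N := ⟨fun c r n => by
    rw [Algebra.smul_def, mul_smul]
    rfl⟩
  have : Module.Finite F N := Module.Finite.of_finite
  let b := Module.finBasis F N
  let φ : R →ₐ[F] Matrix (Fin (Module.finrank F N)) (Fin (Module.finrank F N)) F :=
    (LinearMap.toMatrixAlgEquiv b).toAlgHom.comp (Algebra.lsmul F F N)
  have hm : Module.finrank F N ≤ B := by
    have h1 : Nat.card N = Nat.card F ^ Module.finrank F N := by
      exact Module.natCard_eq_pow_finrank
    have h2 : 2 ≤ Nat.card F := Finite.one_lt_card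
    have h3 : Module.finrank F N < 2 ^ Module.finrank F N := Nat.lt_two_pow_self
    have h4 : 2 ^ Module.finrank F N ≤ Nat.card F ^ Module.finrank F N :=
      Nat.pow_le_pow_left h2 _
    omega
  have h5 := hI _ hm φ x hx
  have h6 : Algebra.lsmul F F N x = 0 := by
    have : (LinearMap.toMatrixAlgEquiv b) (Algebra.lsmul F F N x) = 0 := h5
    simpa using this
  exact LinearMap.congr_fun h6 n

theorem MLId.cml {S : Set R} (h : MLId α S) (hS : ∀ x y : R, x * y - y * x ∈ S) : CMLId α R :=
  fun x y => h (fun i => x i * y i - y i * x i) (fun _ => hS _ _)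

theorem cI_smul_eq_zero {N : Type w} [AddCommGroup N] [Module R N]
    (h : ∀ x y : R, ∀ n : N, (x * y - y * x) • n = 0) {u : R} (hu : u ∈ cI F R) (n : N) :
    u • n = 0 := by
  let K : Submodule F R :=
    { carrier := {r | ∀ n : N, r • n = 0}
      add_mem' := fun ha hb n => by rw [add_smul, ha n, hb n, add_zero]
      zero_mem' := fun n => zero_smul R n
      smul_mem' := fun c r hr n => by
        rw [Algebra.smul_def, mul_smul, hr n, smul_zero] }
  have hK : TS K := TS.of_mem (fun r x hx n => by rw [mul_smul, hx n, smul_zero])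
    (fun r x hx n => by rw [mul_smul]; exact hx _)
  exact cI_le hK h hu n

/-- lifting residual finiteness from the unital hull of an ideal of finite codimension -/
theorem lift_resid {B1 : Submodule F R} (hB : TS B1) (hBfi : FI B1) (R1 : Subalgebra F R)
    (hR1 : B1 ≤ Subalgebra.toSubmodule R1)
    (hres : ∀ h : R1, h ≠ 0 → ∃ I : Submodule F R1, TS I ∧ FI I ∧ h ∉ I) (h : R) (h0 : h ≠ 0) :
    ∃ I : Submodule F R, TS I ∧ FI I ∧ h ∉ I := by
  classical
  by_cases hh : h ∈ B1
  swap
  · exact ⟨B1, hB, hBfi, hh⟩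
  · obtain ⟨K', hK'ts, hK'fi, hK'⟩ := hres ⟨h, hR1 hh⟩ (fun h' => h0 (congrArg Subtype.val h'))
    -- the image in `R`
    set K : Submodule F R := K'.map R1.val.toLinearMap ⊓ B1 with hK
    have hmapfi : FI (K'.map R1.val.toLinearMap) := by
      obtain ⟨P', hP', hPK'⟩ := hK'fi
      obtain ⟨P, hP, hPB⟩ := hBfi
      refine ⟨P ⊔ P'.map R1.val.toLinearMap, hP.sup (hP'.map _), ?_⟩
      rw [sup_assoc, ← Submodule.map_sup, hPK', eq_top_iff, ← hPB]
      refine sup_le_sup_left ?_ _
      intro x hx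
      exact ⟨⟨x, hR1 hx⟩, trivial, rfl⟩
    have hKfi : FI K := fi_inf hmapfi hBfi
    have hhK : h ∉ K := by
      rintro ⟨⟨y, hy, hyh⟩, -⟩
      have : y = ⟨h, hR1 hh⟩ := Subtype.ext hyh
      rw [this] at hy
      exact hK' hy
    have hBK : ∀ x ∈ B1, ∀ y ∈ K, x * y ∈ K := by
      rintro x hx _ ⟨⟨y, hy, rfl⟩, hy'⟩
      refine ⟨⟨⟨x, hR1 hx⟩ * y, hK'ts.mul_mem_left _ hy, rfl⟩, hB.mul_mem_left _ hy'⟩
    have hKB : ∀ x ∈ B1, ∀ y ∈ K, y * x ∈ K := by
      rintro x hx _ ⟨⟨y, hy, rfl⟩, hy'⟩
      refine ⟨⟨y * ⟨x, hR1 hx⟩, hK'ts.mul_mem_right _ hy, rfl⟩, hB.mul_mem_right _ hy'⟩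
    -- the largest ideal inside `K`
    let K1 : Submodule F R :=
      { carrier := {x | ∀ a b : R, a * x * b ∈ K}
        add_mem' := fun hx hy a b => by
          rw [mul_add, add_mul]
          exact K.add_mem (hx a b) (hy a b)
        zero_mem' := fun a b => by
          rw [mul_zero, zero_mul]
          exact K.zero_mem
        smul_mem' := fun c x hx a b => by
          rw [mul_smul_comm, smul_mul_assoc]
          exact K.smul_mem c (hx a b) }
    refine ⟨K1, TS.of_mem ?_ ?_, ?_, ?_⟩
    · intro r x hx a b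
      rw [← mul_assoc]
      exact hx _ _
    · intro r x hx a b
      rw [← mul_assoc, mul_assoc _ r b]
      exact hx _ _
    · obtain ⟨P, ⟨S, rfl⟩, hPB⟩ := hBfi
      set S' : Finset R := insert 1 S with hS'
      have hSB : Submodule.span F (S' : Set R) ⊔ B1 = ⊤ := by
        rw [eq_top_iff, ← hPB]
        refine sup_le_sup_right (Submodule.span_mono ?_) _
        simp [S']
      have h1S : (1 : R) ∈ Submodule.span F (S' : Set R) :=
        Submodule.subset_span (by simp [S'])
      have := (fi_iff K).1 hKfi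
      refine (fi_ker (V := (S' × S') → R ⧸ K) (LinearMap.pi fun p =>
        K.mkQ.comp ((LinearMap.mulLeft F p.1.1).comp (LinearMap.mulRight F p.2.1)))).mono ?_
      intro x hx
      have hx1 : ∀ a ∈ S', ∀ b ∈ S', a * (x * b) ∈ K := by
        intro a ha b hb
        have := congrFun (LinearMap.mem_ker.1 hx) (⟨a, ha⟩, ⟨b, hb⟩)
        simpa using this
      have hx2 : ∀ a ∈ Submodule.span F (S' : Set R), ∀ b ∈ Submodule.span F (S' : Set R),
          a * (x * b) ∈ K := by
        intro a ha b hb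
        induction ha using Submodule.span_induction with
        | mem a ha =>
          induction hb using Submodule.span_induction with
          | mem b hb => exact hx1 a ha b hb
          | zero => rw [mul_zero, mul_zero]; exact K.zero_mem
          | add y z _ _ hy hz =>
            rw [mul_add, mul_add]
            exact K.add_mem hy hz
          | smul c y _ hy =>
            rw [mul_smul_comm, mul_smul_comm]
            exact K.smul_mem c hy
        | zero => rw [zero_mul]; exact K.zero_mem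
        | add y z _ _ hy hz =>
          rw [add_mul]
          exact K.add_mem hy hz
        | smul c y _ hy =>
          rw [smul_mul_assoc]
          exact K.smul_mem c hy
      intro a b
      have ha : a ∈ Submodule.span F (S' : Set R) ⊔ B1 := by rw [hSB]; trivial
      have hb : b ∈ Submodule.span F (S' : Set R) ⊔ B1 := by rw [hSB]; trivial
      obtain ⟨p, hp, a', ha', rfl⟩ := Submodule.mem_sup.1 ha
      obtain ⟨q, hq, b', hb', rfl⟩ := Submodule.mem_sup.1 hb
      have e1 : (p + a') * x * (q + b') = p * (x * q) + a' * (1 * (x * q)) +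
          (p * (x * 1)) * b' + a' * ((1 * (x * 1)) * b') := by noncomm_ring
      rw [e1]
      refine K.add_mem (K.add_mem (K.add_mem ?_ ?_) ?_) ?_
      · exact hx2 p hp q hq
      · exact hBK a' ha' _ (hx2 1 h1S q hq)
      · exact hKB b' hb' _ (hx2 p hp 1 h1S)
      · exact hBK a' ha' _ (hKB b' hb' _ (hx2 1 h1S 1 h1S))
    · intro hcon
      apply hhK
      have := hcon 1 1
      rwa [one_mul, mul_one] at this

theorem resid_main [Finite F] (hD : GoodD D) (hd : 0 < d) (hα : α 1 = 1)
    (hdat : Dat D α R A e) (h : R) (h0 : h ≠ 0) :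
    ∃ I : Submodule F R, TS I ∧ FI I ∧ h ∉ I := by
  classical
  have two := hdat.two
  have hft : Algebra.FiniteType F R :=
    ⟨⟨Finset.univ.image e, by simpa using hdat.top⟩⟩
  obtain ⟨B, hB⟩ := card_le_of_isSimpleModule.{u, v, v} (F := F) D hD α hα
  obtain ⟨I0, hI0ts, hI0fi, hI0⟩ := exists_fi_kernel (F := F) hdat.top B
  set A' : Submodule F R := A.restrictScalars F with hA'
  have hA'mem : ∀ x, x ∈ A' ↔ x ∈ A := fun x => Iff.rfl
  have hA'ts : TS A' := TS.of_mem (fun r x hx => A.mul_mem_left r hx)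
    (fun r x hx => A.mul_mem_right r hx)
  have hA'fi : FI A' := by
    refine ⟨Submodule.span F {1}, Submodule.fg_span_singleton 1, ?_⟩
    rw [eq_top_iff]
    intro x _
    obtain ⟨c, hc⟩ := hdat.exists_sub_mem x
    rw [show x = c • 1 + (x - algebraMap F R c) by rw [Algebra.algebraMap_eq_smul_one]; abel]
    exact Submodule.add_mem_sup (Submodule.smul_mem _ _ (Submodule.mem_span_singleton_self _)) hc
  set B1 : Submodule F R := I0 ⊓ A' with hB1
  have hB1ts : TS B1 := hI0ts.inf hA'ts
  have hB1fi : FI B1 := fi_inf hI0fi hA'fi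
  have hcml : CMLId α R := hdat.mlid.cml hdat.comm_mem
  have hnil : ∀ x ∈ cI F R, x ∈ B1 → IsNilpotent x := by
    intro x hx hxB
    by_contra hcon
    obtain ⟨N, _, _, hs, hf, n, hn⟩ := exists_simple_of_not_nilp hα hcml x hcon
    rcases hB R A hcml hdat.did hdat.comm_mem N with h1 | h1
    · exact hn (cI_smul_eq_zero (F := F) h1 hx n)
    · exact hn (smul_eq_zero_of_card_le hI0 N h1 hxB.1 n)
  -- the subalgebra
  let R1 : Subalgebra F R :=
    { carrier := {x | ∃ c : F, x - algebraMap F R c ∈ B1}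
      mul_mem' := by
        rintro x y ⟨c, hc⟩ ⟨c', hc'⟩
        refine ⟨c * c', ?_⟩
        have : x * y - algebraMap F R (c * c') = (x - algebraMap F R c) * y +
            algebraMap F R c * (y - algebraMap F R c') := by
          rw [map_mul]
          noncomm_ring
        rw [this]
        exact B1.add_mem (hB1ts.mul_mem_right _ hc) (hB1ts.mul_mem_left _ hc')
      add_mem' := by
        rintro x y ⟨c, hc⟩ ⟨c', hc'⟩
        refine ⟨c + c', ?_⟩
        rw [map_add, add_sub_add_comm]
        exact B1.add_mem hc hc'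
      algebraMap_mem' := fun c => ⟨c, by rw [sub_self]; exact B1.zero_mem⟩ }
  have hR1 : B1 ≤ Subalgebra.toSubmodule R1 := by
    intro x hx
    exact ⟨0, by simpa using hx⟩
  let A1 : Ideal R1 :=
    { carrier := {x | x.1 ∈ B1}
      add_mem' := fun hx hy => B1.add_mem hx hy
      zero_mem' := B1.zero_mem
      smul_mem' := fun r x hx => hB1ts.mul_mem_left r.1 hx }
  have hA1mem : ∀ x : R1, x ∈ A1 ↔ x.1 ∈ B1 := fun x => Iff.rfl
  obtain ⟨W, ⟨S, rfl⟩, hWB, hBW⟩ := schreier hdat.top hB1ts hB1fi
  have hSB : ∀ x ∈ S, x ∈ B1 := fun x hx => hWB (Submodule.subset_span hx)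
  let e1 : Fin S.card → R1 := fun i => ⟨(S.equivFin.symm i).1, hR1 (hSB _ (S.equivFin.symm i).2)⟩
  have he1 : Subtype.val '' (Set.range e1) = (S : Set R) := by
    ext x
    constructor
    · rintro ⟨_, ⟨i, rfl⟩, rfl⟩
      exact (S.equivFin.symm i).2
    · intro hx
      refine ⟨_, ⟨S.equivFin ⟨x, hx⟩, rfl⟩, ?_⟩
      simp [e1]
  have htop1 : Algebra.adjoin F (Set.range e1) = ⊤ := by
    rw [eq_top_iff]
    rintro ⟨x, c, hc⟩ _
    have h1 : (Algebra.adjoin F (Set.range e1)).map R1.val = Algebra.adjoin F (S : Set R) := by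
      rw [AlgHom.map_adjoin]
      congr 1
    have h2 : x - algebraMap F R c ∈ Algebra.adjoin F (S : Set R) := by
      have h3 := hBW hc
      have h4 : Algebra.adjoin F ((Submodule.span F (S : Set R) : Submodule F R) : Set R) ≤
          Algebra.adjoin F (S : Set R) := Algebra.adjoin_le (Algebra.span_le_adjoin F _)
      exact h4 h3
    rw [← h1] at h2
    obtain ⟨t, ht, htx⟩ := h2
    have h5 : (⟨x, c, hc⟩ : R1) = t + algebraMap F R1 c := by
      apply Subtype.ext
      have : (t : R) = x - algebraMap F R c := htx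
      change x = (t : R) + algebraMap F R c
      rw [this]
      abel
    rw [h5]
    exact Subalgebra.add_mem _ ht (Subalgebra.algebraMap_mem _ c)
  have hdat1 : Dat D α R1 A1 e1 :=
    { two := ⟨fun {x} r hx => hB1ts.mul_mem_right r.1 hx⟩
      did := by
        intro a ha
        have h1 := hdat.did (R1.val ∘ a) (fun i => (ha i).2)
        rw [ev_map] at h1
        exact Subtype.ext h1
      mlid := by
        intro a ha
        have h1 := hdat.mlid (fun i => (a i).1) (fun i => (ha i).2)
        apply Subtype.ext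
        change R1.val _ = 0
        rw [← h1, map_sum]
        refine Finset.sum_congr rfl ?_
        intro σ _
        rw [map_smul, map_list_prod, List.map_ofFn]
        rfl
      mem := fun i => hSB _ (S.equivFin.symm i).2
      top := htop1 }
  have hcI1 : cI F R1 ≤ (cI F R ⊓ B1).comap R1.val.toLinearMap := by
    refine cI_le ((ts_cI.inf hB1ts).comap R1.val) ?_
    rintro ⟨x, c, hc⟩ ⟨y, c', hc'⟩
    refine ⟨comm_mem_cI x y, ?_⟩
    change x * y - y * x ∈ B1
    have : x * y - y * x = (x - algebraMap F R c) * y - y * (x - algebraMap F R c) := by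
      rw [sub_mul, mul_sub, Algebra.commutes c y]
      abel
    rw [this]
    exact B1.sub_mem (hB1ts.mul_mem_right _ hc) (hB1ts.mul_mem_left _ hc)
  have hnil1 : ∀ x ∈ cI F R1, IsNilpotent x := by
    intro x hx
    obtain ⟨h1, h2⟩ := hcI1 hx
    obtain ⟨n, hn⟩ := hnil _ h1 h2
    exact ⟨n, Subtype.ext (by simpa using hn)⟩
  obtain ⟨n, hn⟩ := nilpotent_of_nil hd hα hdat1 hnil1
  exact lift_resid hB1ts hB1fi R1 hR1
    (fun h1 h10 => resid_of_nilpotent hD hd hα hdat1 hn h1 h10) h h0

end Pool.Agent.Lib.MP_5aea19_al
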